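import Mathlib

set_option autoImplicit false

/-!
# MP_fe58d8_pr, ALG part: definitions and basic facts (specification: helper51, proofs of this
file: helper99)

`Pat L` : fixed-point-free involutions of `ℤ`, `L`-periodic and noncrossing.  Position `x : ℤ` of the
universal cover; the gap `c` lies between the positions `c - 1` and `c`.
-/

namespace Pool.Agent.H51.TA

/-! ## Part 0: definitions (file Defs.lean) -/

@[ext] structure Pat (L : ℕ) where
  t : ℤ → ℤ
  inv : ∀ x, t (t x) = x
  ne : ∀ x, t x ≠ x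
  per : ∀ x, t (x + L) = t x + L
  nc : ∀ x y, x < y → y < t x → x < t y ∧ t y < t x

/-- the Temperley–Lieb generator acting at the positions `i`, `i + 1` (mod `L`) -/
def eFun (L : ℕ) (i : ℤ) (t : ℤ → ℤ) (x : ℤ) : ℤ :=
  if (x - i) % L = 0 then x + 1
  else if (x - i - 1) % L = 0 then x - 1
  else if (t x - i) % L = 0 then t (t x + 1)
  else if (t x - i - 1) % L = 0 then t (t x - 1)
  else t x

/-- the order preserving injection of the old positions (period `L`) into the new positions
(period `L + 2`), missing the positions `≡ 0, 1` -/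
def up (L : ℕ) (y : ℤ) : ℤ := y + 2 * (y / L) + 2

/-- inverse of `up` on the positions `≢ 0, 1 mod (L + 2)` -/
def down (L : ℕ) (x : ℤ) : ℤ := x - 2 * (x / (L + 2 : ℤ)) - 2

/-- insert a small arc at the positions `0, 1` (mod `L + 2`) -/
def insFun (L : ℕ) (t : ℤ → ℤ) (x : ℤ) : ℤ :=
  if x % (L + 2 : ℤ) = 0 then x + 1
  else if (x - 1) % (L + 2 : ℤ) = 0 then x - 1
  else up L (t (down L x))

/-- the maximally nested pattern, `n` nested arcs around the gap `0` (period `2 n`) -/
def chiFun (n : ℕ) (x : ℤ) : ℤ := 4 * n * ((x + n) / (2 * n : ℤ)) - 1 - x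

namespace Pat

variable {L : ℕ}

/-- rotation by one position: the new position `x` is the old position `x + 1` -/
def rot (π : Pat L) : Pat L where
  t x := π.t (x + 1) - 1
  inv x := by simp [π.inv]
  ne x h := π.ne (x + 1) (by linarith)
  per x := by
    have := π.per (x + 1)
    rw [show x + L + 1 = x + 1 + L by ring, this]; ring
  nc x y h1 h2 := by
    have := π.nc (x + 1) (y + 1) (by linarith) (by linarith)
    constructor <;> linarith [this.1, this.2]

/-- inverse rotation -/
def rotInv (π : Pat L) : Pat L where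
  t x := π.t (x - 1) + 1
  inv x := by simp [π.inv]
  ne x h := π.ne (x - 1) (by linarith)
  per x := by
    have := π.per (x - 1)
    rw [show x + L - 1 = x - 1 + L by ring, this]; ring
  nc x y h1 h2 := by
    have := π.nc (x - 1) (y - 1) (by linarith) (by linarith)
    constructor <;> linarith [this.1, this.2]

end Pat

/-! ### auxiliary lemmas -/

section core

variable (t : ℤ → ℤ) (I : ℤ → Prop) [DecidablePred I]

/-- the abstract Temperley–Lieb generator acting at the positions `k, k + 1`, `I k` -/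
def coreT (x : ℤ) : ℤ :=
  if I x then x + 1
  else if I (x - 1) then x - 1
  else if I (t x) then t (t x + 1)
  else if I (t x - 1) then t (t x - 1)
  else t x

variable {t I}

theorem core_ne (inv : ∀ x, t (t x) = x) (x : ℤ) (ne : ∀ x, t x ≠ x) : coreT t I x ≠ x := by
  unfold coreT
  split_ifs with h1 h2 h3 h4
  · omega
  · omega
  · intro h
    have := congrArg t h
    rw [inv] at this
    omega
  · intro h
    have := congrArg t h
    rw [inv] at this
    omega
  · exact ne x

variable (inv : ∀ x, t (t x) = x) (ne : ∀ x, t x ≠ x)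
  (nc : ∀ x y, x < y → y < t x → x < t y ∧ t y < t x)
  (hI : ∀ k, I k → ¬ I (k + 1))
  (hA : ∀ k, I k → ¬ I (t k))
  (hB : ∀ k, I k → ¬ I (t (k + 1) - 1))
  (hC : ∀ k, I k → (I (t k - 1) ↔ I (t (k + 1))))

include inv hI hA hB hC in
theorem core_inv (x : ℤ) : coreT t I (coreT t I x) = x := by
  by_cases h1 : I x
  · have h : coreT t I x = x + 1 := by simp [coreT, h1]
    rw [h]
    have h2 : ¬ I (x + 1) := hI x h1
    simp [coreT, h1, h2]
  by_cases h2 : I (x - 1)
  · have h : coreT t I x = x - 1 := by simp [coreT, h1, h2]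
    rw [h]
    simp [coreT, h2]
  by_cases h3 : I (t x)
  · have h : coreT t I x = t (t x + 1) := by simp [coreT, h1, h2, h3]
    rw [h]
    -- `z = t (t x + 1)`
    have e1 : ¬ I (t (t x + 1)) := by
      intro h4
      have := (hC _ h3).2 h4
      rw [inv] at this
      exact h2 this
    have e2 : ¬ I (t (t x + 1) - 1) := hB _ h3
    have e3 : ¬ I (t (t (t x + 1))) := by
      rw [inv]; exact hI _ h3
    have e4 : I (t (t (t x + 1)) - 1) := by
      rw [inv]; simpa using h3
    simp [coreT, e1, e2, inv]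
    simp [h3, hI _ h3]
  by_cases h4 : I (t x - 1)
  · have h : coreT t I x = t (t x - 1) := by simp [coreT, h1, h2, h3, h4]
    rw [h]
    have e1 : ¬ I (t (t x - 1)) := hA _ h4
    have e2 : ¬ I (t (t x - 1) - 1) := by
      intro h5
      have := (hC _ h4).1 h5
      rw [sub_add_cancel, inv] at this
      exact h1 this
    simp [coreT, e1, e2, inv, h4]
  · have h : coreT t I x = t x := by simp [coreT, h1, h2, h3, h4]
    rw [h]
    simp [coreT, h1, h2, h3, h4, inv]

theorem core_stable (S : Set ℤ) (h1 : ∀ y ∈ S, t y ∈ S)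
    (h2 : ∀ k, I k → (k ∈ S ↔ k + 1 ∈ S)) (y : ℤ) (hy : y ∈ S) : coreT t I y ∈ S := by
  unfold coreT
  split_ifs with a1 a2 a3 a4
  · exact (h2 y a1).1 hy
  · exact (h2 _ a2).2 (by simpa using hy)
  · exact h1 _ ((h2 _ a3).1 (h1 y hy))
  · refine h1 _ ((h2 _ a4).2 ?_)
    rw [sub_add_cancel]
    exact h1 y hy
  · exact h1 y hy

include inv ne nc hI hA hB hC in
theorem core_nc (x y : ℤ) (hxy : x < y) (hy : y < coreT t I x) :
    x < coreT t I y ∧ coreT t I y < coreT t I x := by
  have ne' : ∀ a, t a ≠ a := ne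
  by_cases h1 : I x
  · have h : coreT t I x = x + 1 := by simp [coreT, h1]
    omega
  by_cases h2 : I (x - 1)
  · have h : coreT t I x = x - 1 := by simp [coreT, h1, h2]
    omega
  by_cases h3 : I (t x)
  · have h : coreT t I x = t (t x + 1) := by simp [coreT, h1, h2, h3]
    rw [h] at hy ⊢
    obtain ⟨k, hk⟩ : ∃ k, k = t x := ⟨_, rfl⟩
    obtain ⟨z, hz⟩ : ∃ z, z = t (k + 1) := ⟨_, rfl⟩
    rw [← hk, ← hz] at hy ⊢
    rw [← hk] at h3
    have tk : t k = x := by rw [hk, inv]
    have tz : t z = k + 1 := by rw [hz, inv]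
    -- only `x < k < k + 1 < z`
    have hzI : ¬ I z := by
      intro h4
      have := (hC k h3).2 (by rwa [← hz])
      rw [tk] at this
      exact h2 this
    have hzI' : ¬ I (z - 1) := by rw [hz]; exact hB k h3
    have hxk : x < k := by
      by_contra hcon
      have h5 : k ≠ x := by rw [hk]; exact ne x
      have h6 : x ≠ k + 1 := by
        rintro rfl
        apply h2
        simpa using h3
      have h7 := nc k (k + 1) (by omega) (by rw [tk]; omega)
      rw [tk, ← hz] at h7
      omega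
    have hkz : k + 1 < z := by
      by_contra hcon
      have h5 : z ≠ k + 1 := by
        intro h5
        exact ne (k + 1) (by rw [← hz]; exact h5)
      have h6 : z ≠ k := by
        intro h6
        rw [h6] at hzI
        exact hzI h3
      have h7 := nc x z (by omega) (by rw [← hk]; omega)
      rw [tz, ← hk] at h7
      omega
    by_cases hyk : y = k
    · have : coreT t I y = k + 1 := by rw [hyk]; simp [coreT, h3]
      rw [this]; omega
    by_cases hyk' : y = k + 1
    · have h4 : ¬ I (k + 1) := hI k h3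
      have : coreT t I y = k := by rw [hyk']; simp [coreT, h3, h4]
      rw [this]; omega
    have key := core_stable (t := t) (I := I) {y | x < y ∧ y < z ∧ y ≠ k ∧ y ≠ k + 1}
      (by
        rintro y ⟨a1, a2, a3, a4⟩
        have b1 : t y ≠ k := by
          intro h; rw [← h, inv] at tk; omega
        have b2 : t y ≠ k + 1 := by
          intro h; rw [← h, inv] at hz; omega
        rcases lt_or_gt_of_ne a3 with h5 | h5
        · have := nc x y a1 (by rw [← hk]; exact h5)
          rw [← hk] at this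
          exact ⟨this.1, by omega, b1, b2⟩
        · have := nc (k + 1) y (by omega) (by rw [← hz]; exact a2)
          rw [← hz] at this
          exact ⟨by omega, this.2, b1, b2⟩)
      (by
        intro k' hk'
        have c1 : k' ≠ x := by rintro rfl; exact h1 hk'
        have c2 : k' + 1 ≠ z := by
          intro h; apply hzI'; rw [← h]; simpa using hk'
        have c3 : k' + 1 ≠ k := by
          intro h; rw [← h] at h3; exact hI _ hk' h3
        have c4 : k' ≠ k + 1 := by
          rintro rfl; exact hI _ h3 hk'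
        simp only [Set.mem_ofPred_eq]
        constructor
        · rintro ⟨a1, a2, a3, a4⟩
          refine ⟨by omega, by omega, c3, by omega⟩
        · rintro ⟨a1, a2, a3, a4⟩
          refine ⟨by omega, by omega, by omega, c4⟩)
      y ⟨hxy, hy, hyk, hyk'⟩
    exact ⟨key.1, key.2.1⟩
  by_cases h4 : I (t x - 1)
  · have h : coreT t I x = t (t x - 1) := by simp [coreT, h1, h2, h3, h4]
    rw [h] at hy ⊢
    obtain ⟨k, hk⟩ : ∃ k, k = t x - 1 := ⟨_, rfl⟩
    obtain ⟨z, hz⟩ : ∃ z, z = t k := ⟨_, rfl⟩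
    have tx : t x = k + 1 := by omega
    rw [← hk] at h4
    rw [← hk, ← hz] at hy ⊢
    have tk : t (k + 1) = x := by rw [← tx, inv]
    have tz : t z = k := by rw [hz, inv]
    have hzI : ¬ I z := by rw [hz]; exact hA k h4
    have hzI' : ¬ I (z - 1) := by
      intro h5
      have := (hC k h4).1 (by rwa [← hz])
      rw [tk] at this
      exact h1 this
    have hst : ∀ y, x < y → y < z → x < t y ∧ t y < z := by
      intro y a1 a2
      have b1 : t y ≠ k := by
        intro h; rw [← h, inv] at hz; omega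
      have b2 : t y ≠ k + 1 := by
        intro h; rw [← h, inv] at tk; omega
      have b3 : t y ≠ x := by
        intro h
        have := congrArg t h
        rw [inv, tx] at this
        -- `y = k + 1`
        have h5 := nc x k (by omega) (by omega)
        rw [← hz, tx] at h5
        omega
      have b4 : t y ≠ z := by
        intro h
        have := congrArg t h
        rw [inv, tz] at this
        have h5 := nc x k (by omega) (by omega)
        rw [← hz, tx] at h5
        omega
      by_cases hxk : x < k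
      · -- `x < z < k < k + 1`
        have h5 := nc x k hxk (by omega)
        rw [← hz, tx] at h5
        have h6 := nc x y a1 (by omega)
        rw [tx] at h6
        refine ⟨h6.1, ?_⟩
        by_contra hcon
        have h7 := nc z (t y) (by omega) (by rw [tz]; omega)
        rw [inv] at h7
        omega
      · have h5 : x ≠ k := by rintro rfl; exact h1 h4
        have h6 : x ≠ k + 1 := by
          intro h6
          exact ne x (by omega)
        -- `k < k + 1 < x < z`
        have h7 := nc k y (by omega) (by omega)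
        rw [← hz] at h7
        refine ⟨?_, h7.2⟩
        by_contra hcon
        have h8 := nc (k + 1) (t y) (by omega) (by omega)
        rw [inv] at h8
        omega
    have key := core_stable (t := t) (I := I) {y | x < y ∧ y < z}
      (fun y hy => hst y hy.1 hy.2)
      (by
        intro k' hk'
        have c1 : k' ≠ x := by rintro rfl; exact h1 hk'
        have c2 : k' + 1 ≠ z := by
          intro h; apply hzI'; rw [← h]; simpa using hk'
        simp only [Set.mem_ofPred_eq]
        omega)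
      y ⟨hxy, hy⟩
    exact key
  · have h : coreT t I x = t x := by simp [coreT, h1, h2, h3, h4]
    rw [h] at hy ⊢
    have key := core_stable (t := t) (I := I) {y | x < y ∧ y < t x}
      (fun y hy => nc x y hy.1 hy.2)
      (by
        intro k' hk'
        have c1 : k' ≠ x := by rintro rfl; exact h1 hk'
        have c2 : k' + 1 ≠ t x := by
          intro h; apply h4; rw [← h]; simpa using hk'
        simp only [Set.mem_ofPred_eq]
        omega)
      y ⟨hxy, hy⟩
    exact key

end core

/-- periodicity by multiples -/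
theorem per_mul {L : ℕ} (π : Pat L) (x m : ℤ) : π.t (x + L * m) = π.t x + L * m := by
  induction m using Int.induction_on with
  | zero => simp
  | succ m ih =>
    rw [show x + (L : ℤ) * (m + 1) = (x + L * m) + L by ring, π.per, ih]
    ring
  | pred m ih =>
    have := π.per (x + L * (-m - 1))
    rw [show x + (L : ℤ) * (-m - 1) + L = x + L * (-m) by ring, ih] at this
    linarith

theorem not_dvd_t_sub {L : ℕ} (π : Pat L) (x : ℤ) : ¬ (L : ℤ) ∣ π.t x - x := by
  rintro ⟨m, hm⟩
  have h1 : π.t x = x + L * m := by linarith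
  have h2 := π.inv x
  rw [h1, per_mul, h1] at h2
  apply π.ne x
  rw [h1]
  linarith

theorem dvd_t_sub_iff {L : ℕ} (π : Pat L) (x y : ℤ) :
    (L : ℤ) ∣ π.t x - y ↔ (L : ℤ) ∣ x - π.t y := by
  constructor
  · rintro ⟨m, hm⟩
    have h1 : π.t x = y + L * m := by linarith
    have h2 := π.inv x
    rw [h1, per_mul] at h2
    exact ⟨m, by linarith⟩
  · rintro ⟨m, hm⟩
    have h1 : x = π.t y + L * m := by linarith
    refine ⟨m, ?_⟩
    rw [h1, per_mul, π.inv]
    ring

theorem abs_lt_per {L : ℕ} (hL : 0 < L) (π : Pat L) (x : ℤ) :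
    -L < π.t x - x ∧ π.t x - x < L := by
  have hL' : (0 : ℤ) < L := by exact_mod_cast hL
  have key : ∀ x, π.t x - x < L := by
    intro x
    by_contra hcon
    have h1 : π.t x ≠ x + L := by
      intro h
      exact not_dvd_t_sub π x ⟨1, by rw [h]; ring⟩
    have h2 := π.nc x (x + L) (by omega) (by omega)
    rw [π.per] at h2
    omega
  have := key (π.t x)
  rw [π.inv] at this
  exact ⟨by linarith, key x⟩

section res

variable {L : ℕ} (hL : 2 ≤ L) (i : ℤ) (π : Pat L)

/-- the residue predicate -/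
def Res (L : ℕ) (i : ℤ) (x : ℤ) : Prop := (x - i) % (L : ℤ) = 0

instance (L : ℕ) (i : ℤ) : DecidablePred (Res L i) := fun x =>
  inferInstanceAs (Decidable ((x - i) % (L : ℤ) = 0))

theorem eFun_eq_core (L : ℕ) (i : ℤ) (t : ℤ → ℤ) : eFun L i t = coreT t (Res L i) := by
  funext x
  have h1 : ∀ z : ℤ, z - i - 1 = z - 1 - i := fun z => by ring
  unfold eFun coreT
  simp only [Res, h1]
  split_ifs <;> rfl

theorem res_iff (L : ℕ) (i x : ℤ) : Res L i x ↔ (L : ℤ) ∣ x - i :=
  (Int.dvd_iff_emod_eq_zero).symm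

include hL in
theorem res_hI (k : ℤ) (hk : Res L i k) : ¬ Res L i (k + 1) := by
  rw [res_iff] at *
  intro h
  have h1 : (L : ℤ) ∣ 1 := by
    have := Int.dvd_sub h hk
    rwa [show k + 1 - i - (k - i) = 1 by ring] at this
  have h2 := Int.le_of_dvd one_pos h1
  omega

theorem res_hA (k : ℤ) (hk : Res L i k) : ¬ Res L i (π.t k) := by
  rw [res_iff] at *
  intro h
  apply not_dvd_t_sub π k
  have := Int.dvd_sub h hk
  rwa [show π.t k - i - (k - i) = π.t k - k by ring] at this

theorem res_hB (k : ℤ) (hk : Res L i k) : ¬ Res L i (π.t (k + 1) - 1) := by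
  rw [res_iff] at *
  intro h
  apply not_dvd_t_sub π (k + 1)
  have := Int.dvd_sub h hk
  rwa [show π.t (k + 1) - 1 - i - (k - i) = π.t (k + 1) - (k + 1) by ring] at this

theorem res_hC (k : ℤ) (hk : Res L i k) : (Res L i (π.t k - 1) ↔ Res L i (π.t (k + 1))) := by
  rw [res_iff] at *
  have h1 : (L : ℤ) ∣ π.t k - 1 - i ↔ (L : ℤ) ∣ π.t k - (k + 1) := by
    constructor
    · intro h
      have := Int.dvd_sub h hk
      rwa [show π.t k - 1 - i - (k - i) = π.t k - (k + 1) by ring] at this
    · intro h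
      have := Int.dvd_add h hk
      rwa [show π.t k - (k + 1) + (k - i) = π.t k - 1 - i by ring] at this
  have h2 : (L : ℤ) ∣ π.t (k + 1) - i ↔ (L : ℤ) ∣ k - π.t (k + 1) := by
    constructor
    · intro h
      have := Int.dvd_sub hk h
      rwa [show k - i - (π.t (k + 1) - i) = k - π.t (k + 1) by ring] at this
    · intro h
      have := Int.dvd_sub hk h
      rwa [show k - i - (k - π.t (k + 1)) = π.t (k + 1) - i by ring] at this
  rw [h1, dvd_t_sub_iff, res_iff, h2]

end res

section up

variable {L : ℕ} (hL : 0 < L)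

include hL

theorem up_block (q r : ℤ) (h0 : 0 ≤ r) (h1 : r < L) :
    up L (L * q + r) = (L + 2) * q + (r + 2) := by
  have hL' : (0 : ℤ) < L := by exact_mod_cast hL
  unfold up
  rw [Int.add_comm (L * q) r, Int.add_mul_ediv_left _ _ hL'.ne', Int.ediv_eq_zero_of_lt h0 h1]
  ring

theorem exists_up_block (y : ℤ) : ∃ q r : ℤ, 0 ≤ r ∧ r < L ∧ y = L * q + r := by
  have hL' : (0 : ℤ) < L := by exact_mod_cast hL
  exact ⟨y / L, y % L, Int.emod_nonneg y hL'.ne', Int.emod_lt_of_pos y hL',
    (Int.mul_ediv_add_emod y L).symm⟩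

theorem down_up (y : ℤ) : down L (up L y) = y := by
  obtain ⟨q, r, h0, h1, rfl⟩ := exists_up_block hL y
  have hL' : (0 : ℤ) < (L : ℤ) + 2 := by positivity
  rw [up_block hL q r h0 h1]
  unfold down
  rw [Int.add_comm (((L : ℤ) + 2) * q), Int.add_mul_ediv_left _ _ hL'.ne',
    Int.ediv_eq_zero_of_lt (by omega) (by omega)]
  ring

theorem up_injective : Function.Injective (up L) := fun a b h => by
  have := congrArg (down L) h
  rwa [down_up hL, down_up hL] at this

theorem up_strictMono : StrictMono (up L) := by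
  intro a b h
  have hL' : (0 : ℤ) < L := by exact_mod_cast hL
  have h1 : a / L ≤ b / L := Int.ediv_le_ediv hL' h.le
  unfold up
  omega

theorem up_add (y : ℤ) : up L (y + L) = up L y + ((L : ℤ) + 2) := by
  have hL' : (0 : ℤ) < L := by exact_mod_cast hL
  unfold up
  rw [Int.add_ediv_of_dvd_right (dvd_refl _), Int.ediv_self hL'.ne']
  ring

theorem up_emod (y : ℤ) : 2 ≤ up L y % ((L : ℤ) + 2) := by
  obtain ⟨q, r, h0, h1, rfl⟩ := exists_up_block hL y
  rw [up_block hL q r h0 h1, Int.add_comm, Int.add_mul_emod_self_left,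
    Int.emod_eq_of_lt (by omega) (by omega)]
  omega

theorem up_ne_zero (y : ℤ) : ¬ up L y % ((L : ℤ) + 2) = 0 := by
  have := up_emod hL y
  omega

theorem up_ne_one (y : ℤ) : ¬ (up L y - 1) % ((L : ℤ) + 2) = 0 := by
  intro h
  obtain ⟨k, hk⟩ : ((L : ℤ) + 2) ∣ up L y - 1 := Int.dvd_of_emod_eq_zero h
  have h3 := up_emod hL y
  rw [show up L y = 1 + ((L : ℤ) + 2) * k by linarith, Int.add_mul_emod_self_left,
    Int.emod_eq_of_lt (by omega) (by omega)] at h3
  omega

theorem pos_cases (x : ℤ) :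
    x % ((L : ℤ) + 2) = 0 ∨ (x - 1) % ((L : ℤ) + 2) = 0 ∨ ∃ a, x = up L a := by
  have hL' : (0 : ℤ) < (L : ℤ) + 2 := by positivity
  have h0 := Int.emod_nonneg x hL'.ne'
  have h1 := Int.emod_lt_of_pos x hL'
  have h2 := Int.mul_ediv_add_emod x ((L : ℤ) + 2)
  by_cases h3 : x % ((L : ℤ) + 2) = 0
  · exact Or.inl h3
  by_cases h4 : x % ((L : ℤ) + 2) = 1
  · refine Or.inr (Or.inl ?_)
    rw [Int.sub_emod, h4, Int.emod_eq_of_lt (a := 1) (by omega) (by omega)]
    simp
  · refine Or.inr (Or.inr ⟨L * (x / ((L : ℤ) + 2)) + (x % ((L : ℤ) + 2) - 2), ?_⟩)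
    rw [up_block hL _ _ (by omega) (by omega)]
    linarith

omit hL in
theorem insFun_zero {t : ℤ → ℤ} {x : ℤ} (h : x % ((L : ℤ) + 2) = 0) :
    insFun L t x = x + 1 := by
  simp [insFun, h]

theorem insFun_one {t : ℤ → ℤ} {x : ℤ} (h : (x - 1) % ((L : ℤ) + 2) = 0) :
    insFun L t x = x - 1 := by
  have h1 : ¬ x % ((L : ℤ) + 2) = 0 := by
    intro h2
    have h3 := Int.dvd_sub (Int.dvd_of_emod_eq_zero h2) (Int.dvd_of_emod_eq_zero h)
    rw [show x - (x - 1) = 1 by ring] at h3
    have h4 := Int.le_of_dvd one_pos h3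
    omega
  simp [insFun, h, h1]

theorem insFun_up {t : ℤ → ℤ} (a : ℤ) : insFun L t (up L a) = up L (t a) := by
  simp [insFun, up_ne_zero hL a, up_ne_one hL a, down_up hL]

end up

section chi

variable {n : ℕ} (hn : 0 < n)

include hn

theorem exists_block (x : ℤ) : ∃ q r : ℤ, 0 ≤ r ∧ r < 2 * n ∧ x = 2 * n * q + r - n := by
  have hn' : (0 : ℤ) < 2 * n := by positivity
  refine ⟨(x + n) / (2 * n), (x + n) % (2 * n), Int.emod_nonneg _ hn'.ne',
    Int.emod_lt_of_pos _ hn', ?_⟩
  have := Int.mul_ediv_add_emod (x + n) (2 * n)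
  linarith

theorem chiFun_block (q r : ℤ) (h0 : 0 ≤ r) (h1 : r < 2 * n) :
    chiFun n (2 * n * q + r - n) = 2 * n * q + (2 * n - 1 - r) - n := by
  have hn' : (0 : ℤ) < 2 * n := by positivity
  unfold chiFun
  rw [sub_add_cancel, Int.add_comm (2 * (n : ℤ) * q) r, Int.add_mul_ediv_left _ _ hn'.ne',
    Int.ediv_eq_zero_of_lt h0 h1]
  ring

end chi

/-! ### JOB W1: `e`, `ins`, `chi` are well defined, `Pat L` is finite -/

theorem eFun_inv {L : ℕ} (hL : 2 ≤ L) (i : ℤ) (π : Pat L) (x : ℤ) :
    eFun L i π.t (eFun L i π.t x) = x := by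
  rw [eFun_eq_core]
  exact core_inv π.inv (res_hI hL i) (res_hA i π) (res_hB i π) (res_hC i π) x

theorem eFun_ne {L : ℕ} (hL : 2 ≤ L) (i : ℤ) (π : Pat L) (x : ℤ) :
    eFun L i π.t x ≠ x := by
  rw [eFun_eq_core]
  exact core_ne π.inv x π.ne

theorem eFun_per {L : ℕ} (hL : 2 ≤ L) (i : ℤ) (π : Pat L) (x : ℤ) :
    eFun L i π.t (x + L) = eFun L i π.t x + L := by
  have h1 : ∀ z : ℤ, (z + L - i) % L = (z - i) % L := fun z => by
    rw [show z + L - i = (z - i) + L by ring, Int.add_emod_right]
  have h2 : ∀ z : ℤ, (z + L - i - 1) % L = (z - i - 1) % L := fun z => by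
    rw [show z + L - i - 1 = (z - i - 1) + L by ring, Int.add_emod_right]
  unfold eFun
  rw [h1, h2, π.per, h1, h2]
  split_ifs
  · ring
  · ring
  · rw [show π.t x + L + 1 = (π.t x + 1) + L by ring, π.per]
  · rw [show π.t x + L - 1 = (π.t x - 1) + L by ring, π.per]
  · rfl

theorem eFun_nc {L : ℕ} (hL : 2 ≤ L) (i : ℤ) (π : Pat L) (x y : ℤ) (h1 : x < y)
    (h2 : y < eFun L i π.t x) : x < eFun L i π.t y ∧ eFun L i π.t y < eFun L i π.t x := by
  rw [eFun_eq_core] at *
  exact core_nc π.inv π.ne π.nc (res_hI hL i) (res_hA i π) (res_hB i π) (res_hC i π)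
    x y h1 h2

/-- the Temperley–Lieb generator (identity if `L < 2`) -/
def e {L : ℕ} (i : ℤ) (π : Pat L) : Pat L :=
  if hL : 2 ≤ L then
    ⟨eFun L i π.t, eFun_inv hL i π, eFun_ne hL i π, eFun_per hL i π, eFun_nc hL i π⟩
  else π

theorem insFun_inv {L : ℕ} (hL : 0 < L) (π : Pat L) (x : ℤ) :
    insFun L π.t (insFun L π.t x) = x := by
  rcases pos_cases hL x with h | h | ⟨a, rfl⟩
  · rw [insFun_zero h, insFun_one hL (by rw [add_sub_cancel_right]; exact h)]
    ring
  · rw [insFun_one hL h, insFun_zero h]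
    ring
  · rw [insFun_up hL, insFun_up hL, π.inv]

theorem insFun_ne {L : ℕ} (hL : 0 < L) (π : Pat L) (x : ℤ) : insFun L π.t x ≠ x := by
  rcases pos_cases hL x with h | h | ⟨a, rfl⟩
  · rw [insFun_zero h]; omega
  · rw [insFun_one hL h]; omega
  · rw [insFun_up hL]
    intro h'
    exact π.ne a (up_injective hL h')

theorem insFun_per {L : ℕ} (hL : 0 < L) (π : Pat L) (x : ℤ) :
    insFun L π.t (x + (L + 2 : ℕ)) = insFun L π.t x + (L + 2 : ℕ) := by
  have hc : ((L + 2 : ℕ) : ℤ) = (L : ℤ) + 2 := by push_cast; ring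
  rw [hc]
  rcases pos_cases hL x with h | h | ⟨a, rfl⟩
  · rw [insFun_zero h, insFun_zero (by rw [Int.add_emod_right]; exact h)]
    ring
  · rw [insFun_one hL h, insFun_one hL (by
      rw [show x + ((L : ℤ) + 2) - 1 = (x - 1) + ((L : ℤ) + 2) by ring, Int.add_emod_right]
      exact h)]
    ring
  · rw [← up_add hL, insFun_up hL, insFun_up hL, π.per, up_add hL]

theorem insFun_nc {L : ℕ} (hL : 0 < L) (π : Pat L) (x y : ℤ) (h1 : x < y)
    (h2 : y < insFun L π.t x) : x < insFun L π.t y ∧ insFun L π.t y < insFun L π.t x := by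
  have e0 : ∀ z : ℤ, z % ((L : ℤ) + 2) = 0 → insFun L π.t z = z + 1 :=
    fun z hz => insFun_zero hz
  have e1 : ∀ z : ℤ, (z - 1) % ((L : ℤ) + 2) = 0 → insFun L π.t z = z - 1 :=
    fun z hz => insFun_one hL hz
  rcases pos_cases hL x with h | h | ⟨a, rfl⟩
  · rw [e0 x h] at h2; omega
  · rw [e1 x h] at h2; omega
  rw [insFun_up hL] at *
  rcases pos_cases hL y with h | h | ⟨b, rfl⟩
  · rw [e0 y h]
    refine ⟨by omega, ?_⟩
    have : y + 1 ≠ up L (π.t a) := by
      intro h3
      apply up_ne_one hL (π.t a)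
      rw [← h3, add_sub_cancel_right]
      exact h
    omega
  · rw [e1 y h]
    refine ⟨?_, by omega⟩
    have : y - 1 ≠ up L a := by
      intro h3
      apply up_ne_zero hL a
      rw [← h3]
      exact h
    omega
  · rw [insFun_up hL]
    have h3 := (up_strictMono hL).lt_iff_lt.1 h1
    have h4 := (up_strictMono hL).lt_iff_lt.1 h2
    have h5 := π.nc a b h3 h4
    exact ⟨up_strictMono hL h5.1, up_strictMono hL h5.2⟩

instance instNeZeroTwoMul {n : ℕ} [NeZero n] : NeZero (2 * n) :=
  ⟨by have := NeZero.ne n; omega⟩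

/-- insert a small arc at the positions `0, 1`; the old position `y ∈ [0, L)` becomes `y + 2` -/
def ins {L : ℕ} [NeZero L] (π : Pat L) : Pat (L + 2) :=
  ⟨insFun L π.t, insFun_inv (Nat.pos_of_ne_zero (NeZero.ne L)) π,
    insFun_ne (Nat.pos_of_ne_zero (NeZero.ne L)) π,
    insFun_per (Nat.pos_of_ne_zero (NeZero.ne L)) π,
    insFun_nc (Nat.pos_of_ne_zero (NeZero.ne L)) π⟩

/-- `ins` with the period written `2 * (n + 1)` -/
def insN {n : ℕ} [NeZero n] (π : Pat (2 * n)) : Pat (2 * (n + 1)) := (ins π : Pat (2 * n + 2))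

theorem chiFun_inv {n : ℕ} (hn : 0 < n) (x : ℤ) : chiFun n (chiFun n x) = x := by
  obtain ⟨q, r, h0, h1, hx⟩ := exists_block hn x
  rw [hx, chiFun_block hn q r h0 h1, chiFun_block hn q _ (by omega) (by omega)]
  ring
theorem chiFun_ne {n : ℕ} (hn : 0 < n) (x : ℤ) : chiFun n x ≠ x := by
  obtain ⟨q, r, h0, h1, hx⟩ := exists_block hn x
  rw [hx, chiFun_block hn q r h0 h1]
  intro h
  omega
theorem chiFun_per {n : ℕ} (hn : 0 < n) (x : ℤ) :
    chiFun n (x + (2 * n : ℕ)) = chiFun n x + (2 * n : ℕ) := by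
  obtain ⟨q, r, h0, h1, hx⟩ := exists_block hn x
  have h2 : x + (2 * n : ℕ) = 2 * n * (q + 1) + r - n := by rw [hx]; push_cast; ring
  rw [h2, hx, chiFun_block hn q r h0 h1, chiFun_block hn (q + 1) r h0 h1]
  push_cast
  ring
theorem chiFun_nc {n : ℕ} (hn : 0 < n) (x y : ℤ) (h1 : x < y) (h2 : y < chiFun n x) :
    x < chiFun n y ∧ chiFun n y < chiFun n x := by
  obtain ⟨q, r, h0, h3, hx⟩ := exists_block hn x
  have h4 := chiFun_block hn q r h0 h3
  rw [← hx] at h4
  rw [h4] at h2 ⊢
  have hy : y = 2 * n * q + (y + n - 2 * n * q) - n := by ring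
  have h5 := chiFun_block hn q (y + n - 2 * n * q) (by
    have : x < y := h1
    rw [hx] at this
    generalize 2 * (n : ℤ) * q = A at *
    omega) (by
    generalize 2 * (n : ℤ) * q = A at *
    omega)
  rw [← hy] at h5
  rw [h5]
  rw [hx] at h1 ⊢
  generalize 2 * (n : ℤ) * q = A at *
  omega

/-- `n` nested arcs around the gap `0` -/
def chi (n : ℕ) [NeZero n] : Pat (2 * n) :=
  ⟨chiFun n, chiFun_inv (Nat.pos_of_ne_zero (NeZero.ne n)),
    chiFun_ne (Nat.pos_of_ne_zero (NeZero.ne n)),
    chiFun_per (Nat.pos_of_ne_zero (NeZero.ne n)),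
    chiFun_nc (Nat.pos_of_ne_zero (NeZero.ne n))⟩

theorem finite_pat {L : ℕ} (hL : 0 < L) : Finite (Pat L) := by
  classical
  let f : Pat L → (Fin L → Fin (2 * L)) := fun π x =>
    ⟨(π.t x - x + L).toNat, by
      have h1 := abs_lt_per hL π (x : ℤ)
      omega⟩
  apply Finite.of_injective f
  intro π π' h
  have h0 : ∀ x : Fin L, π.t x = π'.t x := by
    intro x
    have h1 := congrArg Fin.val (congrFun h x)
    have h2 := abs_lt_per hL π (x : ℤ)
    have h3 := abs_lt_per hL π' (x : ℤ)
    simp only [f] at h1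
    omega
  ext x
  have hL' : (0 : ℤ) < L := by exact_mod_cast hL
  have h1 : x = x % L + L * (x / L) := (Int.emod_add_mul_ediv x L).symm
  have h2 := Int.emod_nonneg x hL'.ne'
  have h3 := Int.emod_lt_of_pos x hL'
  obtain ⟨r, hr⟩ := Int.eq_ofNat_of_zero_le h2
  have hrL : r < L := by omega
  rw [h1, per_mul, per_mul, hr]
  have := h0 ⟨r, hrL⟩
  simp only at this
  rw [this]

noncomputable instance instFintypePat {L : ℕ} [NeZero L] : Fintype (Pat L) :=
  @Fintype.ofFinite _ (finite_pat (Nat.pos_of_ne_zero (NeZero.ne L)))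

noncomputable instance instDecEqPat {L : ℕ} : DecidableEq (Pat L) := Classical.decEq _

/-! ### length -/

/-- (twice) the total arc length -/
def len {L : ℕ} (π : Pat L) : ℕ := ∑ x ∈ Finset.range L, (π.t x - x).natAbs

/-! ### exchange and rotation -/

section Families

variable {K : Type*} [Field K]

def D (a b : K) : K := 1 - b + a * b

/-- exchange relation on the tuples with entries in `S` -/
def EX {L : ℕ} [NeZero L] (S : Set K) (X : (Fin L → K) → Pat L → K) : Prop :=
  ∀ a : Fin L → K, (∀ i, a i ∈ S) → ∀ (i : ℕ) (hi : i + 1 < L) (α : Pat L),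
    D (a ⟨i, by omega⟩) (a ⟨i + 1, hi⟩) *
        X (a ∘ Equiv.swap ⟨i, by omega⟩ ⟨i + 1, hi⟩) α =
      D (a ⟨i + 1, hi⟩) (a ⟨i, by omega⟩) * X a α +
        (a ⟨i, by omega⟩ - a ⟨i + 1, hi⟩) * ∑ π with e (i : ℤ) π = α, X a π

/-- rotation relation on the tuples with entries in `S` -/
def ROT {L : ℕ} [NeZero L] (S : Set K) (X : (Fin L → K) → Pat L → K) : Prop :=
  ∀ a : Fin L → K, (∀ i, a i ∈ S) → ∀ π : Pat L, X (a ∘ finRotate L) π.rot = X a π

/-- polynomial function of degree `≤ d` in each variable -/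
def PF {L : ℕ} (d : ℕ) (f : (Fin L → K) → K) : Prop :=
  ∃ P : MvPolynomial (Fin L) K, (∀ i, P.degreeOf i ≤ d) ∧ ∀ a, f a = MvPolynomial.eval a P

def Delta {L : ℕ} (a : Fin L → K) : K := ∏ i, ∏ j ∈ Finset.Ioi i, D (a i) (a j)

end Families

/-! ### the polynomial family -/

/-- the properties of the polynomial solution -/
structure IsSol {n : ℕ} [NeZero n] (Φ : (Fin (2 * n) → ℂ) → Pat (2 * n) → ℂ) : Prop where
  poly : ∀ π, PF (2 * n - 1) (fun a => Φ a π)
  ex : EX Set.univ Φ
  rot : ROT Set.univ Φ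
  chi : ∀ a, Φ a (chi n) = Delta a

/-- prepend two entries -/
def cons2 {n : ℕ} (x y : ℂ) (b : Fin (2 * n) → ℂ) : Fin (2 * (n + 1)) → ℂ :=
  (Fin.cons x (Fin.cons y b) : Fin (2 * n + 2) → ℂ)

noncomputable def kap {L : ℕ} (x y : ℂ) (b : Fin L → ℂ) : ℂ := D y x * ∏ j, (D y (b j) * D (b j) x)

/-! ### the glued form -/

/-- `x` and `y` lie on the same loop of the gluing of the matchings `f`, `g` -/
def Loop (f g : ℤ → ℤ) : ℤ → ℤ → Prop := Relation.EqvGen (fun x y => y = f x ∨ y = g x)

/-- the closed loops around the gap `c` -/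
def loopsAround (f g : ℤ → ℤ) (c : ℤ) : Set (Set ℤ) :=
  {O | (∃ x, O = {y | Loop f g x y}) ∧ O.Finite ∧ Odd (O ∩ Set.Iio c).ncard}

/-- number of contractible loops around the gap `c` -/
noncomputable def mc (f g : ℤ → ℤ) (c : ℤ) : ℕ := (loopsAround f g c).ncard

/-! ### the polynomial `Num` -/

noncomputable def form {L : ℕ} [NeZero L] (τ : ℂ) (c : ℤ) (v w : Pat L → ℂ) : ℂ :=
  ∑ π, ∑ π', v π * w π' * τ ^ mc π.t π'.t c

noncomputable def Num {L : ℕ} [NeZero L] (τ : ℂ) (c : ℤ) (Φ : (Fin L → ℂ) → Pat L → ℂ)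
    (a : Fin L → ℂ) : ℂ := form τ c (Φ a) (Φ (fun i => 1 - a i))

end Pool.Agent.H51.TA
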