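import Mathlib
import Pool.Agent.H51.TA.Defs

set_option autoImplicit false

/-!
# MP_fe58d8_pr, ALG part, job C: calibration at `(a_0, a_1) → (q, q)` (helper68)
-/

namespace Pool.Agent.H51.TA

namespace CalAux

open Filter Topology

section push

variable {P Q : Type*} [Fintype P] [DecidableEq Q]

/-- push forward of a vector -/
def push (f : P → Q) (v : P → ℂ) : Q → ℂ := fun β => ∑ α with f α = β, v α

theorem sum_push [Fintype Q] (f : P → Q) (v : P → ℂ) (g : Q → ℂ) :
    ∑ β, push f v β * g β = ∑ α, v α * g (f α) := by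
  unfold push
  rw [← Finset.sum_fiberwise Finset.univ f (fun α => v α * g (f α))]
  refine Finset.sum_congr rfl fun β _ => ?_
  rw [Finset.sum_mul]
  refine Finset.sum_congr rfl fun α hα => ?_
  rw [(Finset.mem_filter.1 hα).2]

theorem push_lin (f : P → Q) (x y : ℂ) (v w : P → ℂ) :
    push f (fun π => x * v π + y * w π) = fun π => x * push f v π + y * push f w π := by
  funext β
  simp only [push, Finset.sum_add_distrib, Finset.mul_sum]

theorem push_inj (f : P → Q) (hf : Function.Injective f) (v : P → ℂ) (α : P) :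
    push f v (f α) = v α := by
  unfold push
  rw [Finset.sum_eq_single α]
  · intro β hβ hne
    exact absurd (hf (Finset.mem_filter.1 hβ).2) hne
  · intro h
    exact absurd (by simp) h

theorem push_zero (f : P → Q) (v : P → ℂ) (β : Q) (hβ : ∀ α, β ≠ f α) : push f v β = 0 := by
  unfold push
  refine Finset.sum_eq_zero fun α hα => ?_
  exact absurd (Finset.mem_filter.1 hα).2.symm (hβ α)

end push

section Form

variable {L : ℕ} [NeZero L] (τ : ℂ) (c : ℤ)

theorem form_lin_left (x y : ℂ) (v v' w : Pat L → ℂ) :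
    form τ c (fun π => x * v π + y * v' π) w = x * form τ c v w + y * form τ c v' w := by
  unfold form
  simp only [Finset.mul_sum, ← Finset.sum_add_distrib]
  refine Finset.sum_congr rfl fun π _ => Finset.sum_congr rfl fun π' _ => ?_
  ring

theorem form_lin_right (x y : ℂ) (v w w' : Pat L → ℂ) :
    form τ c v (fun π => x * w π + y * w' π) = x * form τ c v w + y * form τ c v w' := by
  unfold form
  simp only [Finset.mul_sum, ← Finset.sum_add_distrib]
  refine Finset.sum_congr rfl fun π _ => Finset.sum_congr rfl fun π' _ => ?_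
  ring

theorem form_smul_left (x : ℂ) (v w : Pat L → ℂ) :
    form τ c (fun π => x * v π) w = x * form τ c v w := by
  unfold form
  simp only [Finset.mul_sum]
  refine Finset.sum_congr rfl fun π _ => Finset.sum_congr rfl fun π' _ => ?_
  ring

theorem form_smul_right (x : ℂ) (v w : Pat L → ℂ) :
    form τ c v (fun π => x * w π) = x * form τ c v w := by
  unfold form
  simp only [Finset.mul_sum]
  refine Finset.sum_congr rfl fun π _ => Finset.sum_congr rfl fun π' _ => ?_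
  ring

theorem form_push {P : Type*} [Fintype P] (f g : P → Pat L) (v w : P → ℂ) :
    form τ c (push f v) (push g w) = ∑ α, ∑ β, v α * w β * τ ^ mc (f α).t (g β).t c := by
  have h1 : form τ c (push f v) (push g w) =
      ∑ π, push f v π * ∑ π', push g w π' * τ ^ mc π.t π'.t c := by
    unfold form
    refine Finset.sum_congr rfl fun π _ => ?_
    rw [Finset.mul_sum]
    refine Finset.sum_congr rfl fun π' _ => ?_
    ring
  rw [h1, sum_push f v (fun π => ∑ π', push g w π' * τ ^ mc π.t π'.t c)]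
  refine Finset.sum_congr rfl fun α _ => ?_
  rw [sum_push g w (fun π' => τ ^ mc (f α).t π'.t c), Finset.mul_sum]
  refine Finset.sum_congr rfl fun β _ => ?_
  ring

theorem push_id' (v : Pat L → ℂ) : push (fun π : Pat L => π) v = v := by
  funext β
  exact push_inj (fun π : Pat L => π) (fun _ _ h => h) v β

theorem form_adj (i : ℤ)
    (hmc : ∀ π π' : Pat L, mc (e i π).t π'.t c = mc π.t (e i π').t c) (v w : Pat L → ℂ) :
    form τ c (push (e i) v) w = form τ c v (push (e i) w) := by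
  have h1 := form_push τ c (e i) (fun π : Pat L => π) v w
  have h2 := form_push τ c (fun π : Pat L => π) (e i) v w
  rw [push_id'] at h1 h2
  rw [h1, h2]
  refine Finset.sum_congr rfl fun α _ => Finset.sum_congr rfl fun β _ => ?_
  rw [hmc]

/-- rotation of both arguments -/
theorem form_rot (hmc : ∀ π π' : Pat L, mc π.rot.t π'.rot.t c = mc π.t π'.t (c + 1))
    (v w v' w' : Pat L → ℂ) (hv : ∀ π : Pat L, v π.rot = v' π) (hw : ∀ π : Pat L, w π.rot = w' π) :
    form τ c v w = form τ (c + 1) v' w' := by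
  have hb : Function.Bijective (fun π : Pat L => π.rot) := by
    constructor
    · intro π π' h
      have h2 : π.rot.rotInv = π'.rot.rotInv := congrArg Pat.rotInv h
      have h3 : ∀ ρ : Pat L, ρ.rot.rotInv = ρ := fun ρ => by ext x; simp [Pat.rot, Pat.rotInv]
      rwa [h3, h3] at h2
    · intro π
      exact ⟨π.rotInv, by ext x; simp [Pat.rot, Pat.rotInv]⟩
  unfold form
  rw [← Function.Bijective.sum_comp hb]
  refine Finset.sum_congr rfl fun π _ => ?_
  rw [← Function.Bijective.sum_comp hb]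
  refine Finset.sum_congr rfl fun π' _ => ?_
  simp only [hv, hw, hmc]

theorem form_tendsto {l : Filter ℂ} {V W : ℂ → Pat L → ℂ} {v w : Pat L → ℂ}
    (hV : ∀ π, Tendsto (fun s => V s π) l (𝓝 (v π)))
    (hW : ∀ π, Tendsto (fun s => W s π) l (𝓝 (w π))) :
    Tendsto (fun s => form τ c (V s) (W s)) l (𝓝 (form τ c v w)) := by
  unfold form
  refine tendsto_finsetSum _ fun π _ => tendsto_finsetSum _ fun π' _ => ?_
  exact ((hV π).mul (hW π')).mul_const _

end Form

/-! ### derivatives -/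

section deriv

variable {M : ℕ}

/-- directional derivative -/
noncomputable def T (F : (Fin M → ℂ) → Pat M → ℂ) (a d : Fin M → ℂ) : Pat M → ℂ :=
  fun π => fderiv ℂ (fun a => F a π) a d

variable {F : (Fin M → ℂ) → Pat M → ℂ} (hF : ∀ π, Differentiable ℂ (fun a => F a π))

theorem T_add (a d d' : Fin M → ℂ) : T F a (d + d') = fun π => T F a d π + T F a d' π := by
  funext π
  simp [T]

theorem T_smul (a d : Fin M → ℂ) (x : ℂ) : T F a (x • d) = fun π => x * T F a d π := by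
  funext π
  simp [T]

include hF in
theorem lim_curve (γ : ℂ → Fin M → ℂ) (a d : Fin M → ℂ) (ha : γ 0 = a) (hγ : HasDerivAt γ d 0)
    (π : Pat M) (h0 : F a π = 0) :
    Tendsto (fun s => s⁻¹ * F (γ s) π) (𝓝[≠] 0) (𝓝 (T F a d π)) := by
  have h1 : HasDerivAt (fun s => F (γ s) π) (T F a d π) 0 := by
    have h2 : HasFDerivAt (fun a => F a π) (fderiv ℂ (fun a => F a π) (γ 0)) (γ 0) :=
      (hF π (γ 0)).hasFDerivAt
    have h3 := h2.comp_hasDerivAt (0 : ℂ) hγ
    rw [ha] at h3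
    exact h3
  rw [hasDerivAt_iff_tendsto_slope_zero] at h1
  refine h1.congr fun s => ?_
  simp [ha, h0]

theorem hasDerivAt_line (a d : Fin M → ℂ) : HasDerivAt (fun s : ℂ => a + s • d) d 0 := by
  have h : HasDerivAt (fun s : ℂ => s • d) ((1 : ℂ) • d) 0 := (hasDerivAt_id (0 : ℂ)).smul_const d
  rw [one_smul] at h
  exact h.const_add a

include hF in
theorem lim_line (a d : Fin M → ℂ) (π : Pat M) (h0 : F a π = 0) :
    Tendsto (fun s : ℂ => s⁻¹ * F (a + s • d) π) (𝓝[≠] 0) (𝓝 (T F a d π)) :=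
  lim_curve hF (fun s => a + s • d) a d (by simp) (hasDerivAt_line a d) π h0

end deriv

section rel

variable {M : ℕ} [NeZero M] {F : (Fin M → ℂ) → Pat M → ℂ}
  (hF : ∀ π, Differentiable ℂ (fun a => F a π)) (hEX : EX Set.univ F) (hROT : ROT Set.univ F)

include hEX in
theorem ex_zero (a : Fin M → ℂ) (h0 : ∀ π, F a π = 0) (i : ℕ) (hi : i + 1 < M)
    (hD : D (a ⟨i, by omega⟩) (a ⟨i + 1, hi⟩) ≠ 0) (α : Pat M) :
    F (a ∘ Equiv.swap ⟨i, by omega⟩ ⟨i + 1, hi⟩) α = 0 := by
  have h := hEX a (fun _ => Set.mem_univ _) i hi α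
  simp only [h0, Finset.sum_const_zero, mul_zero, add_zero] at h
  exact (mul_eq_zero.1 h).resolve_left hD

include hF hEX in
/-- first order exchange relation -/
theorem ex_T (a d : Fin M → ℂ) (h0 : ∀ π, F a π = 0) (i : ℕ) (hi : i + 1 < M)
    (h0' : ∀ π, F (a ∘ Equiv.swap ⟨i, by omega⟩ ⟨i + 1, hi⟩) π = 0) (α : Pat M) :
    D (a ⟨i, by omega⟩) (a ⟨i + 1, hi⟩) *
        T F (a ∘ Equiv.swap ⟨i, by omega⟩ ⟨i + 1, hi⟩)
          (d ∘ Equiv.swap ⟨i, by omega⟩ ⟨i + 1, hi⟩) α =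
      D (a ⟨i + 1, hi⟩) (a ⟨i, by omega⟩) * T F a d α +
        (a ⟨i, by omega⟩ - a ⟨i + 1, hi⟩) * push (e (i : ℤ)) (T F a d) α := by
  have hDt : ∀ j k : Fin M, Tendsto (fun s : ℂ => D ((a + s • d) j) ((a + s • d) k)) (𝓝[≠] 0)
      (𝓝 (D (a j) (a k))) := by
    intro j k
    refine Tendsto.mono_left ?_ nhdsWithin_le_nhds
    refine Continuous.tendsto' ?_ _ _ (by simp)
    unfold D
    simp only [Pi.add_apply, Pi.smul_apply, smul_eq_mul]
    fun_prop
  have hSt : ∀ j k : Fin M, Tendsto (fun s : ℂ => ((a + s • d) j) - ((a + s • d) k)) (𝓝[≠] 0)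
      (𝓝 (a j - a k)) := by
    intro j k
    refine Tendsto.mono_left ?_ nhdsWithin_le_nhds
    refine Continuous.tendsto' ?_ _ _ (by simp)
    simp only [Pi.add_apply, Pi.smul_apply, smul_eq_mul]
    fun_prop
  have h1 := (hDt ⟨i, by omega⟩ ⟨i + 1, hi⟩).mul (lim_line hF
    (a ∘ Equiv.swap ⟨i, by omega⟩ ⟨i + 1, hi⟩) (d ∘ Equiv.swap ⟨i, by omega⟩ ⟨i + 1, hi⟩) α (h0' α))
  have h2 := (hDt ⟨i + 1, hi⟩ ⟨i, by omega⟩).mul (lim_line hF a d α (h0 α))
  have h3 : Tendsto (fun s : ℂ => push (e (i : ℤ)) (fun π => s⁻¹ * F (a + s • d) π) α) (𝓝[≠] 0)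
      (𝓝 (push (e (i : ℤ)) (T F a d) α)) :=
    tendsto_finsetSum _ fun π _ => lim_line hF a d π (h0 π)
  have h4 := h2.add ((hSt ⟨i, by omega⟩ ⟨i + 1, hi⟩).mul h3)
  refine tendsto_nhds_unique h1 (h4.congr fun s => ?_)
  have h5 := hEX (a + s • d) (fun _ => Set.mem_univ _) i hi α
  have h6 : push (e (i : ℤ)) (fun π => s⁻¹ * F (a + s • d) π) α =
      s⁻¹ * ∑ π with e (i : ℤ) π = α, F (a + s • d) π := by
    simp only [push, Finset.mul_sum]
  rw [h6]
  have h7 : (a ∘ Equiv.swap ⟨i, by omega⟩ ⟨i + 1, hi⟩ +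
      s • (d ∘ Equiv.swap ⟨i, by omega⟩ ⟨i + 1, hi⟩)) =
      (a + s • d) ∘ Equiv.swap ⟨i, by omega⟩ ⟨i + 1, hi⟩ := rfl
  rw [h7]
  linear_combination (-s⁻¹) * h5

include hF hROT in
theorem rot_T (a d : Fin M → ℂ) (h0 : ∀ π, F a π = 0) (π : Pat M) :
    T F (a ∘ finRotate M) (d ∘ finRotate M) π.rot = T F a d π := by
  have h1 := lim_line hF (a ∘ finRotate M) (d ∘ finRotate M) π.rot
    (by rw [hROT a (fun _ => Set.mem_univ _)]; exact h0 π)
  refine tendsto_nhds_unique (h1.congr fun s => ?_) (lim_line hF a d π (h0 π))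
  have h7 : (a ∘ finRotate M + s • (d ∘ finRotate M)) = (a + s • d) ∘ finRotate M := rfl
  rw [h7, hROT (a + s • d) (fun _ => Set.mem_univ _)]

end rel

/-! ### transport of one strand -/

theorem push_push {P Q R : Type*} [Fintype P] [Fintype Q] [DecidableEq Q] [DecidableEq R]
    (f : P → Q) (g : Q → R) (v : P → ℂ) :
    push g (push f v) = push (fun x => g (f x)) v := by
  funext β
  have h1 : push g (push f v) β = ∑ α, push f v α * (if g α = β then 1 else 0) := by
    rw [push, Finset.sum_filter]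
    refine Finset.sum_congr rfl fun α _ => ?_
    split_ifs <;> simp
  rw [h1, sum_push f v (fun α => if g α = β then 1 else 0), push, Finset.sum_filter]
  refine Finset.sum_congr rfl fun α _ => ?_
  split_ifs <;> simp

section transport

variable {M : ℕ} [NeZero M] {F : (Fin M → ℂ) → Pat M → ℂ}
  (hF : ∀ π, Differentiable ℂ (fun a => F a π)) (hEX : EX Set.univ F) (hROT : ROT Set.univ F)
  (τ : ℂ)

include hF hEX in
/-- one step of the transport -/
theorem step (a d d' : Fin M → ℂ) (h0 : ∀ π, F a π = 0) (h0' : ∀ π, F (fun j => 1 - a j) π = 0)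
    (i : ℕ) (hi : i + 1 < M)
    (hD : D (a ⟨i, by omega⟩) (a ⟨i + 1, hi⟩) ≠ 0) (hD' : D (a ⟨i + 1, hi⟩) (a ⟨i, by omega⟩) ≠ 0)
    (hee : ∀ π : Pat M, e i (e i π) = e i π)
    (hmc : ∀ π π' : Pat M, mc (e i π).t π'.t 1 = mc π.t (e i π').t 1) :
    form τ 1 (T F (a ∘ Equiv.swap ⟨i, by omega⟩ ⟨i + 1, hi⟩)
        (d ∘ Equiv.swap ⟨i, by omega⟩ ⟨i + 1, hi⟩))
      (T F (fun j => 1 - (a ∘ Equiv.swap ⟨i, by omega⟩ ⟨i + 1, hi⟩) j)
        (d' ∘ Equiv.swap ⟨i, by omega⟩ ⟨i + 1, hi⟩)) =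
    form τ 1 (T F a d) (T F (fun j => 1 - a j) d') := by
  have h1 := ex_T hF hEX a d h0 i hi (ex_zero hEX a h0 i hi hD)
  have hDD : ∀ x y : ℂ, D (1 - x) (1 - y) = D y x := fun x y => by unfold D; ring
  have h2 := ex_T hF hEX (fun j => 1 - a j) d' h0' i hi
    (ex_zero hEX (fun j => 1 - a j) h0' i hi (by rw [hDD]; exact hD'))
  rw [hDD, hDD] at h2
  have e2 : (fun j => 1 - a j) ∘ (Equiv.swap (⟨i, by omega⟩ : Fin M) ⟨i + 1, hi⟩) =
      (fun j => 1 - (a ∘ Equiv.swap ⟨i, by omega⟩ ⟨i + 1, hi⟩) j) := rfl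
  rw [e2] at h2
  generalize T F (a ∘ Equiv.swap ⟨i, by omega⟩ ⟨i + 1, hi⟩)
        (d ∘ Equiv.swap ⟨i, by omega⟩ ⟨i + 1, hi⟩) = v' at *
  generalize T F (fun j => 1 - (a ∘ Equiv.swap ⟨i, by omega⟩ ⟨i + 1, hi⟩) j)
        (d' ∘ Equiv.swap ⟨i, by omega⟩ ⟨i + 1, hi⟩) = w' at *
  generalize T F a d = v at *
  generalize T F (fun j => 1 - a j) d' = w at *
  generalize hp : D (a ⟨i, by omega⟩) (a ⟨i + 1, hi⟩) = p at *
  generalize hp' : D (a ⟨i + 1, hi⟩) (a ⟨i, by omega⟩) = p' at *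
  have hδ : a ⟨i, by omega⟩ - a ⟨i + 1, hi⟩ = p - p' := by
    rw [← hp, ← hp']; unfold D; ring
  have hδ' : (1 - a ⟨i, by omega⟩) - (1 - a ⟨i + 1, hi⟩) = p' - p := by
    rw [← hp, ← hp']; unfold D; ring
  rw [hδ] at h1
  rw [hδ'] at h2
  have k1 : form τ 1 (fun π => p * v' π) (fun π => p' * w' π) =
      form τ 1 (fun π => p' * v π + (p - p') * push (e (i : ℤ)) v π)
        (fun π => p * w π + (p' - p) * push (e (i : ℤ)) w π) := by
    congr 1
    · funext π; exact h1 π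
    · funext π; exact h2 π
  rw [form_smul_left, form_smul_right, form_lin_left, form_lin_right, form_lin_right,
    form_adj τ 1 i hmc v (push (e (i : ℤ)) w), push_push] at k1
  have h3 : push (fun x : Pat M => e (i : ℤ) (e (i : ℤ) x)) w = push (e (i : ℤ)) w := by
    congr 1
    funext x
    exact hee x
  rw [h3, form_adj τ 1 i hmc v w] at k1
  have k2 : p * p' * (form τ 1 v' w' - form τ 1 v w) = 0 := by
    linear_combination k1
  exact sub_eq_zero.1 ((mul_eq_zero.1 k2).resolve_left (mul_ne_zero hD hD'))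

/-- reindexing on the naturals -/
def rr (k j : ℕ) : ℕ := if j = 0 then 0 else if j < k then j + 1 else if j = k then 1 else j

/-- extension by zero -/
noncomputable def exz (a : Fin M → ℂ) (m : ℕ) : ℂ := if h : m < M then a ⟨m, h⟩ else 0

/-- the strand `1` at the position `k` -/
noncomputable def tup (k : ℕ) (a : Fin M → ℂ) : Fin M → ℂ := fun j => exz a (rr k j)

omit [NeZero M] in
theorem tup_one (a : Fin M → ℂ) : tup 1 a = a := by
  funext j
  have h : rr 1 j = j := by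
    unfold rr
    split_ifs <;> omega
  rw [tup, h, exz, dif_pos j.2]

omit [NeZero M] in
theorem tup_succ (k : ℕ) (hk1 : 1 ≤ k) (hk : k + 1 < M) (a : Fin M → ℂ) :
    tup k a ∘ Equiv.swap ⟨k, by omega⟩ ⟨k + 1, hk⟩ = tup (k + 1) a := by
  funext j
  simp only [Function.comp_apply, tup]
  congr 1
  by_cases h1 : j = ⟨k, by omega⟩
  · subst h1
    rw [Equiv.swap_apply_left]
    simp only [rr]
    split_ifs <;> omega
  by_cases h2 : j = ⟨k + 1, hk⟩
  · subst h2
    rw [Equiv.swap_apply_right]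
    simp only [rr]
    split_ifs <;> omega
  rw [Equiv.swap_apply_of_ne_of_ne h1 h2]
  have h3 : (j : ℕ) ≠ k := fun h => h1 (Fin.ext h)
  have h4 : (j : ℕ) ≠ k + 1 := fun h => h2 (Fin.ext h)
  simp only [rr]
  split_ifs <;> omega

theorem tup_last (hM : 3 ≤ M) (a : Fin M → ℂ) :
    tup (M - 1) a = (a ∘ Equiv.swap ⟨0, by omega⟩ ⟨1, by omega⟩) ∘ finRotate M := by
  obtain ⟨m, rfl⟩ : ∃ m, M = m + 1 := ⟨M - 1, by omega⟩
  funext j
  simp only [Function.comp_apply, tup]
  have hval : ((finRotate (m + 1) j : Fin (m + 1)) : ℕ) =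
      if (j : ℕ) = m then 0 else (j : ℕ) + 1 := by
    rw [finRotate_apply, Fin.val_add_one]
    by_cases hjm : (j : ℕ) = m
    · rw [if_pos hjm, if_pos (Fin.ext hjm)]
    · rw [if_neg hjm, if_neg (fun h => hjm (by rw [h]; rfl))]
  have hj := j.2
  by_cases h0 : (j : ℕ) = 0
  · have h1 : finRotate (m + 1) j = ⟨1, by omega⟩ := by
      apply Fin.ext
      rw [hval, if_neg (by omega), h0]
    rw [h1, Equiv.swap_apply_right]
    simp [rr, exz, h0]
  by_cases h1 : (j : ℕ) = m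
  · have h2 : finRotate (m + 1) j = ⟨0, by omega⟩ := by
      apply Fin.ext
      rw [hval, if_pos h1]
    have h3 : rr (m + 1 - 1) j = 1 := by
      unfold rr
      split_ifs <;> omega
    rw [h2, Equiv.swap_apply_left, h3, exz, dif_pos (by omega)]
  · have h2 : finRotate (m + 1) j = ⟨j + 1, by omega⟩ := by
      apply Fin.ext
      rw [hval, if_neg h1]
    have h3 : rr (m + 1 - 1) j = j + 1 := by
      unfold rr
      split_ifs <;> omega
    rw [h2, h3, exz, dif_pos (by omega), Equiv.swap_apply_of_ne_of_ne]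
    · intro h; have := congrArg Fin.val h; simp at this
    · intro h
      have h5 : (j : ℕ) + 1 = 1 := congrArg Fin.val h
      omega

include hF hEX hROT in
theorem transport (hM : 3 ≤ M) (a d d' : Fin M → ℂ) (h0 : ∀ π, F a π = 0)
    (h0' : ∀ π, F (fun j => 1 - a j) π = 0)
    (hD : ∀ j : Fin M, 2 ≤ (j : ℕ) → D (a ⟨1, by omega⟩) (a j) ≠ 0 ∧ D (a j) (a ⟨1, by omega⟩) ≠ 0)
    (hee : ∀ (i : ℤ) (π : Pat M), e i (e i π) = e i π)
    (hmc : ∀ (i : ℕ) (π π' : Pat M), 1 ≤ i → i < M →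
      mc (e (i : ℤ) π).t π'.t 1 = mc π.t (e (i : ℤ) π').t 1)
    (hrot : ∀ π π' : Pat M, mc π.rot.t π'.rot.t 1 = mc π.t π'.t 2) :
    form τ 1 (T F a d) (T F (fun j => 1 - a j) d') =
      form τ 2 (T F (a ∘ Equiv.swap ⟨0, by omega⟩ ⟨1, by omega⟩)
          (d ∘ Equiv.swap ⟨0, by omega⟩ ⟨1, by omega⟩))
        (T F (fun j => 1 - (a ∘ Equiv.swap ⟨0, by omega⟩ ⟨1, by omega⟩) j)
          (d' ∘ Equiv.swap ⟨0, by omega⟩ ⟨1, by omega⟩)) := by
  have key : ∀ k : ℕ, k + 1 < M → (∀ π, F (tup (k + 1) a) π = 0) ∧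
      (∀ π, F (fun j => 1 - tup (k + 1) a j) π = 0) ∧
      form τ 1 (T F (tup (k + 1) a) (tup (k + 1) d))
        (T F (fun j => 1 - tup (k + 1) a j) (tup (k + 1) d')) =
      form τ 1 (T F a d) (T F (fun j => 1 - a j) d') := by
    intro k
    induction k with
    | zero =>
      intro _
      rw [zero_add, tup_one, tup_one, tup_one]
      exact ⟨h0, h0', rfl⟩
    | succ k ih =>
      intro hk
      obtain ⟨i1, i2, i3⟩ := ih (by omega)
      have hDk : D (tup (k + 1) a ⟨k + 1, by omega⟩) (tup (k + 1) a ⟨k + 1 + 1, hk⟩) ≠ 0 ∧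
          D (tup (k + 1) a ⟨k + 1 + 1, hk⟩) (tup (k + 1) a ⟨k + 1, by omega⟩) ≠ 0 := by
        have e1 : tup (k + 1) a ⟨k + 1, by omega⟩ = a ⟨1, by omega⟩ := by
          have : rr (k + 1) (k + 1) = 1 := by unfold rr; split_ifs <;> omega
          simp only [tup]
          rw [this, exz, dif_pos]
        have e2 : tup (k + 1) a ⟨k + 1 + 1, hk⟩ = a ⟨k + 1 + 1, hk⟩ := by
          have : rr (k + 1) (k + 1 + 1) = k + 1 + 1 := by unfold rr; split_ifs <;> omega
          simp only [tup]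
          rw [this, exz, dif_pos]
        rw [e1, e2]
        exact hD ⟨k + 1 + 1, hk⟩ (by simp)
      have hz1 := ex_zero hEX (tup (k + 1) a) i1 (k + 1) hk hDk.1
      have hDD : ∀ x y : ℂ, D (1 - x) (1 - y) = D y x := fun x y => by unfold D; ring
      have hz2 := ex_zero hEX (fun j => 1 - tup (k + 1) a j) i2 (k + 1) hk
        (by rw [hDD]; exact hDk.2)
      have e2 : (fun j => 1 - tup (k + 1) a j) ∘
          (Equiv.swap (⟨k + 1, by omega⟩ : Fin M) ⟨k + 1 + 1, hk⟩) =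
          (fun j => 1 - (tup (k + 1) a ∘ Equiv.swap ⟨k + 1, by omega⟩ ⟨k + 1 + 1, hk⟩) j) := rfl
      rw [e2] at hz2
      have hst := step hF hEX τ (tup (k + 1) a) (tup (k + 1) d) (tup (k + 1) d') i1 i2 (k + 1) hk
        hDk.1 hDk.2 (hee _) (fun π π' => hmc (k + 1) π π' (by omega) (by omega))
      rw [tup_succ (k + 1) (by omega) hk a] at hz1 hz2 hst
      rw [tup_succ (k + 1) (by omega) hk d, tup_succ (k + 1) (by omega) hk d'] at hst
      exact ⟨hz1, hz2, hst.trans i3⟩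
  obtain ⟨i1, i2, i3⟩ := key (M - 2) (by omega)
  have hM2 : M - 2 + 1 = M - 1 := by omega
  rw [hM2, tup_last hM] at i1 i2 i3
  rw [tup_last hM, tup_last hM] at i3
  rw [← i3]
  set b := a ∘ Equiv.swap (⟨0, by omega⟩ : Fin M) ⟨1, by omega⟩ with hb
  set c := d ∘ Equiv.swap (⟨0, by omega⟩ : Fin M) ⟨1, by omega⟩ with hc
  set c' := d' ∘ Equiv.swap (⟨0, by omega⟩ : Fin M) ⟨1, by omega⟩ with hc'
  have hb0 : ∀ π, F b π = 0 := fun π => by
    rw [← hROT b (fun _ => Set.mem_univ _) π]; exact i1 _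
  have hb0' : ∀ π, F (fun j => 1 - b j) π = 0 := fun π => by
    rw [← hROT (fun j => 1 - b j) (fun _ => Set.mem_univ _) π]; exact i2 _
  have := form_rot τ 1 (fun π π' => by rw [hrot]; norm_num) (T F (b ∘ finRotate M) (c ∘ finRotate M))
    (T F (fun j => 1 - (b ∘ finRotate M) j) (c' ∘ finRotate M)) (T F b c)
    (T F (fun j => 1 - b j) c') (fun π => rot_T hF hROT b c hb0 π)
    (fun π => rot_T hF hROT (fun j => 1 - b j) c' hb0' π)
  rw [this]
  norm_num

end transport

/-! ### tuples -/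

section tuples

variable {n : ℕ}

theorem cons2_swap (x y : ℂ) (b : Fin (2 * n) → ℂ) :
    cons2 x y b ∘ Equiv.swap (⟨0, by omega⟩ : Fin (2 * (n + 1))) ⟨1, by omega⟩ = cons2 y x b := by
  funext j
  obtain ⟨j, hj⟩ := j
  simp only [Function.comp_apply]
  rcases j with _ | _ | j
  · rw [Equiv.swap_apply_left]; rfl
  · rw [Equiv.swap_apply_right]; rfl
  · rw [Equiv.swap_apply_of_ne_of_ne]
    · rfl
    · intro h; have := congrArg Fin.val h; simp at this
    · intro h; have := congrArg Fin.val h; simp at this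

theorem cons2_line (x y x' y' s : ℂ) (b : Fin (2 * n) → ℂ) :
    cons2 (x + s * x') (y + s * y') b = cons2 x y b + s • cons2 x' y' 0 := by
  funext j
  obtain ⟨j, hj⟩ := j
  rcases j with _ | _ | j
  · rfl
  · rfl
  · show b ⟨j, _⟩ = b ⟨j, _⟩ + s * 0
    ring

theorem cons2_one_sub (x y : ℂ) (b : Fin (2 * n) → ℂ) :
    (fun j => 1 - cons2 x y b j) = cons2 (1 - x) (1 - y) (fun j => 1 - b j) := by
  funext j
  obtain ⟨j, hj⟩ := j
  rcases j with _ | _ | j <;> rfl

theorem cons2_lin (x y : ℂ) :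
    (cons2 x y 0 : Fin (2 * (n + 1)) → ℂ) = x • cons2 1 0 0 + y • cons2 0 1 0 := by
  funext j
  obtain ⟨j, hj⟩ := j
  rcases j with _ | _ | j
  · show x = x * 1 + y * 0
    ring
  · show y = x * 0 + y * 1
    ring
  · show (0 : ℂ) = x * 0 + y * 0
    ring

theorem cons2_zero (x y : ℂ) (b : Fin (2 * n) → ℂ) : cons2 x y b ⟨0, by omega⟩ = x := rfl

theorem cons2_one (x y : ℂ) (b : Fin (2 * n) → ℂ) : cons2 x y b ⟨1, by omega⟩ = y := rfl

theorem cons2_ge (x y : ℂ) (b : Fin (2 * n) → ℂ) (j : Fin (2 * (n + 1))) (hj : 2 ≤ (j : ℕ)) :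
    cons2 x y b j = b ⟨j - 2, by omega⟩ := by
  obtain ⟨j, h⟩ := j
  rcases j with _ | _ | j
  · simp at hj
  · simp at hj
  · rfl

end tuples

/-! ### polynomials -/

theorem poly_one (p : Polynomial ℂ) (g : ℂ)
    (h : Tendsto (fun s => s⁻¹ * p.eval s) (𝓝[≠] 0) (𝓝 g)) :
    (∀ s, p.eval s = s * p.divX.eval s) ∧ p.divX.eval 0 = g := by
  have h0 : p.eval 0 = 0 := by
    have h1 : Tendsto (fun s : ℂ => s * (s⁻¹ * p.eval s)) (𝓝[≠] 0) (𝓝 (0 * g)) :=
      (tendsto_nhdsWithin_of_tendsto_nhds tendsto_id).mul h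
    have h2 : Tendsto (fun s : ℂ => p.eval s) (𝓝[≠] 0) (𝓝 (p.eval 0)) :=
      (p.continuous.tendsto 0).mono_left nhdsWithin_le_nhds
    have h3 : Tendsto (fun s : ℂ => s * (s⁻¹ * p.eval s)) (𝓝[≠] 0) (𝓝 (p.eval 0)) := by
      refine h2.congr' ?_
      filter_upwards [self_mem_nhdsWithin] with s hs
      have hs' : s ≠ 0 := hs
      field_simp
    rw [tendsto_nhds_unique h3 h1, zero_mul]
  have h4 : ∀ s, p.eval s = s * p.divX.eval s := by
    intro s
    have h5 := congrArg (Polynomial.eval s) (Polynomial.divX_mul_X_add p)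
    rw [Polynomial.eval_add, Polynomial.eval_mul, Polynomial.eval_X, Polynomial.eval_C,
      Polynomial.coeff_zero_eq_eval_zero, h0] at h5
    rw [← h5]
    ring
  refine ⟨h4, ?_⟩
  have h2 : Tendsto (fun s : ℂ => p.divX.eval s) (𝓝[≠] 0) (𝓝 (p.divX.eval 0)) :=
    (p.divX.continuous.tendsto 0).mono_left nhdsWithin_le_nhds
  refine tendsto_nhds_unique h2 (h.congr' ?_)
  filter_upwards [self_mem_nhdsWithin] with s hs
  have hs' : s ≠ 0 := hs
  rw [h4 s]
  field_simp

theorem poly_two (p : Polynomial ℂ) (g : ℂ)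
    (h : Tendsto (fun s => s⁻¹ * (s⁻¹ * p.eval s)) (𝓝[≠] 0) (𝓝 g)) :
    ∃ R : Polynomial ℂ, ∀ s, p.eval s = s ^ 2 * g + s ^ 3 * R.eval s := by
  have h1 : Tendsto (fun s : ℂ => s⁻¹ * p.eval s) (𝓝[≠] 0) (𝓝 0) := by
    have h2 : Tendsto (fun s : ℂ => s * (s⁻¹ * (s⁻¹ * p.eval s))) (𝓝[≠] 0) (𝓝 (0 * g)) :=
      (tendsto_nhdsWithin_of_tendsto_nhds tendsto_id).mul h
    rw [zero_mul] at h2
    refine h2.congr' ?_
    filter_upwards [self_mem_nhdsWithin] with s hs
    have hs' : s ≠ 0 := hs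
    field_simp
  obtain ⟨h3, h4⟩ := poly_one p 0 h1
  have h5 : Tendsto (fun s : ℂ => s⁻¹ * p.divX.eval s) (𝓝[≠] 0) (𝓝 g) := by
    refine h.congr' ?_
    filter_upwards [self_mem_nhdsWithin] with s hs
    have hs' : s ≠ 0 := hs
    rw [h3 s]
    field_simp
  obtain ⟨h6, h7⟩ := poly_one p.divX g h5
  refine ⟨p.divX.divX.divX, fun s => ?_⟩
  have h8 := congrArg (Polynomial.eval s) (Polynomial.divX_mul_X_add p.divX.divX)
  rw [Polynomial.eval_add, Polynomial.eval_mul, Polynomial.eval_X, Polynomial.eval_C,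
    Polynomial.coeff_zero_eq_eval_zero, h7] at h8
  rw [h3 s, h6 s, ← h8]
  ring

theorem poly_line {N : ℕ} (P : MvPolynomial (Fin N) ℂ) (a d : Fin N → ℂ) :
    ∃ p : Polynomial ℂ, ∀ s, p.eval s = MvPolynomial.eval (a + s • d) P := by
  refine ⟨MvPolynomial.aeval (fun i => Polynomial.C (a i) + Polynomial.X * Polynomial.C (d i)) P,
    fun s => ?_⟩
  induction P using MvPolynomial.induction_on with
  | C c => simp
  | add p q hp hq => rw [map_add, Polynomial.eval_add, hp, hq, map_add]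
  | mul_X p i hp =>
    rw [map_mul, Polynomial.eval_mul, hp, map_mul, MvPolynomial.aeval_X, MvPolynomial.eval_X]
    simp only [Polynomial.eval_add, Polynomial.eval_mul, Polynomial.eval_C, Polynomial.eval_X,
      Pi.add_apply, Pi.smul_apply, smul_eq_mul]

/-! ### the vectors at the point `(q, q, b)` -/

section point

variable {n : ℕ} [NeZero n] {Φ : (Fin (2 * n) → ℂ) → Pat (2 * n) → ℂ}
  {Φ' : (Fin (2 * (n + 1)) → ℂ) → Pat (2 * (n + 1)) → ℂ}

theorem differentiable_of_isSol (hΦ' : IsSol Φ') (π : Pat (2 * (n + 1))) :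
    Differentiable ℂ (fun a => Φ' a π) := by
  obtain ⟨P, _, hP⟩ := hΦ'.poly π
  have h1 : (fun a => Φ' a π) = fun a => MvPolynomial.eval a P := funext hP
  rw [h1]
  intro a
  have h2 : AnalyticAt ℂ (fun x : Fin (2 * (n + 1)) → ℂ =>
      MvPolynomial.aeval (fun i => x i) P) a :=
    AnalyticAt.aeval_mvPolynomial (fun i =>
      (ContinuousLinearMap.proj (R := ℂ) (φ := fun _ : Fin (2 * (n + 1)) => ℂ) i).analyticAt a) P
  exact h2.differentiableAt

/-- the fused recursion, as a hypothesis -/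
def Fused (Φ : (Fin (2 * n) → ℂ) → Pat (2 * n) → ℂ)
    (Φ' : (Fin (2 * (n + 1)) → ℂ) → Pat (2 * (n + 1)) → ℂ) : Prop :=
  ∀ x y : ℂ, D x y = 0 → ∀ b : Fin (2 * n) → ℂ,
    (∀ α : Pat (2 * n), Φ' (cons2 x y b) (insN α) = kap x y b * Φ b α) ∧
    (∀ π : Pat (2 * (n + 1)), (∀ α : Pat (2 * n), π ≠ insN α) → Φ' (cons2 x y b) π = 0)

theorem insN_inj : Function.Injective (insN : Pat (2 * n) → Pat (2 * (n + 1))) := by
  intro α β h
  have hL : 0 < 2 * n := Nat.pos_of_ne_zero (NeZero.ne (2 * n))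
  ext y
  have h1 : (insN α).t (up (2 * n) y) = (insN β).t (up (2 * n) y) := by rw [h]
  have h2 : insFun (2 * n) α.t (up (2 * n) y) = insFun (2 * n) β.t (up (2 * n) y) := h1
  rw [insFun_up hL, insFun_up hL] at h2
  exact up_injective hL h2

theorem fused_push (hf : Fused Φ Φ') (x y : ℂ) (hxy : D x y = 0) (b : Fin (2 * n) → ℂ)
    (π : Pat (2 * (n + 1))) : Φ' (cons2 x y b) π = kap x y b * push insN (Φ b) π := by
  obtain ⟨h1, h2⟩ := hf x y hxy b
  by_cases h : ∃ α : Pat (2 * n), π = insN α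
  · obtain ⟨α, rfl⟩ := h
    rw [h1, push_inj _ insN_inj]
  · push Not at h
    rw [h2 π h, push_zero _ _ _ h, mul_zero]

variable (hf : Fused Φ Φ') (q : ℂ) (hq : q ^ 2 - q + 1 = 0) (b : Fin (2 * n) → ℂ)

include hf hq in
theorem point_zero (π : Pat (2 * (n + 1))) : Φ' (cons2 q q b) π = 0 := by
  have hD : D q q = 0 := by unfold D; linear_combination hq
  rw [fused_push hf q q hD b π, kap, hD]
  ring

/-- the derivative at the point `(q, q, b)` in the direction `(x, y, 0)` -/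
noncomputable def A (Φ' : (Fin (2 * (n + 1)) → ℂ) → Pat (2 * (n + 1)) → ℂ) (q : ℂ)
    (b : Fin (2 * n) → ℂ) (x y : ℂ) : Pat (2 * (n + 1)) → ℂ :=
  T Φ' (cons2 q q b) (cons2 x y 0)

theorem A_lin (x y : ℂ) (π : Pat (2 * (n + 1))) :
    A Φ' q b x y π = x * A Φ' q b 1 0 π + y * A Φ' q b 0 1 π := by
  unfold A
  rw [cons2_lin x y, T_add, T_smul, T_smul]

include hf hq in
theorem A_ex (hΦ' : IsSol Φ') (x y : ℂ) (α : Pat (2 * (n + 1))) :
    (q * x + q ^ 2 * y) * A Φ' q b y x α = (q * y + q ^ 2 * x) * A Φ' q b x y α +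
      (x - y) * push (e 0) (A Φ' q b x y) α := by
  have hF := differentiable_of_isSol hΦ'
  have hz := point_zero hf q hq b
  have h1 := lim_line hF (cons2 q q b) (cons2 y x 0) α (hz α)
  have h2 := lim_line hF (cons2 q q b) (cons2 x y 0) α (hz α)
  have h3 : Tendsto (fun s : ℂ => push (e 0)
      (fun π => s⁻¹ * Φ' (cons2 q q b + s • cons2 x y 0) π) α) (𝓝[≠] 0)
      (𝓝 (push (e 0) (A Φ' q b x y) α)) :=
    tendsto_finsetSum _ fun π _ => lim_line hF (cons2 q q b) (cons2 x y 0) π (hz π)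
  have g1 : ∀ x y : ℂ, Tendsto (fun s : ℂ => q * x + q ^ 2 * y + s * (x * y)) (𝓝[≠] 0)
      (𝓝 (q * x + q ^ 2 * y)) := by
    intro x y
    refine Tendsto.mono_left ?_ nhdsWithin_le_nhds
    refine Continuous.tendsto' (by fun_prop) _ _ (by ring)
  have k1 := (g1 x y).mul h1
  have k2 := ((g1 y x).mul h2).add (h3.const_mul (x - y))
  refine tendsto_nhds_unique k1 (k2.congr' ?_)
  filter_upwards [self_mem_nhdsWithin] with s hs
  have hs' : s ≠ 0 := hs
  rw [← cons2_line, ← cons2_line]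
  have h5 := hΦ'.ex (cons2 (q + s * x) (q + s * y) b) (fun _ => Set.mem_univ _) 0 (by omega) α
  rw [cons2_swap, cons2_zero] at h5
  have h51 : cons2 (q + s * x) (q + s * y) b ⟨0 + 1, by omega⟩ = q + s * y := rfl
  rw [h51] at h5
  have d1 : ∀ x y : ℂ, D (q + s * x) (q + s * y) = s * (q * x + q ^ 2 * y + s * (x * y)) := by
    intro x y
    unfold D
    linear_combination (1 - s * y) * hq
  rw [d1, d1] at h5
  have h6 : push (e 0) (fun π => s⁻¹ * Φ' (cons2 (q + s * x) (q + s * y) b) π) α =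
      s⁻¹ * ∑ π with e ((0 : ℕ) : ℤ) π = α, Φ' (cons2 (q + s * x) (q + s * y) b) π := by
    simp only [push, Finset.mul_sum, Nat.cast_zero]
  rw [h6]
  generalize (∑ π with e ((0 : ℕ) : ℤ) π = α, Φ' (cons2 (q + s * x) (q + s * y) b) π) = S at *
  generalize Φ' (cons2 (q + s * x) (q + s * y) b) α = u at *
  generalize Φ' (cons2 (q + s * y) (q + s * x) b) α = v at *
  have h9 : (q * x + q ^ 2 * y + s * (x * y)) * v =
      (q * y + q ^ 2 * x + s * (y * x)) * u + (x - y) * S :=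
    mul_left_cancel₀ hs' (by linear_combination h5)
  linear_combination (-s⁻¹) * h9

/-- `∏_j D(q, b_j) D(b_j, q)` -/
noncomputable def Pi0 (q : ℂ) (b : Fin (2 * n) → ℂ) : ℂ := ∏ j, (D q (b j) * D (b j) q)

include hf hq in
theorem A_curve (hΦ' : IsSol Φ') (π : Pat (2 * (n + 1))) :
    A Φ' q b 1 (q ^ 2) π = q * (2 * q - 1) * Pi0 q b * push insN (Φ b) π := by
  have hF := differentiable_of_isSol hΦ'
  have hz := point_zero hf q hq b
  have hq1 : 1 - q ≠ 0 := by
    intro h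
    have h1 : q = 1 := by linear_combination -h
    rw [h1] at hq
    norm_num at hq
  have hqi : (1 - q)⁻¹ = q := inv_eq_of_mul_eq_one_right (by linear_combination -hq)
  have hyt : Tendsto (fun s : ℂ => (1 - q - s)⁻¹) (𝓝[≠] 0) (𝓝 q) := by
    refine Tendsto.mono_left ?_ nhdsWithin_le_nhds
    have h1 : Tendsto (fun s : ℂ => 1 - q - s) (𝓝 0) (𝓝 (1 - q)) :=
      Continuous.tendsto' (by fun_prop) _ _ (by ring)
    have h2 := h1.inv₀ hq1
    rwa [hqi] at h2
  have hγ : HasDerivAt (fun s : ℂ => cons2 (q + s) ((1 - q - s)⁻¹) b)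
      (cons2 1 (q ^ 2) (0 : Fin (2 * n) → ℂ)) 0 := by
    rw [hasDerivAt_pi]
    rintro ⟨j, hj⟩
    rcases j with _ | _ | j
    · show HasDerivAt (fun s : ℂ => q + s) 1 0
      exact (hasDerivAt_id (0 : ℂ)).const_add q
    · show HasDerivAt (fun s : ℂ => (1 - q - s)⁻¹) (q ^ 2) 0
      have h1 : HasDerivAt (fun s : ℂ => 1 - q - s) (-1) 0 :=
        (hasDerivAt_id (0 : ℂ)).const_sub (1 - q)
      have h2 := h1.inv (by simpa using hq1)
      have h3 : -(-1 : ℂ) / (1 - q - 0) ^ 2 = q ^ 2 := by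
        rw [sub_zero, neg_neg, one_div, ← inv_pow, hqi]
      rw [h3] at h2
      exact h2
    · show HasDerivAt (fun s : ℂ => b ⟨j, _⟩) 0 0
      exact hasDerivAt_const _ _
  have hlim := lim_curve hF (fun s : ℂ => cons2 (q + s) ((1 - q - s)⁻¹) b) (cons2 q q b)
    (cons2 1 (q ^ 2) 0) (by simp [hqi]) hγ π (hz π)
  have hxt : Tendsto (fun s : ℂ => q + s) (𝓝[≠] 0) (𝓝 q) := by
    refine Tendsto.mono_left ?_ nhdsWithin_le_nhds
    exact Continuous.tendsto' (by fun_prop) _ _ (by ring)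
  have hct : Tendsto (fun s : ℂ => 2 * q - 1 + s) (𝓝[≠] 0) (𝓝 (2 * q - 1)) := by
    refine Tendsto.mono_left ?_ nhdsWithin_le_nhds
    exact Continuous.tendsto' (by fun_prop) _ _ (by ring)
  have hDt : ∀ j : Fin (2 * n), Tendsto (fun s : ℂ => D ((1 - q - s)⁻¹) (b j) * D (b j) (q + s))
      (𝓝[≠] 0) (𝓝 (D q (b j) * D (b j) q)) := by
    intro j
    refine Tendsto.mul ?_ ?_
    · unfold D
      exact (hyt.mul_const (b j)).const_add _
    · unfold D
      exact (hxt.const_sub 1).add (hxt.const_mul (b j))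
  have hPt : Tendsto (fun s : ℂ => ∏ j, (D ((1 - q - s)⁻¹) (b j) * D (b j) (q + s)))
      (𝓝[≠] 0) (𝓝 (Pi0 q b)) := tendsto_finsetProd _ fun j _ => hDt j
  have hmain := (((hyt.mul hct).mul hPt).mul_const (push insN (Φ b) π))
  refine tendsto_nhds_unique hlim (hmain.congr' ?_)
  have hne : ∀ᶠ s : ℂ in 𝓝[≠] 0, s ≠ 1 - q :=
    (eventually_ne_nhds (Ne.symm hq1)).filter_mono nhdsWithin_le_nhds
  filter_upwards [self_mem_nhdsWithin, hne] with s hs hs1
  have hs' : s ≠ 0 := hs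
  have hs2 : 1 - q - s ≠ 0 := fun h => hs1 (by linear_combination -h)
  have hy : (1 - q - s)⁻¹ * (1 - q - s) = 1 := inv_mul_cancel₀ hs2
  have hD : D (q + s) ((1 - q - s)⁻¹) = 0 := by
    unfold D
    linear_combination -hy
  rw [fused_push hf _ _ hD b π, kap]
  have hk : D ((1 - q - s)⁻¹) (q + s) = s * ((1 - q - s)⁻¹ * (2 * q - 1 + s)) := by
    unfold D
    linear_combination (q + s - 1) * hy + (1 - q - s)⁻¹ * hq
  rw [hk]
  field_simp

theorem Pi0_mul (b : Fin (2 * n) → ℂ) (q : ℂ) (hq : q ^ 2 - q + 1 = 0) :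
    Pi0 q b * Pi0 (1 - q) (fun j => 1 - b j) = ∏ j, (b j - q) ^ 4 := by
  unfold Pi0
  rw [← Finset.prod_mul_distrib]
  refine Finset.prod_congr rfl fun j _ => ?_
  have h1 : D q (b j) * D (b j) q = -(b j - q) ^ 2 := by
    unfold D
    linear_combination (1 - b j + b j ^ 2) * hq
  have h2 : D (1 - q) (1 - b j) * D (1 - b j) (1 - q) = D q (b j) * D (b j) q := by
    unfold D
    ring
  rw [h2, h1]
  ring

end point

/-- the generators are idempotent -/
theorem ee {L : ℕ} (i : ℤ) (π : Pat L) : e i (e i π) = e i π := by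
  by_cases hL : 2 ≤ L
  · have h1 : ∀ ρ : Pat L, (e i ρ).t = coreT ρ.t (Res L i) := by
      intro ρ
      rw [← eFun_eq_core]
      simp [e, hL]
    have hinv : ∀ x, (e i π).t ((e i π).t x) = x := (e i π).inv
    ext x
    rw [h1 (e i π)]
    unfold coreT
    have hx : ∀ y, (e i π).t y = coreT π.t (Res L i) y := fun y => by rw [h1]
    have hL1 : ∀ y, Res L i y → (e i π).t y = y + 1 := by
      intro y hy
      rw [hx]
      simp [coreT, hy]
    have hL2 : ∀ y, ¬ Res L i y → Res L i (y - 1) → (e i π).t y = y - 1 := by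
      intro y hy hy'
      rw [hx]
      simp [coreT, hy, hy']
    split_ifs with a1 a2 a3 a4
    · exact (hL1 x a1).symm
    · exact (hL2 x a1 a2).symm
    · exfalso
      have h2 := hL1 _ a3
      rw [hinv] at h2
      apply a2
      rw [h2]
      simpa using a3
    · exfalso
      have h2 := hL2 _ a3 a4
      rw [hinv] at h2
      apply a1
      rw [h2]
      exact a4
    · rfl
  · have h1 : ∀ ρ : Pat L, e i ρ = ρ := by
      intro ρ
      simp [e, hL]
    rw [h1, h1]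

end CalAux

open CalAux Filter Topology

/-- calibration, with the facts of the jobs F, R, N as hypotheses -/
theorem Num_cal_of {n : ℕ} [NeZero n] (τ : ℂ) {Φ : (Fin (2 * n) → ℂ) → Pat (2 * n) → ℂ}
    {Φ' : (Fin (2 * (n + 1)) → ℂ) → Pat (2 * (n + 1)) → ℂ} (hΦ' : IsSol Φ')
    (hfused : ∀ x y : ℂ, D x y = 0 → ∀ b : Fin (2 * n) → ℂ,
      (∀ α : Pat (2 * n), Φ' (cons2 x y b) (insN α) = kap x y b * Φ b α) ∧
      (∀ π : Pat (2 * (n + 1)), (∀ α : Pat (2 * n), π ≠ insN α) → Φ' (cons2 x y b) π = 0))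
    (hmc : ∀ (π π' : Pat (2 * (n + 1))) (i c : ℤ), ¬ (i + 1 - c) % ((2 * (n + 1) : ℕ) : ℤ) = 0 →
      mc (e i π).t π'.t c = mc π.t (e i π').t c)
    (hrot : ∀ (π π' : Pat (2 * (n + 1))) (c : ℤ), mc π.rot.t π'.rot.t c = mc π.t π'.t (c + 1))
    (hins1 : ∀ α β : Pat (2 * n), mc (ins α).t (ins β).t 1 = mc α.t β.t 0 + 1)
    (hins2 : ∀ α β : Pat (2 * n), mc (ins α).t (ins β).t 2 = mc α.t β.t 0)
    (hgap : ∀ a, Num τ 2 Φ' a = Num τ 0 Φ' a)
    (q : ℂ) (hq : q ^ 2 - q + 1 = 0) (b : Fin (2 * n) → ℂ) (hb : ∀ j, b j ≠ q) :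
    ∃ R : Polynomial ℂ, ∀ s : ℂ, Num τ 0 Φ' (cons2 (q + s) q b) =
      s ^ 2 * (-(τ + 2) * (∏ j, (b j - q) ^ 4) * Num τ 0 Φ b) + s ^ 3 * R.eval s := by
  have hn : 1 ≤ n := Nat.one_le_iff_ne_zero.2 (NeZero.ne n)
  have hF := differentiable_of_isSol hΦ'
  have hf : Fused Φ Φ' := hfused
  have hq' : (1 - q) ^ 2 - (1 - q) + 1 = 0 := by linear_combination hq
  obtain ⟨b', hb'⟩ : ∃ b' : Fin (2 * n) → ℂ, b' = fun j => 1 - b j := ⟨_, rfl⟩
  -- the limit
  have hlim : Tendsto (fun s : ℂ => s⁻¹ * (s⁻¹ * Num τ 0 Φ' (cons2 (q + s) q b))) (𝓝[≠] 0)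
      (𝓝 (form τ 2 (A Φ' q b 1 0) (A Φ' (1 - q) b' (-1) 0))) := by
    have h1 := form_tendsto τ 2
      (fun π => lim_line hF (cons2 q q b) (cons2 1 0 0) π (point_zero hf q hq b π))
      (fun π => lim_line hF (cons2 (1 - q) (1 - q) b') (cons2 (-1) 0 0) π
        (point_zero hf (1 - q) hq' b' π))
    refine h1.congr fun s => ?_
    have e1 : cons2 q q b + s • cons2 1 0 0 = cons2 (q + s) q b := by
      rw [← cons2_line, mul_one, mul_zero, add_zero]
    have e2 : cons2 (1 - q) (1 - q) b' + s • cons2 (-1) 0 0 =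
        fun i => 1 - cons2 (q + s) q b i := by
      rw [← cons2_line, mul_zero, add_zero, cons2_one_sub, ← hb']
      have h3 : 1 - q + s * -1 = 1 - (q + s) := by ring
      rw [h3]
    rw [← hgap, Num, e1, e2, form_smul_left, form_smul_right]
  -- the polynomial
  have hpoly : ∃ p : Polynomial ℂ, ∀ s, p.eval s = Num τ 0 Φ' (cons2 (q + s) q b) := by
    have h1 : ∀ π : Pat (2 * (n + 1)), ∃ p : Polynomial ℂ, ∀ s,
        p.eval s = Φ' (cons2 (q + s) q b) π := by
      intro π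
      obtain ⟨P, _, hP⟩ := hΦ'.poly π
      obtain ⟨p, hp⟩ := poly_line P (cons2 q q b) (cons2 1 0 0)
      refine ⟨p, fun s => ?_⟩
      rw [hp, ← cons2_line, mul_one, mul_zero, add_zero]
      exact (hP _).symm
    have h2 : ∀ π : Pat (2 * (n + 1)), ∃ p : Polynomial ℂ, ∀ s,
        p.eval s = Φ' (fun i => 1 - cons2 (q + s) q b i) π := by
      intro π
      obtain ⟨P, _, hP⟩ := hΦ'.poly π
      obtain ⟨p, hp⟩ := poly_line P (cons2 (1 - q) (1 - q) b') (cons2 (-1) 0 0)
      refine ⟨p, fun s => ?_⟩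
      rw [hp, ← cons2_line, mul_zero, add_zero, cons2_one_sub, ← hb']
      have h3 : 1 - q + s * -1 = 1 - (q + s) := by ring
      rw [h3]
      exact (hP _).symm
    choose p1 hp1 using h1
    choose p2 hp2 using h2
    refine ⟨∑ π, ∑ π', p1 π * p2 π' * Polynomial.C (τ ^ mc π.t π'.t 0), fun s => ?_⟩
    rw [Num, form, Polynomial.eval_finsetSum]
    refine Finset.sum_congr rfl fun π _ => ?_
    rw [Polynomial.eval_finsetSum]
    refine Finset.sum_congr rfl fun π' _ => ?_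
    rw [Polynomial.eval_mul, Polynomial.eval_mul, Polynomial.eval_C, hp1, hp2]
  obtain ⟨p, hp⟩ := hpoly
  have hg : form τ 2 (A Φ' q b 1 0) (A Φ' (1 - q) b' (-1) 0) =
      -(τ + 2) * (∏ j, (b j - q) ^ 4) * Num τ 0 Φ b := by
    have hM : (((2 * (n + 1) : ℕ)) : ℤ) = 2 * (n + 1) := by push_cast; ring
    -- adjointness
    have hadj : ∀ v w : Pat (2 * (n + 1)) → ℂ,
        form τ 2 (push (e 0) v) w = form τ 2 v (push (e 0) w) := by
      intro v w
      refine form_adj τ 2 0 (fun π π' => hmc π π' 0 2 ?_) v w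
      rw [hM]
      intro h
      have h1 := Int.dvd_of_emod_eq_zero h
      have h2 : (2 * ((n : ℤ) + 1)) ∣ 1 := by
        have := Int.dvd_neg.2 h1
        norm_num at this
        exact this
      have h3 := Int.le_of_dvd one_pos h2
      omega
    -- transport
    have htr : ∀ x y x' y' : ℂ, form τ 1 (A Φ' q b x y) (A Φ' (1 - q) b' x' y') =
        form τ 2 (A Φ' q b y x) (A Φ' (1 - q) b' y' x') := by
      intro x y x' y'
      have h := transport hF hΦ'.ex hΦ'.rot τ (by omega) (cons2 q q b) (cons2 x y 0)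
        (cons2 x' y' 0) (point_zero hf q hq b)
        (fun π => by
          rw [cons2_one_sub, ← hb']
          exact point_zero hf (1 - q) hq' b' π)
        (by
          intro j hj
          rw [cons2_one, cons2_ge q q b j hj]
          have h1 := hb ⟨j - 2, by omega⟩
          have h2 : D q (b ⟨j - 2, by omega⟩) * D (b ⟨j - 2, by omega⟩) q =
              -(b ⟨j - 2, by omega⟩ - q) ^ 2 := by
            unfold D
            linear_combination (1 - b ⟨j - 2, by omega⟩ + b ⟨j - 2, by omega⟩ ^ 2) * hq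
          have h3 : D q (b ⟨j - 2, by omega⟩) * D (b ⟨j - 2, by omega⟩) q ≠ 0 := by
            rw [h2]
            exact neg_ne_zero.2 (pow_ne_zero 2 (sub_ne_zero.2 h1))
          exact ⟨left_ne_zero_of_mul h3, right_ne_zero_of_mul h3⟩)
        (fun i π => ee i π)
        (fun i π π' h1 h2 => hmc π π' i 1 (by
          rw [add_sub_cancel_right]
          intro h
          have h3 := Int.le_of_dvd (by omega) (Int.dvd_of_emod_eq_zero h)
          omega))
        (fun π π' => by rw [hrot]; norm_num)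
      rw [cons2_swap, cons2_swap, cons2_swap, cons2_one_sub, ← hb'] at h
      exact h
    -- the vectors
    obtain ⟨v0, hv0⟩ : ∃ v, v = A Φ' q b 1 0 := ⟨_, rfl⟩
    obtain ⟨v1, hv1⟩ : ∃ v, v = A Φ' q b 0 1 := ⟨_, rfl⟩
    obtain ⟨w0, hw0⟩ : ∃ v, v = A Φ' (1 - q) b' 1 0 := ⟨_, rfl⟩
    obtain ⟨w1, hw1⟩ : ∃ v, v = A Φ' (1 - q) b' 0 1 := ⟨_, rfl⟩
    have ev0 : push (e 0) v0 = fun π => q * v1 π + (-q ^ 2) * v0 π := by
      funext π
      have := A_ex hf q hq b hΦ' 1 0 π
      rw [hv0, hv1]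
      linear_combination -this
    have ev1 : push (e 0) v1 = fun π => q * v1 π + (-q ^ 2) * v0 π := by
      funext π
      have := A_ex hf q hq b hΦ' 0 1 π
      rw [hv0, hv1]
      linear_combination this
    have ew0 : push (e 0) w0 = fun π => (1 - q) * w1 π + (-(1 - q) ^ 2) * w0 π := by
      funext π
      have := A_ex hf (1 - q) hq' b' hΦ' 1 0 π
      rw [hw0, hw1]
      linear_combination -this
    have ew1 : push (e 0) w1 = fun π => (1 - q) * w1 π + (-(1 - q) ^ 2) * w0 π := by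
      funext π
      have := A_ex hf (1 - q) hq' b' hΦ' 0 1 π
      rw [hw0, hw1]
      linear_combination this
    have hEv : (fun π => q * v1 π + (-q ^ 2) * v0 π) =
        fun π => ((2 * q - 1) * Pi0 q b) * push insN (Φ b) π := by
      funext π
      have h1 := A_curve hf q hq b hΦ' π
      rw [A_lin, ← hv0, ← hv1] at h1
      linear_combination (1 - q) * h1 - (-q * v1 π + v0 π
        + (2 * q - 1) * Pi0 q b * push insN (Φ b) π) * hq
    have hEw : (fun π => (1 - q) * w1 π + (-(1 - q) ^ 2) * w0 π) =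
        fun π => ((2 * (1 - q) - 1) * Pi0 (1 - q) b') * push insN (Φ b') π := by
      funext π
      have h1 := A_curve hf (1 - q) hq' b' hΦ' π
      rw [A_lin, ← hw0, ← hw1] at h1
      linear_combination (1 - (1 - q)) * h1 - (-(1 - q) * w1 π + w0 π
        + (2 * (1 - q) - 1) * Pi0 (1 - q) b' * push insN (Φ b') π) * hq'
    -- the Gram matrix
    have f1 : form τ 2 (push (e 0) v0) w0 = form τ 2 v0 (push (e 0) w0) := hadj _ _
    have f2 : form τ 2 (push (e 0) v1) w0 = form τ 2 v1 (push (e 0) w0) := hadj _ _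
    rw [ev0, ew0, form_lin_left, form_lin_right] at f1
    rw [ev1, ew0, form_lin_left, form_lin_right] at f2
    have N2 : form τ 2 (push insN (Φ b)) (push insN (Φ b')) = Num τ 0 Φ b := by
      rw [form_push, Num, form, hb']
      refine Finset.sum_congr rfl fun α _ => Finset.sum_congr rfl fun β _ => ?_
      rw [← hins2]
      rfl
    have N1 : form τ 1 (push insN (Φ b)) (push insN (Φ b')) = τ * Num τ 0 Φ b := by
      rw [form_push, Num, form, hb', Finset.mul_sum]
      refine Finset.sum_congr rfl fun α _ => ?_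
      rw [Finset.mul_sum]
      refine Finset.sum_congr rfl fun β _ => ?_
      have h1 : mc (insN α).t (insN β).t 1 = mc α.t β.t 0 + 1 := hins1 α β
      rw [h1, pow_succ]
      ring
    have c2 : form τ 2 (fun π => q * v1 π + (-q ^ 2) * v0 π)
        (fun π => (1 - q) * w1 π + (-(1 - q) ^ 2) * w0 π) =
        ((2 * q - 1) * Pi0 q b) * ((2 * (1 - q) - 1) * Pi0 (1 - q) b') * Num τ 0 Φ b := by
      rw [hEv, hEw, form_smul_left, form_smul_right, N2]
      ring
    have c1 : form τ 1 (fun π => q * v1 π + (-q ^ 2) * v0 π)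
        (fun π => (1 - q) * w1 π + (-(1 - q) ^ 2) * w0 π) =
        ((2 * q - 1) * Pi0 q b) * ((2 * (1 - q) - 1) * Pi0 (1 - q) b') * (τ * Num τ 0 Φ b) := by
      rw [hEv, hEw, form_smul_left, form_smul_right, N1]
      ring
    rw [form_lin_left, form_lin_right, form_lin_right] at c1 c2
    have t00 : form τ 1 v0 w0 = form τ 2 v1 w1 := by rw [hv0, hw0, hv1, hw1]; exact htr _ _ _ _
    have t01 : form τ 1 v0 w1 = form τ 2 v1 w0 := by rw [hv0, hw0, hv1, hw1]; exact htr _ _ _ _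
    have t10 : form τ 1 v1 w0 = form τ 2 v0 w1 := by rw [hv0, hw0, hv1, hw1]; exact htr _ _ _ _
    have t11 : form τ 1 v1 w1 = form τ 2 v0 w0 := by rw [hv0, hw0, hv1, hw1]; exact htr _ _ _ _
    rw [t00, t01, t10, t11] at c1
    have hPi := Pi0_mul b q hq
    rw [← hb'] at hPi
    have hfin : form τ 2 (A Φ' q b 1 0) (A Φ' (1 - q) b' (-1) 0) = -form τ 2 v0 w0 := by
      have h1 : A Φ' (1 - q) b' (-1) 0 = fun π => (-1) * w0 π + 0 * w1 π := by
        funext π
        rw [A_lin, hw0, hw1]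
      rw [h1, form_lin_right, ← hv0]
      ring
    rw [hfin]
    generalize form τ 2 v0 w0 = g00 at *
    generalize form τ 2 v0 w1 = g01 at *
    generalize form τ 2 v1 w0 = g10 at *
    generalize form τ 2 v1 w1 = g11 at *
    generalize Num τ 0 Φ b = N at *
    generalize Pi0 q b = P at *
    generalize Pi0 (1 - q) b' = P' at *
    generalize ∏ j, (b j - q) ^ 4 = Q at *
    have s1 : g11 = g00 := by
      linear_combination (-q) * f2 + (q * g10 - (q + 1) * g00 + g11) * hq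
    have r3 : q * g10 = (1 - q) * g01 + (2 * q - 1) * g00 := by
      linear_combination f1
    obtain ⟨K, hK⟩ : ∃ K, K = ((2 * q - 1) * P) * ((2 * (1 - q) - 1) * P') * N := ⟨_, rfl⟩
    have hK3 : K = 3 * Q * N := by
      rw [hK, ← hPi]
      linear_combination (-4 * P * P' * N) * hq
    have hc1 : ((2 * q - 1) * P) * ((2 * (1 - q) - 1) * P') * (τ * N) = τ * K := by
      rw [hK]; ring
    rw [hc1] at c1
    rw [← hK] at c2
    have r2 : g11 - (1 - q) * g10 - q * g01 + g00 = K := by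
      linear_combination c2 - (-g11 + (1 - q) * g10 + q * g01 + (-2 + (q ^ 2 - q + 1)) * g00) * hq
    have r1 : g00 - (1 - q) * g01 - q * g10 + g11 = τ * K := by
      linear_combination c1 - (-g00 + (1 - q) * g01 + q * g10 + (-2 + (q ^ 2 - q + 1)) * g11) * hq
    have r4 : 3 * g00 = (τ + 2) * K := by
      linear_combination r1 + 2 * r2 - (2 * q - 1) * r3 - 3 * s1 -
        (4 * g00 - 2 * g10 - 2 * g01) * hq
    rw [hK3] at r4
    linear_combination (-1 / 3) * r4
  rw [hg] at hlim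
  have hlim' : Tendsto (fun s : ℂ => s⁻¹ * (s⁻¹ * p.eval s)) (𝓝[≠] 0)
      (𝓝 (-(τ + 2) * (∏ j, (b j - q) ^ 4) * Num τ 0 Φ b)) := by
    simp only [hp]
    exact hlim
  obtain ⟨R, hR⟩ := poly_two p _ hlim'
  exact ⟨R, fun s => by rw [← hp, hR]⟩

end Pool.Agent.H51.TA
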