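import Pool.Agent.H97.TA.Form

/-!
# JOB TA-F: combinatorics of the glued form (helper97)
-/

set_option autoImplicit false

namespace Pool.Agent.H51.TA

theorem loopsAround_finite {L : ℕ} (π π' : Pat L) (hL : 0 < L) (c : ℤ) :
    (loopsAround π.t π'.t c).Finite := Pool.Agent.H97.TA.loopsAround_finite π π' hL c

theorem mc_comm {L : ℕ} (π π' : Pat L) (c : ℤ) : mc π.t π'.t c = mc π'.t π.t c :=
  Pool.Agent.H97.TA.mc_comm π π' c

theorem mc_rot {L : ℕ} (π π' : Pat L) (c : ℤ) : mc π.rot.t π'.rot.t c = mc π.t π'.t (c + 1) :=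
  Pool.Agent.H97.TA.mc_rot π π' c

theorem mc_add {L : ℕ} (π π' : Pat L) (c : ℤ) : mc π.t π'.t (c + L) = mc π.t π'.t c :=
  Pool.Agent.H97.TA.mc_add π π' c

theorem mc_e {L : ℕ} (hL : 2 ≤ L) (π π' : Pat L) (i c : ℤ) (h : ¬ (i + 1 - c) % L = 0) :
    mc (e i π).t π'.t c = mc π.t (e i π').t c := Pool.Agent.H97.TA.mc_e hL π π' i c h

theorem mc_ins_one {L : ℕ} [NeZero L] (α β : Pat L) :
    mc (ins α).t (ins β).t 1 = mc α.t β.t 0 + 1 := Pool.Agent.H97.TA.mc_ins_one α β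

/-- the gap `c ∈ [2, L + 2]` of the new pattern is the gap `c - 2` of the old pattern -/
theorem mc_ins {L : ℕ} [NeZero L] (α β : Pat L) (c : ℤ) (h1 : 2 ≤ c) (h2 : c ≤ L + 2) :
    mc (ins α).t (ins β).t c = mc α.t β.t (c - 2) := Pool.Agent.H97.TA.mc_ins α β c h1 h2

end Pool.Agent.H51.TA
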