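import Pool.Agent.H51.TA.Defs

set_option autoImplicit false

/-!
# The triangular lemma for the Temperley-Lieb action on periodic noncrossing matchings
-/

namespace Pool.Agent.H51.TA

namespace TriAux

variable {L : ℕ}

lemma per_mul (π : Pat L) (x q : ℤ) : π.t (x + L * q) = π.t x + L * q := by
  induction q using Int.induction_on with
  | zero => simp
  | succ q ih =>
    have := π.per (x + L * q)
    rw [show x + (L : ℤ) * (q + 1) = x + L * q + L by ring, this, ih]; ring
  | pred q ih =>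
    have := π.per (x + L * (-q - 1))
    rw [show x + (L : ℤ) * (-q - 1) + L = x + L * -q by ring, ih] at this
    linarith

lemma per_dvd (π : Pat L) (x y : ℤ) (h : (L : ℤ) ∣ y - x) : π.t y = π.t x + (y - x) := by
  obtain ⟨q, hq⟩ := h
  have : y = x + L * q := by linarith
  rw [this, per_mul]; ring

lemma lt_add (hL : 0 < L) (π : Pat L) (x : ℤ) : π.t x < x + L := by
  have hL' : (0 : ℤ) < L := by exact_mod_cast hL
  by_contra hcon
  push Not at hcon
  rcases eq_or_lt_of_le hcon with h | h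
  · have h1 := π.inv x
    rw [← h, π.per, ← h] at h1
    linarith
  · have h1 := (π.nc x (x + L) (by linarith) h).2
    rw [π.per] at h1
    linarith

lemma sub_lt (hL : 0 < L) (π : Pat L) (x : ℤ) : x - L < π.t x := by
  have := lt_add hL π (π.t x)
  rw [π.inv] at this
  linarith

lemma not_dvd_of_lt (m : ℤ) (h0 : m ≠ 0) (h1 : m < L) (h2 : -(L : ℤ) < m) : ¬ (L : ℤ) ∣ m := by
  intro h
  have := Int.eq_zero_of_abs_lt_dvd h (abs_lt.2 ⟨h2, h1⟩)
  exact h0 this

lemma emod_iff (m : ℤ) : m % (L : ℤ) = 0 ↔ (L : ℤ) ∣ m := (Int.dvd_iff_emod_eq_zero).symm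

lemma t_sub_ne (π : Pat L) (x : ℤ) (hL : 0 < L) : ¬ (L : ℤ) ∣ π.t x - x := by
  apply not_dvd_of_lt
  · exact sub_ne_zero.2 (π.ne x)
  · linarith [lt_add hL π x]
  · linarith [sub_lt hL π x]

/-- if `t x ≡ y` then `x ≡ t y` -/
lemma dvd_swap (π : Pat L) (x y : ℤ) (h : (L : ℤ) ∣ π.t x - y) : (L : ℤ) ∣ x - π.t y := by
  have h1 := per_dvd π y (π.t x) h
  rw [π.inv] at h1
  have : x - π.t y = π.t x - y := by linarith
  rw [this]; exact h

lemma e_t' (hL : 2 ≤ L) (i : ℤ) (π : Pat L) : (e i π).t = eFun L i π.t := by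
  simp [e, hL]

lemma e_self (hL : 2 ≤ L) (i : ℤ) (π : Pat L) : (e i π).t i = i + 1 := by
  rw [e_t' hL, eFun]; simp

lemma e_succ (hL : 2 ≤ L) (i : ℤ) (π : Pat L) : (e i π).t (i + 1) = i := by
  rw [← e_self hL i π, (e i π).inv]

lemma e_u (hL : 2 ≤ L) (i : ℤ) (π : Pat L) (h : ¬ (L : ℤ) ∣ π.t i - (i + 1)) :
    (e i π).t (π.t i) = π.t (i + 1) := by
  have h1 : ¬ (π.t i - i) % (L : ℤ) = 0 := by
    rw [emod_iff]; exact t_sub_ne π i (by omega)
  have h2 : ¬ (π.t i - i - 1) % (L : ℤ) = 0 := by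
    rw [emod_iff, sub_sub]; exact h
  rw [e_t' hL, eFun, if_neg h1, if_neg h2, π.inv]
  simp

lemma e_v (hL : 2 ≤ L) (i : ℤ) (π : Pat L) (h : ¬ (L : ℤ) ∣ π.t i - (i + 1)) :
    (e i π).t (π.t (i + 1)) = π.t i := by
  rw [← e_u hL i π h, (e i π).inv]

lemma e_other (hL : 2 ≤ L) (i : ℤ) (π : Pat L) (x : ℤ) (h1 : ¬ (L : ℤ) ∣ x - i)
    (h2 : ¬ (L : ℤ) ∣ x - (i + 1)) (h3 : ¬ (L : ℤ) ∣ π.t x - i)
    (h4 : ¬ (L : ℤ) ∣ π.t x - (i + 1)) : (e i π).t x = π.t x := by
  rw [← emod_iff] at h1 h3
  rw [← sub_sub, ← emod_iff] at h2 h4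
  rw [e_t' hL, eFun, if_neg h1, if_neg h2, if_neg h3, if_neg h4]

/-- sum over a period of an indicator of a residue class -/
lemma sum_ind (hL : 0 < L) (p c : ℤ) :
    ∑ x ∈ Finset.range L, (if (L : ℤ) ∣ (x : ℤ) - p then c else 0) = c := by
  have hL' : (0 : ℤ) < L := by exact_mod_cast hL
  set m : ℕ := (p % L).toNat with hm
  have hm1 : (m : ℤ) = p % L := Int.toNat_of_nonneg (Int.emod_nonneg _ hL'.ne')
  have hm2 : m < L := by
    have := Int.emod_lt_of_pos p hL'
    rw [← hm1] at this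
    exact_mod_cast this
  rw [Finset.sum_eq_single m]
  · rw [if_pos]
    rw [hm1]
    exact ⟨-(p / L), by linarith [Int.emod_add_mul_ediv p L]⟩
  · intro b hb hbm
    rw [if_neg]
    intro h
    apply hbm
    have h1 : (L : ℤ) ∣ (b : ℤ) - m := by
      have h2 : (L : ℤ) ∣ (m : ℤ) - p := by
        rw [hm1]
        exact ⟨-(p / L), by linarith [Int.emod_add_mul_ediv p L]⟩
      have := dvd_sub h h2
      rwa [show (b : ℤ) - p - (m - p) = b - m by ring] at this
    have hb' : (b : ℤ) < L := by exact_mod_cast Finset.mem_range.1 hb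
    have hm3 : (m : ℤ) < L := by exact_mod_cast hm2
    have := Int.eq_zero_of_abs_lt_dvd h1 (abs_lt.2 ⟨by omega, by omega⟩)
    omega
  · intro h
    exact absurd (Finset.mem_range.2 hm2) h

/-- sum over a period of a periodic function supported on four residue classes -/
lemma sum_four (hL : 0 < L) (g : ℤ → ℤ) (hg : ∀ x y, (L : ℤ) ∣ y - x → g y = g x)
    (p1 p2 p3 p4 : ℤ) (h12 : ¬ (L : ℤ) ∣ p1 - p2) (h13 : ¬ (L : ℤ) ∣ p1 - p3)
    (h14 : ¬ (L : ℤ) ∣ p1 - p4) (h23 : ¬ (L : ℤ) ∣ p2 - p3) (h24 : ¬ (L : ℤ) ∣ p2 - p4)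
    (h34 : ¬ (L : ℤ) ∣ p3 - p4)
    (hz : ∀ x, ¬ (L : ℤ) ∣ x - p1 → ¬ (L : ℤ) ∣ x - p2 → ¬ (L : ℤ) ∣ x - p3 →
      ¬ (L : ℤ) ∣ x - p4 → g x = 0) :
    ∑ x ∈ Finset.range L, g x = g p1 + g p2 + g p3 + g p4 := by
  have key : ∀ x : ℤ, g x = (if (L : ℤ) ∣ x - p1 then g p1 else 0) +
      (if (L : ℤ) ∣ x - p2 then g p2 else 0) + (if (L : ℤ) ∣ x - p3 then g p3 else 0) +
      (if (L : ℤ) ∣ x - p4 then g p4 else 0) := by
    have hd : ∀ x p q : ℤ, ¬ (L : ℤ) ∣ p - q → (L : ℤ) ∣ x - p → ¬ (L : ℤ) ∣ x - q := by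
      intro x p q h1 h2 h3
      apply h1
      have := dvd_sub h3 h2
      rwa [show x - q - (x - p) = p - q by ring] at this
    have hd' : ∀ x p q : ℤ, ¬ (L : ℤ) ∣ p - q → (L : ℤ) ∣ x - q → ¬ (L : ℤ) ∣ x - p := by
      intro x p q h1 h2 h3
      exact hd x p q h1 h3 h2
    intro x
    by_cases h1 : (L : ℤ) ∣ x - p1
    · rw [if_pos h1, if_neg (hd x _ _ h12 h1), if_neg (hd x _ _ h13 h1),
        if_neg (hd x _ _ h14 h1), hg _ _ h1]; ring
    · by_cases h2 : (L : ℤ) ∣ x - p2
      · rw [if_neg h1, if_pos h2, if_neg (hd x _ _ h23 h2), if_neg (hd x _ _ h24 h2),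
          hg _ _ h2]; ring
      · by_cases h3 : (L : ℤ) ∣ x - p3
        · rw [if_neg h1, if_neg h2, if_pos h3, if_neg (hd x _ _ h34 h3), hg _ _ h3]; ring
        · by_cases h4 : (L : ℤ) ∣ x - p4
          · rw [if_neg h1, if_neg h2, if_neg h3, if_pos h4, hg _ _ h4]; ring
          · rw [if_neg h1, if_neg h2, if_neg h3, if_neg h4, hz x h1 h2 h3 h4]; ring
  rw [Finset.sum_congr rfl (fun (x : ℕ) _ => key (x : ℤ)), Finset.sum_add_distrib, Finset.sum_add_distrib,
    Finset.sum_add_distrib, sum_ind hL, sum_ind hL, sum_ind hL, sum_ind hL]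

lemma len_cast (π : Pat L) : (len π : ℤ) = ∑ x ∈ Finset.range L, |π.t x - x| := by
  rw [len]; push_cast
  rfl

/-- surgery formula -/
lemma len_e (hL : 2 ≤ L) (i : ℤ) (π : Pat L) (h : ¬ (L : ℤ) ∣ π.t i - (i + 1)) :
    (len (e i π) : ℤ) = len π - 2 * |π.t i - i| - 2 * |π.t (i + 1) - (i + 1)| + 2
      + 2 * |π.t (i + 1) - π.t i| := by
  have hL0 : 0 < L := by omega
  have hL1 : (2 : ℤ) ≤ L := by exact_mod_cast hL
  have h1 : ∑ x ∈ Finset.range L, (|(e i π).t x - x| - |π.t x - x|) =
      (|(e i π).t i - i| - |π.t i - i|) + (|(e i π).t (i + 1) - (i + 1)| - |π.t (i + 1) - (i + 1)|)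
      + (|(e i π).t (π.t i) - (π.t i)| - |π.t (π.t i) - (π.t i)|)
      + (|(e i π).t (π.t (i + 1)) - (π.t (i + 1))| - |π.t (π.t (i + 1)) - (π.t (i + 1))|) := by
    apply sum_four hL0 (fun x => |(e i π).t x - x| - |π.t x - x|)
    · intro x y hxy
      rw [per_dvd _ x y hxy, per_dvd π x y hxy]
      rw [show (e i π).t x + (y - x) - y = (e i π).t x - x by ring,
        show π.t x + (y - x) - y = π.t x - x by ring]
    · apply not_dvd_of_lt <;> omega
    · intro h'
      apply t_sub_ne π i hL0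
      rw [← dvd_neg]; rwa [neg_sub]
    · intro h'
      apply h
      rw [← dvd_neg, neg_sub]
      apply dvd_swap
      rw [← dvd_neg, neg_sub]
      exact h'
    · intro h'
      apply h
      rw [← dvd_neg]; rwa [neg_sub]
    · intro h'
      apply t_sub_ne π (i + 1) hL0
      rw [← dvd_neg]; rwa [neg_sub]
    · intro h'
      have := dvd_swap π _ _ h'
      rw [π.inv] at this
      revert this
      apply not_dvd_of_lt <;> omega
    · intro x hx1 hx2 hx3 hx4
      rw [e_other hL i π x hx1 hx2, sub_self]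
      · intro h'; exact hx3 (dvd_swap π _ _ h')
      · intro h'; exact hx4 (dvd_swap π _ _ h')
  rw [Finset.sum_sub_distrib, ← len_cast, ← len_cast] at h1
  rw [e_self hL, e_succ hL, e_u hL i π h, e_v hL i π h, π.inv, π.inv] at h1
  rw [show i + 1 - i = 1 by ring, show i - (i + 1) = -1 by ring, abs_neg, abs_one] at h1
  rw [abs_sub_comm i (π.t i), abs_sub_comm (i + 1) (π.t (i + 1)),
    abs_sub_comm (π.t i) (π.t (i + 1))] at h1
  linarith

/-- a descent which is not covered by an arc of length `L - 1` -/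
def GoodDescent (π : Pat L) (i : ℤ) : Prop :=
  π.t i < i ∧ i + 1 < π.t (i + 1) ∧ ¬ (L : ℤ) ∣ π.t i - (i + 1)

lemma good_left (hL : 0 < L) (π : Pat L) (i : ℤ)
    (h3 : ¬ (L : ℤ) ∣ π.t i - (i + 1)) : i + 1 - L < π.t i := by
  have h4 := sub_lt hL π i
  rcases eq_or_lt_of_le (show i + 1 - L ≤ π.t i by omega) with h | h
  · exfalso; apply h3; rw [← h]; exact ⟨-1, by ring⟩
  · exact h

lemma good_right (hL : 0 < L) (π : Pat L) (i : ℤ)
    (h3 : ¬ (L : ℤ) ∣ π.t i - (i + 1)) : π.t (i + 1) < i + L := by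
  have h4 := lt_add hL π (i + 1)
  rcases eq_or_lt_of_le (show π.t (i + 1) ≤ i + L by omega) with h | h
  · exfalso
    apply h3
    rw [← dvd_neg, neg_sub]
    apply dvd_swap
    rw [h]; exact ⟨1, by ring⟩
  · exact h

/-- the key case -/
lemma case_nested (hL : 2 ≤ L) (π γ : Pat L) (i : ℤ) (h : GoodDescent π i) (hg : GoodDescent γ i)
    (he : e i γ = e i π) : γ = π := by
  have hL0 : 0 < L := by omega
  obtain ⟨a1, a2, a3⟩ := h
  obtain ⟨b1, b2, b3⟩ := hg
  have a4 := good_left hL0 π i a3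
  have b4 := good_left hL0 γ i b3
  have hu : γ.t i = π.t i := by
    rcases lt_trichotomy (γ.t i) (π.t i) with hlt | heq | hlt
    · exfalso
      -- γ.t i < π.t i < i : γ maps π.t i inside
      have h1 := γ.nc (γ.t i) (π.t i) hlt (by rw [γ.inv]; exact a1)
      rw [γ.inv] at h1
      have h2 : (e i γ).t (π.t i) = γ.t (π.t i) := by
        apply e_other hL <;> apply not_dvd_of_lt <;> omega
      rw [he, e_u hL i π a3] at h2
      omega
    · exact heq
    · exfalso
      have h1 := π.nc (π.t i) (γ.t i) hlt (by rw [π.inv]; exact b1)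
      rw [π.inv] at h1
      have h2 : (e i π).t (γ.t i) = π.t (γ.t i) := by
        apply e_other hL <;> apply not_dvd_of_lt <;> omega
      rw [← he, e_u hL i γ b3] at h2
      omega
  have hv : γ.t (i + 1) = π.t (i + 1) := by
    rw [← e_u hL i γ b3, ← e_u hL i π a3, he, hu]
  ext x
  by_cases h1 : (L : ℤ) ∣ x - i
  · rw [per_dvd γ i x h1, per_dvd π i x h1, hu]
  by_cases h2 : (L : ℤ) ∣ x - (i + 1)
  · rw [per_dvd γ (i + 1) x h2, per_dvd π (i + 1) x h2, hv]
  by_cases h3 : (L : ℤ) ∣ x - π.t i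
  · rw [per_dvd γ (π.t i) x h3, per_dvd π (π.t i) x h3, π.inv, ← hu, γ.inv]
  by_cases h4 : (L : ℤ) ∣ x - π.t (i + 1)
  · rw [per_dvd γ (π.t (i + 1)) x h4, per_dvd π (π.t (i + 1)) x h4, π.inv, ← hv, γ.inv]
  rw [← e_other hL i π x h1 h2 (fun h => h3 (dvd_swap π _ _ h)) (fun h => h4 (dvd_swap π _ _ h)),
    ← he, e_other hL i γ x h1 h2]
  · intro h; rw [← hu] at h3; exact h3 (dvd_swap γ _ _ h)
  · intro h; rw [← hv] at h4; exact h4 (dvd_swap γ _ _ h)

lemma tri_good (hL : 2 ≤ L) (π : Pat L) (i : ℤ) (h : GoodDescent π i) :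
    e i π ≠ π ∧ ∀ γ : Pat L, e i γ = e i π → γ ≠ π → len π < len γ := by
  have hL0 : 0 < L := by omega
  obtain ⟨a1, a2, a3⟩ := h
  have a4 := good_left hL0 π i a3
  have a5 := good_right hL0 π i a3
  constructor
  · intro h
    have := e_self hL i π
    rw [h] at this
    omega
  intro γ he hne
  -- length of `e i π`
  have hlen := len_e hL i π a3
  rw [abs_of_neg (by omega : π.t i - i < 0), abs_of_pos (by omega : 0 < π.t (i + 1) - (i + 1)),
    abs_of_pos (by omega : 0 < π.t (i + 1) - π.t i)] at hlen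
  by_cases b3 : (L : ℤ) ∣ γ.t i - (i + 1)
  · -- γ i = i + 1 or γ i = i + 1 - L
    have c1 := lt_add hL0 γ i
    have c2 := sub_lt hL0 γ i
    have c3 : γ.t i = i + 1 ∨ γ.t i = i + 1 - L := by
      obtain ⟨q, hq⟩ := b3
      have hq1 : q < 1 := by
        by_contra hcon
        push Not at hcon
        nlinarith
      have hq2 : -2 < q := by
        by_contra hcon
        push Not at hcon
        nlinarith
      have : q = 0 ∨ q = -1 := by omega
      rcases this with rfl | rfl
      · left; linarith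
      · right; linarith
    rcases c3 with c3 | c3
    · -- γ = e i γ
      have hγ : e i γ = γ := by
        ext x
        by_cases h1 : (L : ℤ) ∣ x - i
        · rw [per_dvd γ i x h1, per_dvd _ i x h1, e_self hL, c3]
        by_cases h2 : (L : ℤ) ∣ x - (i + 1)
        · rw [per_dvd γ (i + 1) x h2, per_dvd _ (i + 1) x h2, e_succ hL, ← c3, γ.inv]
        apply e_other hL i γ x h1 h2
        · intro h; apply h2; rw [← c3]; exact dvd_swap γ _ _ h
        · intro h
          apply h1
          have := dvd_swap γ _ _ h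
          rwa [← c3, γ.inv] at this
      rw [hγ] at he
      rw [← he] at hlen
      have : (len π : ℤ) < len γ := by linarith
      exact_mod_cast this
    · exfalso
      -- arc (i + 1 - L, i) of γ
      have h0 : γ.t (i + 1 - L) = i := by rw [← c3, γ.inv]
      have h1 := γ.nc (i + 1 - L) (π.t i) a4 (by rw [h0]; exact a1)
      rw [h0] at h1
      have h2 : (e i γ).t (π.t i) = γ.t (π.t i) := by
        apply e_other hL <;> apply not_dvd_of_lt <;> omega
      rw [he, e_u hL i π a3] at h2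
      omega
  · have hleng := len_e hL i γ b3
    rw [he] at hleng
    have c1 := γ.ne i
    have c2 := γ.ne (i + 1)
    have c3 : γ.t i ≠ i + 1 := fun h => b3 (by rw [h, sub_self]; exact dvd_zero _)
    have c4 : γ.t (i + 1) ≠ i := fun h => c3 (by
      have h' := γ.inv (i + 1)
      rw [h] at h'
      exact h')
    have goal : (len π : ℤ) < len γ := by
      rcases lt_or_gt_of_ne c1 with hu | hu
      · rcases lt_or_gt_of_ne c2 with hv | hv
        · -- both on the left
          have hv' : γ.t (i + 1) < i := by omega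
          have h1 := (γ.nc (γ.t (i + 1)) i hv' (by rw [γ.inv]; omega)).1
          rw [abs_of_neg (by omega : γ.t i - i < 0),
            abs_of_neg (by omega : γ.t (i + 1) - (i + 1) < 0),
            abs_of_neg (by omega : γ.t (i + 1) - γ.t i < 0)] at hleng
          omega
        · exfalso
          exact hne (case_nested hL π γ i ⟨a1, a2, a3⟩ ⟨hu, hv, b3⟩ he)
      · have hu' : i + 1 < γ.t i := by omega
        rcases lt_or_gt_of_ne c2 with hv | hv
        · exfalso
          have hv' : γ.t (i + 1) < i := by omega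
          have h1 := (γ.nc (γ.t (i + 1)) i hv' (by rw [γ.inv]; omega)).2
          rw [γ.inv] at h1
          omega
        · have h1 := (γ.nc i (i + 1) (by omega) hu').2
          rw [abs_of_pos (by omega : 0 < γ.t i - i),
            abs_of_pos (by omega : 0 < γ.t (i + 1) - (i + 1)),
            abs_of_neg (by omega : γ.t (i + 1) - γ.t i < 0)] at hleng
          omega
    exact_mod_cast goal

/-- there is a descent -/
lemma exists_descent (π : Pat L) : ∀ c o : ℤ, c < o → π.t c < c → o < π.t o →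
    ∃ j, c ≤ j ∧ j < o ∧ π.t j < j ∧ j + 1 < π.t (j + 1) := by
  intro c o hco hc ho
  have hex : ∃ k : ℕ, c + k < π.t (c + k) := ⟨(o - c).toNat, by
    rw [Int.toNat_of_nonneg (by omega)]
    rw [show c + (o - c) = o by ring]; exact ho⟩
  classical
  set k := Nat.find hex with hk
  have hk1 : c + k < π.t (c + k) := Nat.find_spec hex
  have hk0 : k ≠ 0 := by
    intro h
    rw [h] at hk1
    simp at hk1
    omega
  have hk2 : k ≤ (o - c).toNat := by
    apply Nat.find_min' hex
    rw [Int.toNat_of_nonneg (by omega)]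
    rw [show c + (o - c) = o by ring]; exact ho
  have hk3 : ¬ (c + (k - 1 : ℕ) < π.t (c + (k - 1 : ℕ))) := Nat.find_min hex (by omega)
  have hk4 : ((k - 1 : ℕ) : ℤ) = k - 1 := by omega
  rw [hk4] at hk3
  refine ⟨c + (k - 1), by omega, by omega, ?_, ?_⟩
  · have := π.ne (c + (k - 1))
    omega
  · rw [show c + ((k : ℤ) - 1) + 1 = c + k by ring]; exact hk1

/-- the nested case -/
lemma nested (hL : 2 ≤ L) (π : Pat L) (hno : ∀ i, ¬ GoodDescent π i) :
    ∃ i : ℤ, ∀ x, i + 1 - L ≤ x → x ≤ i → π.t x = 2 * i + 1 - L - x := by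
  have hL0 : 0 < L := by omega
  -- a descent exists
  obtain ⟨o, ho⟩ : ∃ o : ℤ, o < π.t o := by
    rcases lt_or_gt_of_ne (π.ne 0) with h | h
    · exact ⟨π.t 0, by rw [π.inv]; exact h⟩
    · exact ⟨0, h⟩
  obtain ⟨i, _, _, hi1, hi2⟩ := exists_descent π (π.t o) (o + L) (lt_add hL0 π o)
    (by rw [π.inv]; exact ho) (by rw [π.per]; omega)
  have hi3 : π.t i = i + 1 - L := by
    have h1 : (L : ℤ) ∣ π.t i - (i + 1) := by
      by_contra h; exact hno i ⟨hi1, hi2, h⟩
    have c1 := lt_add hL0 π i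
    have c2 := sub_lt hL0 π i
    obtain ⟨q, hq⟩ := h1
    have hq1 : q < 0 := by
      by_contra hcon
      push Not at hcon
      nlinarith
    have hq2 : -2 < q := by
      by_contra hcon
      push Not at hcon
      nlinarith
    have : q = -1 := by omega
    rw [this] at hq; linarith
  have hi4 : π.t (i + 1 - L) = i := by rw [← hi3, π.inv]
  refine ⟨i, ?_⟩
  -- no descent in the window
  have hnod : ∀ x y, i + 1 - L ≤ x → x < y → y ≤ i → π.t x < x → y < π.t y → False := by
    intro x y hx hxy hy hcx hoy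
    obtain ⟨j, hj1, hj2, hj3, hj4⟩ := exists_descent π x y hxy hcx hoy
    have h1 : (L : ℤ) ∣ π.t j - (j + 1) := by
      by_contra h; exact hno j ⟨hj3, hj4, h⟩
    have c2 := sub_lt hL0 π j
    have hj5 : π.t j = j + 1 - L := by
      obtain ⟨q, hq⟩ := h1
      have hq1 : q < 0 := by
        by_contra hcon
        push Not at hcon
        nlinarith
      have hq2 : -2 < q := by
        by_contra hcon
        push Not at hcon
        nlinarith
      have : q = -1 := by omega
      rw [this] at hq; linarith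
    rcases eq_or_lt_of_le (show i + 1 - L ≤ j by omega) with h | h
    · rw [← h, hi4] at hj3
      omega
    · have := (π.nc (i + 1 - L) j h (by rw [hi4]; omega)).1
      omega
  -- the window is stable
  have hwin : ∀ x, i + 1 - L ≤ x → x ≤ i → i + 1 - L ≤ π.t x ∧ π.t x ≤ i := by
    intro x hx1 hx2
    rcases eq_or_lt_of_le hx1 with h | h
    · rw [← h, hi4]; omega
    · rcases eq_or_lt_of_le hx2 with h' | h'
      · rw [h', hi3]; omega
      · have := π.nc (i + 1 - L) x h (by rw [hi4]; exact h')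
        rw [hi4] at this
        omega
  -- bound for openings
  have hop : ∀ k : ℕ, i + 1 - L + k ≤ i → i + 1 - L + k < π.t (i + 1 - L + k) →
      π.t (i + 1 - L + k) ≤ i - k := by
    intro k
    induction k with
    | zero =>
      intro h1 _
      have := (hwin (i + 1 - L + (0 : ℕ)) (by simp) h1).2
      push_cast at this ⊢
      linarith
    | succ k ih =>
      intro h1 h2
      push_cast at h1 h2 ⊢
      -- the previous one is opening too
      have h3 : i + 1 - L + (k : ℤ) < π.t (i + 1 - L + k) := by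
        have hne := π.ne (i + 1 - L + (k : ℤ))
        by_contra hcon
        exact hnod (i + 1 - L + k) (i + 1 - L + (k + 1)) (by omega) (by omega) (by omega)
          (by omega) h2
      have h4 := ih (by omega) h3
      -- t (x + 1) < t x
      have h5 : π.t (i + 1 - L + (k + 1)) < π.t (i + 1 - L + k) := by
        have h6 : i + 1 - L + ((k : ℤ) + 1) < π.t (i + 1 - L + k) := by
          have hne : π.t (i + 1 - L + k) ≠ i + 1 - L + ((k : ℤ) + 1) := by
            intro h
            rw [← h, π.inv, h] at h2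
            omega
          omega
        exact (π.nc (i + 1 - L + k) (i + 1 - L + (k + 1)) (by omega) h6).2
      omega
  -- bound for closings
  have hcl : ∀ k : ℕ, i + 1 - L ≤ i - k → π.t (i - k) < i - k →
      i + 1 - L + k ≤ π.t (i - k) := by
    intro k
    induction k with
    | zero =>
      intro h1 _
      have := (hwin (i - (0 : ℕ)) (by simpa using h1) (by simp)).1
      push_cast at this ⊢
      linarith
    | succ k ih =>
      intro h1 h2
      push_cast at h1 h2 ⊢
      have h3 : π.t (i - (k : ℤ)) < i - k := by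
        have hne := π.ne (i - (k : ℤ))
        by_contra hcon
        exact hnod (i - (k + 1)) (i - k) (by omega) (by omega) (by omega) h2 (by omega)
      have h4 := ih (by omega) h3
      have h5 : π.t (i - (k : ℤ)) < π.t (i - ((k : ℤ) + 1)) := by
        have h6 : π.t (i - (k : ℤ)) < i - ((k : ℤ) + 1) := by
          have hne : π.t (i - (k : ℤ)) ≠ i - ((k : ℤ) + 1) := by
            intro h
            rw [← h, π.inv, h] at h2
            omega
          omega
        have := (π.nc (π.t (i - (k : ℤ))) (i - ((k : ℤ) + 1)) h6 (by rw [π.inv]; omega)).1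
        exact this
      omega
  intro x hx1 hx2
  obtain ⟨w1, w2⟩ := hwin x hx1 hx2
  rcases lt_or_gt_of_ne (π.ne x) with h | h
  · -- closing
    have h1 := hcl (i - x).toNat (by omega) (by
      rw [Int.toNat_of_nonneg (by omega), show i - (i - x) = x by ring]; exact h)
    rw [Int.toNat_of_nonneg (by omega), show i - (i - x) = x by ring] at h1
    have h2 := hop (π.t x - (i + 1 - L)).toNat (by omega) (by
      rw [Int.toNat_of_nonneg (by omega),
        show i + 1 - (L : ℤ) + (π.t x - (i + 1 - L)) = π.t x by ring, π.inv]; exact h)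
    rw [Int.toNat_of_nonneg (by omega),
      show i + 1 - (L : ℤ) + (π.t x - (i + 1 - L)) = π.t x by ring, π.inv] at h2
    omega
  · have h1 := hop (x - (i + 1 - L)).toNat (by omega) (by
      rw [Int.toNat_of_nonneg (by omega),
        show i + 1 - (L : ℤ) + (x - (i + 1 - L)) = x by ring]; exact h)
    rw [Int.toNat_of_nonneg (by omega),
      show i + 1 - (L : ℤ) + (x - (i + 1 - L)) = x by ring] at h1
    have h2 := hcl (i - π.t x).toNat (by omega) (by
      rw [Int.toNat_of_nonneg (by omega), show i - (i - π.t x) = π.t x by ring, π.inv]; exact h)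
    rw [Int.toNat_of_nonneg (by omega), show i - (i - π.t x) = π.t x by ring, π.inv] at h2
    omega

lemma rot_iter_t (k : ℕ) (π : Pat L) (x : ℤ) : (Pat.rot^[k] π).t x = π.t (x + k) - k := by
  induction k generalizing x π with
  | zero => simp
  | succ k ih =>
    rw [Function.iterate_succ_apply, ih]
    simp only [Pat.rot]
    push_cast
    rw [show x + (k : ℤ) + 1 = x + (k + 1) by ring]; ring

end TriAux

open TriAux in
/-- every pattern which is not a rotation of `chi` is, for some `i`, the unique preimage of minimal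
length of `e i π` -/
theorem tri {n : ℕ} [NeZero n] (π : Pat (2 * n)) :
    (∃ k : ℕ, π = Pat.rot^[k] (chi n)) ∨
    ∃ i : Fin (2 * n), e (i : ℤ) π ≠ π ∧
      ∀ γ : Pat (2 * n), e (i : ℤ) γ = e (i : ℤ) π → γ ≠ π → len π < len γ := by
  have hn : 0 < n := Nat.pos_of_ne_zero (NeZero.ne n)
  have hn' : (0 : ℤ) < n := by exact_mod_cast hn
  have hL : 2 ≤ 2 * n := by omega
  have hL0 : 0 < 2 * n := by omega
  have hL0' : (0 : ℤ) < ((2 * n : ℕ) : ℤ) := by exact_mod_cast hL0
  by_cases h : ∃ i, GoodDescent π i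
  · right
    obtain ⟨i, h1, h2, h3⟩ := h
    have hi0 : 0 ≤ i % ((2 * n : ℕ) : ℤ) := Int.emod_nonneg _ hL0'.ne'
    have hi1 : i % ((2 * n : ℕ) : ℤ) < ((2 * n : ℕ) : ℤ) := Int.emod_lt_of_pos _ hL0'
    have hdvd : ((2 * n : ℕ) : ℤ) ∣ i - i % ((2 * n : ℕ) : ℤ) :=
      ⟨i / ((2 * n : ℕ) : ℤ), by linarith [Int.emod_add_mul_ediv i ((2 * n : ℕ) : ℤ)]⟩
    set r : ℤ := i % ((2 * n : ℕ) : ℤ) with hr
    have hgood : GoodDescent π r := by
      have e1 := per_dvd π r i hdvd
      have e2 := per_dvd π (r + 1) (i + 1) (by rwa [show i + 1 - (r + 1) = i - r by ring])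
      refine ⟨by linarith, by linarith, ?_⟩
      intro hcon
      apply h3
      rw [e1]
      have : π.t r + (i - r) - (i + 1) = π.t r - (r + 1) := by ring
      rwa [this]
    refine ⟨⟨r.toNat, by omega⟩, ?_⟩
    have hcast : (((⟨r.toNat, by omega⟩ : Fin (2 * n)) : ℕ) : ℤ) = r :=
      Int.toNat_of_nonneg hi0
    rw [hcast]
    exact tri_good hL π r hgood
  · left
    push Not at h
    obtain ⟨i, hi⟩ := nested hL π h
    -- k ≡ n - 1 - i
    have hk0 : 0 ≤ (n - 1 - i) % ((2 * n : ℕ) : ℤ) := Int.emod_nonneg _ hL0'.ne'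
    set s : ℤ := (n - 1 - i) / ((2 * n : ℕ) : ℤ) with hs
    have hk1 : (n - 1 - i) % ((2 * n : ℕ) : ℤ) = n - 1 - i - (2 * n : ℕ) * s := by
      linarith [Int.emod_add_mul_ediv (n - 1 - i) ((2 * n : ℕ) : ℤ)]
    refine ⟨((n - 1 - i) % ((2 * n : ℕ) : ℤ)).toNat, ?_⟩
    ext x
    rw [rot_iter_t, Int.toNat_of_nonneg hk0, hk1]
    simp only [chi, chiFun]
    -- reduce x to the window
    set q : ℤ := (x - (i + 1 - (2 * n : ℕ))) / ((2 * n : ℕ) : ℤ) with hq
    have hx1 := Int.emod_add_mul_ediv (x - (i + 1 - (2 * n : ℕ))) ((2 * n : ℕ) : ℤ)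
    have hx2 := Int.emod_nonneg (x - (i + 1 - (2 * n : ℕ))) hL0'.ne'
    have hx3 := Int.emod_lt_of_pos (x - (i + 1 - (2 * n : ℕ))) hL0'
    rw [← hq] at hx1
    have hw := hi (x - (2 * n : ℕ) * q) (by linarith) (by linarith)
    have hper := per_mul π (x - (2 * n : ℕ) * q) q
    rw [show x - ((2 * n : ℕ) : ℤ) * q + ((2 * n : ℕ) : ℤ) * q = x by ring, hw] at hper
    rw [hper]
    have hfl : (x + (n - 1 - i - ((2 * n : ℕ) : ℤ) * s) + n) / (2 * n : ℤ) = q - s := by
      have e1 : x + (n - 1 - i - ((2 * n : ℕ) : ℤ) * s) + n =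
          (x - (i + 1 - (2 * n : ℕ))) + (2 * n : ℤ) * (-s) := by push_cast; ring
      rw [e1, Int.add_mul_ediv_left _ _ (by omega), hq]
      push_cast
      ring
    rw [hfl]
    push_cast
    ring

end Pool.Agent.H51.TA
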