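import Pool.Agent.H51.TA.Rel
import Pool.Agent.H51.TA.Tri

set_option autoImplicit false

/-!
# MP_fe58d8_pr, ALG part: uniqueness (job 117; specification: helper51, proof: helper69)

Two polynomial solutions of the exchange and rotation relations are proportional.
-/

namespace Pool.Agent.H51.TA

namespace UniqAux

open Finset

/-! ### rotations and `len` -/

theorem len_rot {L : ℕ} (π : Pat L) : len π.rot = len π := by
  unfold len
  have h1 : ∀ x : ℕ, (π.rot.t x - x).natAbs = (π.t ((x + 1 : ℕ) : ℤ) - ((x + 1 : ℕ) : ℤ)).natAbs := by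
    intro x
    show (π.t ((x : ℤ) + 1) - 1 - x).natAbs = _
    push_cast
    congr 1
    ring
  rw [Finset.sum_congr rfl (fun x _ => h1 x)]
  have h2 := Finset.sum_range_succ' (fun x : ℕ => (π.t (x : ℤ) - (x : ℤ)).natAbs) L
  have h3 := Finset.sum_range_succ (fun x : ℕ => (π.t (x : ℤ) - (x : ℤ)).natAbs) L
  have h4 : (π.t (L : ℤ) - (L : ℤ)).natAbs = (π.t ((0 : ℕ) : ℤ) - ((0 : ℕ) : ℤ)).natAbs := by
    have := π.per 0
    rw [zero_add] at this
    rw [this]
    congr 1
    push_cast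
    ring
  rw [h3, h4] at h2
  exact (Nat.add_right_cancel h2).symm

theorem len_rotInv {L : ℕ} (π : Pat L) : len π.rotInv = len π := by
  rw [← len_rot π.rotInv, rot_rotInv]

variable {n : ℕ} [NeZero n]

/-- the generic tuples -/
def Good {L : ℕ} (a : Fin L → ℂ) : Prop := ∀ i j, i ≠ j → a i ≠ a j ∧ D (a i) (a j) ≠ 0

theorem Good.comp {L : ℕ} {a : Fin L → ℂ} (h : Good a) (s : Equiv.Perm (Fin L)) :
    Good (a ∘ s) := fun i j hij => h (s i) (s j) (fun hh => hij (s.injective hh))

/-- the exchange relation for `chi` -/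
theorem EX_chi {X : (Fin (2 * n) → ℂ) → Pat (2 * n) → ℂ} (hX : EX Set.univ X)
    (a : Fin (2 * n) → ℂ) (i : ℕ) (hi : i + 1 < 2 * n) :
    D (a ⟨i, by omega⟩) (a ⟨i + 1, hi⟩) *
        X (a ∘ Equiv.swap ⟨i, by omega⟩ ⟨i + 1, hi⟩) (chi n) =
      D (a ⟨i + 1, hi⟩) (a ⟨i, by omega⟩) * X a (chi n) := by
  rw [hX a (fun _ => Set.mem_univ _) i hi (chi n)]
  rw [Finset.sum_eq_zero, mul_zero, add_zero]
  intro π hπ
  rw [Finset.mem_filter] at hπ
  exact absurd hπ.2 (e_ne_chi i hi π)

/-- adjacent transpositions generate the symmetric group (induction principle) -/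
theorem perm_induction {N : ℕ} (p : Equiv.Perm (Fin N) → Prop) (h1 : p 1)
    (hmul : ∀ s t, p s → p t → p (s * t))
    (hsw : ∀ (i : ℕ) (hi : i + 1 < N), p (Equiv.swap ⟨i, by omega⟩ ⟨i + 1, hi⟩))
    (s : Equiv.Perm (Fin N)) : p s := by
  rcases N with _ | N
  · have : s = 1 := Subsingleton.elim _ _
    rw [this]; exact h1
  · have hs : s ∈ Submonoid.closure
        (Set.range fun i : Fin N ↦ Equiv.swap i.castSucc i.succ) := by
      rw [Equiv.Perm.mclosure_swap_castSucc_succ]; trivial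
    induction hs using Submonoid.closure_induction with
    | mem x hx =>
      obtain ⟨i, rfl⟩ := hx
      exact hsw i.1 (by omega)
    | one => exact h1
    | mul x y _ _ hx hy => exact hmul x y hx hy

/-- the values at `chi` of all solutions are multiplied by the same nonzero factor under a
permutation of the (generic) tuple -/
theorem perm_chi {X Y : (Fin (2 * n) → ℂ) → Pat (2 * n) → ℂ} (hX : EX Set.univ X)
    (hY : EX Set.univ Y) (s : Equiv.Perm (Fin (2 * n))) :
    ∀ a : Fin (2 * n) → ℂ, Good a → ∃ c : ℂ, c ≠ 0 ∧ X (a ∘ s) (chi n) = c * X a (chi n) ∧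
      Y (a ∘ s) (chi n) = c * Y a (chi n) := by
  induction s using perm_induction with
  | h1 =>
    intro a _
    exact ⟨1, one_ne_zero, by simp, by simp⟩
  | hmul s t hs ht =>
    intro a ha
    obtain ⟨c, hc, hcX, hcY⟩ := hs a ha
    obtain ⟨d, hd, hdX, hdY⟩ := ht (a ∘ s) (ha.comp s)
    refine ⟨d * c, mul_ne_zero hd hc, ?_, ?_⟩
    · rw [mul_assoc, ← hcX, ← hdX]; rfl
    · rw [mul_assoc, ← hcY, ← hdY]; rfl
  | hsw i hi =>
    intro a ha
    have h1 := (ha ⟨i, by omega⟩ ⟨i + 1, hi⟩ (by simp [Fin.ext_iff])).2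
    have h2 := (ha ⟨i + 1, hi⟩ ⟨i, by omega⟩ (by simp [Fin.ext_iff])).2
    refine ⟨D (a ⟨i + 1, hi⟩) (a ⟨i, by omega⟩) / D (a ⟨i, by omega⟩) (a ⟨i + 1, hi⟩),
      div_ne_zero h2 h1, ?_, ?_⟩
    · have := EX_chi hX a i hi
      field_simp
      linear_combination this
    · have := EX_chi hY a i hi
      field_simp
      linear_combination this

section Main

variable (X Y : (Fin (2 * n) → ℂ) → Pat (2 * n) → ℂ)

/-- the determinant of `X`, `Y` -/
def Z (a : Fin (2 * n) → ℂ) (π : Pat (2 * n)) : ℂ :=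
  X a π * Y a (chi n) - X a (chi n) * Y a π

variable {X Y}

theorem Z_rot (hXE : EX Set.univ X) (hYE : EX Set.univ Y) (hXR : ROT Set.univ X)
    (hYR : ROT Set.univ Y) (a : Fin (2 * n) → ℂ) (ha : Good a) :
    ∃ c : ℂ, c ≠ 0 ∧ ∀ π : Pat (2 * n), Z X Y (a ∘ finRotate (2 * n)) π.rot = c * Z X Y a π := by
  obtain ⟨c, hc, hcX, hcY⟩ := perm_chi hXE hYE (finRotate (2 * n)) a ha
  refine ⟨c, hc, fun π => ?_⟩
  unfold Z
  rw [hXR a (fun _ => Set.mem_univ _) π, hYR a (fun _ => Set.mem_univ _) π, hcX, hcY]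
  ring

theorem Z_EX (hXE : EX Set.univ X) (hYE : EX Set.univ Y) (a : Fin (2 * n) → ℂ)
    (i : ℕ) (hi : i + 1 < 2 * n) (α : Pat (2 * n)) :
    D (a ⟨i, by omega⟩) (a ⟨i + 1, hi⟩) ^ 2 *
        Z X Y (a ∘ Equiv.swap ⟨i, by omega⟩ ⟨i + 1, hi⟩) α =
      D (a ⟨i + 1, hi⟩) (a ⟨i, by omega⟩) * (D (a ⟨i + 1, hi⟩) (a ⟨i, by omega⟩) * Z X Y a α +
        (a ⟨i, by omega⟩ - a ⟨i + 1, hi⟩) * ∑ π with e (i : ℤ) π = α, Z X Y a π) := by
  have h1 := hXE a (fun _ => Set.mem_univ _) i hi α
  have h2 := hYE a (fun _ => Set.mem_univ _) i hi α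
  have h3 := EX_chi hXE a i hi
  have h4 := EX_chi hYE a i hi
  have h5 : ∑ π with e (i : ℤ) π = α, Z X Y a π =
      (∑ π with e (i : ℤ) π = α, X a π) * Y a (chi n) -
        X a (chi n) * ∑ π with e (i : ℤ) π = α, Y a π := by
    unfold Z
    rw [Finset.sum_sub_distrib, Finset.sum_mul, Finset.mul_sum]
  rw [h5]
  unfold Z
  set D1 := D (a ⟨i, by omega⟩) (a ⟨i + 1, hi⟩)
  set D2 := D (a ⟨i + 1, hi⟩) (a ⟨i, by omega⟩)
  set b := a ∘ Equiv.swap ⟨i, by omega⟩ ⟨i + 1, hi⟩
  calc D1 ^ 2 * (X b α * Y b (chi n) - X b (chi n) * Y b α)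
      = (D1 * X b α) * (D1 * Y b (chi n)) - (D1 * X b (chi n)) * (D1 * Y b α) := by ring
    _ = _ := by rw [h1, h2, h3, h4]; ring

/-- the vanishing of `Z` on generic tuples is invariant under rotations -/
theorem van_rot (hXE : EX Set.univ X) (hYE : EX Set.univ Y) (hXR : ROT Set.univ X)
    (hYR : ROT Set.univ Y) (π : Pat (2 * n)) :
    (∀ a, Good a → Z X Y a π.rot = 0) ↔ ∀ a, Good a → Z X Y a π = 0 := by
  constructor
  · intro h a ha
    obtain ⟨c, hc, hcZ⟩ := Z_rot hXE hYE hXR hYR a ha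
    have := hcZ π
    rw [h _ (ha.comp _)] at this
    exact (mul_eq_zero.1 this.symm).resolve_left hc
  · intro h a ha
    have ha' : Good (a ∘ (finRotate (2 * n)).symm) := ha.comp _
    obtain ⟨c, hc, hcZ⟩ := Z_rot hXE hYE hXR hYR _ ha'
    have := hcZ π
    rw [h _ ha', mul_zero] at this
    have h2 : (a ∘ (finRotate (2 * n)).symm) ∘ finRotate (2 * n) = a := by
      funext x; simp
    rwa [h2] at this

/-- the induction step, at the positions `i`, `i + 1` -/
theorem step (hXE : EX Set.univ X) (hYE : EX Set.univ Y) (π : Pat (2 * n)) (i : ℕ)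
    (hi : i + 1 < 2 * n) (hne : e (i : ℤ) π ≠ π)
    (hγ : ∀ γ : Pat (2 * n), e (i : ℤ) γ = e (i : ℤ) π → γ ≠ π →
      ∀ a, Good a → Z X Y a γ = 0) : ∀ a, Good a → Z X Y a π = 0 := by
  classical
  intro a ha
  have h := Z_EX hXE hYE a i hi (e (i : ℤ) π)
  have h1 := hγ (e (i : ℤ) π) (e_e _ _) hne
  rw [h1 a ha, h1 _ (ha.comp _), mul_zero, mul_zero, zero_add] at h
  have h2 : ∑ π' with e (i : ℤ) π' = e (i : ℤ) π, Z X Y a π' = Z X Y a π := by
    rw [Finset.sum_eq_single π]
    · intro γ hγ' hne'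
      rw [Finset.mem_filter] at hγ'
      exact hγ γ hγ'.2 hne' a ha
    · intro hh
      exact (hh (Finset.mem_filter.2 ⟨Finset.mem_univ _, rfl⟩)).elim
  rw [h2] at h
  have h3 := (ha ⟨i + 1, hi⟩ ⟨i, by omega⟩ (by simp [Fin.ext_iff])).2
  have h4 := (ha ⟨i, by omega⟩ ⟨i + 1, hi⟩ (by simp [Fin.ext_iff])).1
  have h5 := (mul_eq_zero.1 h.symm).resolve_left h3
  exact (mul_eq_zero.1 h5).resolve_left (sub_ne_zero.2 h4)

theorem van (hXE : EX Set.univ X) (hYE : EX Set.univ Y) (hXR : ROT Set.univ X)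
    (hYR : ROT Set.univ Y) (π : Pat (2 * n)) : ∀ a, Good a → Z X Y a π = 0 := by
  classical
  -- a bound for `len`
  obtain ⟨M, hM⟩ : ∃ M, ∀ π : Pat (2 * n), len π ≤ M :=
    ⟨Finset.univ.sup len, fun π => Finset.le_sup (Finset.mem_univ π)⟩
  have key : ∀ k : ℕ, ∀ π : Pat (2 * n), M - len π = k → ∀ a, Good a → Z X Y a π = 0 := by
    intro k
    induction k using Nat.strong_induction_on with
    | _ k ih =>
      intro π hk
      rcases tri π with ⟨j, rfl⟩ | ⟨i, hne, hmin⟩
      · -- rotations of `chi`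
        clear hk
        induction j with
        | zero =>
          intro a _
          show Z X Y a (chi n) = 0
          unfold Z; ring
        | succ j ihj =>
          rw [Function.iterate_succ', Function.comp_apply]
          exact (van_rot hXE hYE hXR hYR _).2 ihj
      · by_cases hi : i.1 + 1 < 2 * n
        · refine step hXE hYE π i.1 hi hne (fun γ h1 h2 => ?_)
          have h3 := hmin γ h1 h2
          exact ih (M - len γ) (by have := hM γ; omega) γ rfl
        · -- rotate by one position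
          rw [← van_rot hXE hYE hXR hYR]
          have hn := NeZero.ne n
          have hi2 : 2 * n - 2 + 1 < 2 * n := by omega
          have hi3 : (i : ℤ) = ((2 * n - 2 : ℕ) : ℤ) + 1 := by
            have := i.2
            omega
          have hrot : ∀ γ : Pat (2 * n), e ((2 * n - 2 : ℕ) : ℤ) γ.rot = (e (i : ℤ) γ).rot := by
            intro γ
            rw [hi3, rot_e]
          refine step hXE hYE π.rot (2 * n - 2) hi2 ?_ (fun γ h1 h2 => ?_)
          · rw [hrot]
            intro h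
            apply hne
            rw [← rotInv_rot (e (i : ℤ) π), h, rotInv_rot]
          · have h3 : γ.rotInv.rot = γ := rot_rotInv γ
            have h4 : e (i : ℤ) γ.rotInv = e (i : ℤ) π := by
              rw [← rotInv_rot (e (i : ℤ) γ.rotInv), ← hrot, h3, h1, hrot, rotInv_rot]
            have h5 : γ.rotInv ≠ π := by
              intro h
              apply h2
              rw [← h, h3]
            have h6 := hmin _ h4 h5
            rw [len_rotInv] at h6
            exact ih (M - len γ) (by have := hM γ; omega) γ rfl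
  exact key _ π rfl

end Main

/-! ### polynomial functions -/

section Poly

open MvPolynomial

variable {L : ℕ}

/-- the polynomial that is nonzero exactly on good tuples -/
noncomputable def goodPoly (L : ℕ) : MvPolynomial (Fin L) ℂ :=
  ∏ i, ∏ j ∈ Finset.univ.filter (fun j => i ≠ j), ((X i - X j) * (1 - X j + X i * X j))

theorem goodPoly_ne (L : ℕ) : goodPoly L ≠ 0 := by
  classical
  unfold goodPoly
  rw [Finset.prod_ne_zero_iff]
  intro i _
  rw [Finset.prod_ne_zero_iff]
  intro j hj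
  rw [Finset.mem_filter] at hj
  refine mul_ne_zero ?_ ?_
  · intro h
    have := X_injective (R := ℂ) (σ := Fin L) (sub_eq_zero.1 h)
    exact hj.2 this
  · intro h
    have := congrArg (eval (0 : Fin L → ℂ)) h
    simp at this

theorem good_of_goodPoly {a : Fin L → ℂ} (h : eval a (goodPoly L) ≠ 0) : Good a := by
  classical
  intro i j hij
  unfold goodPoly at h
  rw [map_prod, Finset.prod_ne_zero_iff] at h
  have h1 := h i (Finset.mem_univ i)
  rw [map_prod, Finset.prod_ne_zero_iff] at h1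
  have h2 := h1 j (Finset.mem_filter.2 ⟨Finset.mem_univ j, hij⟩)
  rw [map_mul] at h2
  have h3 := left_ne_zero_of_mul h2
  have h4 := right_ne_zero_of_mul h2
  simp only [map_sub, map_add, map_mul, map_one, eval_X] at h3 h4
  exact ⟨fun hh => h3 (sub_eq_zero.2 hh), h4⟩

/-- a polynomial that vanishes at all good tuples is zero -/
theorem eq_zero_of_good (P : MvPolynomial (Fin L) ℂ) (h : ∀ a, Good a → eval a P = 0) : P = 0 := by
  have h1 : P * goodPoly L = 0 := by
    apply MvPolynomial.funext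
    intro a
    rw [map_mul, map_zero]
    by_cases ha : eval a (goodPoly L) = 0
    · rw [ha, mul_zero]
    · rw [h a (good_of_goodPoly ha), zero_mul]
  exact (mul_eq_zero.1 h1).resolve_right (goodPoly_ne L)

end Poly

end UniqAux

open UniqAux in
theorem uniq {n : ℕ} [NeZero n] (X Y : (Fin (2 * n) → ℂ) → Pat (2 * n) → ℂ)
    (hX : ∀ π, ∃ d, PF d (fun a => X a π)) (hY : ∀ π, ∃ d, PF d (fun a => Y a π))
    (hXE : EX Set.univ X) (hYE : EX Set.univ Y) (hXR : ROT Set.univ X) (hYR : ROT Set.univ Y)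
    (a : Fin (2 * n) → ℂ) (π : Pat (2 * n)) :
    X a π * Y a (chi n) = X a (chi n) * Y a π := by
  have h := van hXE hYE hXR hYR π
  obtain ⟨_, P1, -, h1⟩ := hX π
  obtain ⟨_, P2, -, h2⟩ := hX (chi n)
  obtain ⟨_, Q1, -, k1⟩ := hY π
  obtain ⟨_, Q2, -, k2⟩ := hY (chi n)
  have h3 : P1 * Q2 - P2 * Q1 = 0 := by
    apply eq_zero_of_good
    intro b hb
    have := h b hb
    unfold Z at this
    rw [map_sub, map_mul, map_mul, ← h1 b, ← h2 b, ← k1 b, ← k2 b]
    exact this
  have h4 := congrArg (MvPolynomial.eval a) h3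
  rw [map_sub, map_mul, map_mul, map_zero, ← h1 a, ← h2 a, ← k1 a, ← k2 a] at h4
  exact sub_eq_zero.1 h4

end Pool.Agent.H51.TA
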