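import Pool.Agent.H51.TA.Rel
import Pool.Agent.H51.TA.Uniq

set_option autoImplicit false

/-!
# The fused recursion (job R)
-/

namespace Pool.Agent.H51.TA

/-! ### polynomial functions -/

/-- polynomial function -/
def PolyF {L : ℕ} (f : (Fin L → ℂ) → ℂ) : Prop :=
  ∃ P : MvPolynomial (Fin L) ℂ, ∀ a, f a = MvPolynomial.eval a P

theorem PolyF.toPF {L : ℕ} {f : (Fin L → ℂ) → ℂ} (h : PolyF f) : ∃ d, PF d f := by
  obtain ⟨P, hP⟩ := h
  exact ⟨Finset.univ.sup (fun i => P.degreeOf i), P,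
    fun i => Finset.le_sup (f := fun i => P.degreeOf i) (Finset.mem_univ i), hP⟩

theorem PF.toPolyF {L d : ℕ} {f : (Fin L → ℂ) → ℂ} (h : PF d f) : PolyF f := by
  obtain ⟨P, -, hP⟩ := h
  exact ⟨P, hP⟩

theorem PolyF.cancel {L : ℕ} {f g : (Fin L → ℂ) → ℂ} (hf : PolyF f) (hg : PolyF g)
    (h : ∀ a, f a * g a = 0) (a0 : Fin L → ℂ) (h0 : f a0 ≠ 0) (a : Fin L → ℂ) : g a = 0 := by
  obtain ⟨P, hP⟩ := hf
  obtain ⟨Q, hQ⟩ := hg
  have hPQ : P * Q = 0 := by
    apply MvPolynomial.funext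
    intro a
    rw [map_mul, ← hP, ← hQ, h, map_zero]
  rcases mul_eq_zero.1 hPQ with h1 | h1
  · exact absurd (by rw [hP, h1, map_zero]) h0
  · rw [hQ, h1, map_zero]

theorem PolyF.comp {L M : ℕ} {f : (Fin M → ℂ) → ℂ} (hf : PolyF f)
    {g : (Fin L → ℂ) → (Fin M → ℂ)} (hg : ∀ j, PolyF (fun a => g a j)) :
    PolyF (fun a => f (g a)) := by
  obtain ⟨P, hP⟩ := hf
  choose Q hQ using hg
  refine ⟨MvPolynomial.bind₁ Q P, fun a => ?_⟩
  show f (g a) = _
  rw [hP]
  have : g a = fun j => MvPolynomial.eval a (Q j) := by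
    ext j; exact hQ j a
  rw [this]
  simp only [MvPolynomial.eval, MvPolynomial.eval₂Hom_bind₁]

theorem PolyF.const {L : ℕ} (c : ℂ) : PolyF (fun _ : Fin L → ℂ => c) :=
  ⟨MvPolynomial.C c, fun a => by simp⟩

theorem PolyF.proj {L : ℕ} (i : Fin L) : PolyF (fun a : Fin L → ℂ => a i) :=
  ⟨MvPolynomial.X i, fun a => by simp⟩

theorem PolyF.add {L : ℕ} {f g : (Fin L → ℂ) → ℂ} (hf : PolyF f) (hg : PolyF g) :
    PolyF (fun a => f a + g a) := by
  obtain ⟨P, hP⟩ := hf
  obtain ⟨Q, hQ⟩ := hg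
  exact ⟨P + Q, fun a => by simp [hP, hQ]⟩

theorem PolyF.sub {L : ℕ} {f g : (Fin L → ℂ) → ℂ} (hf : PolyF f) (hg : PolyF g) :
    PolyF (fun a => f a - g a) := by
  obtain ⟨P, hP⟩ := hf
  obtain ⟨Q, hQ⟩ := hg
  exact ⟨P - Q, fun a => by simp [hP, hQ]⟩

theorem PolyF.mul {L : ℕ} {f g : (Fin L → ℂ) → ℂ} (hf : PolyF f) (hg : PolyF g) :
    PolyF (fun a => f a * g a) := by
  obtain ⟨P, hP⟩ := hf
  obtain ⟨Q, hQ⟩ := hg
  exact ⟨P * Q, fun a => by simp [hP, hQ]⟩

theorem PolyF.prod {L : ℕ} {ι : Type*} (s : Finset ι) {f : ι → (Fin L → ℂ) → ℂ}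
    (hf : ∀ i, PolyF (f i)) : PolyF (fun a => ∏ i ∈ s, f i a) := by
  choose P hP using hf
  exact ⟨∏ i ∈ s, P i, fun a => by simp [hP]⟩

theorem PolyF.D {L : ℕ} {f g : (Fin L → ℂ) → ℂ} (hf : PolyF f) (hg : PolyF g) :
    PolyF (fun a => D (f a) (g a)) := by
  unfold TA.D
  exact ((PolyF.const 1).sub hg).add (hf.mul hg)

theorem PolyF.Delta {L : ℕ} : PolyF (fun a : Fin L → ℂ => Delta a) := by
  unfold TA.Delta
  exact PolyF.prod _ fun i => PolyF.prod _ fun j => (PolyF.proj i).D (PolyF.proj j)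

theorem PolyF.continuous {L : ℕ} {f : (Fin L → ℂ) → ℂ} (hf : PolyF f) : Continuous f := by
  obtain ⟨P, hP⟩ := hf
  have : f = fun a => MvPolynomial.eval a P := funext hP
  rw [this]
  exact MvPolynomial.continuous_eval P

/-! ### tuples -/

theorem cons2_zero {n : ℕ} (x y : ℂ) (b : Fin (2 * n) → ℂ) (h : 0 < 2 * (n + 1)) :
    cons2 x y b ⟨0, h⟩ = x := rfl

theorem cons2_one {n : ℕ} (x y : ℂ) (b : Fin (2 * n) → ℂ) (h : 1 < 2 * (n + 1)) :
    cons2 x y b ⟨1, h⟩ = y := rfl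

theorem cons2_add {n : ℕ} (x y : ℂ) (b : Fin (2 * n) → ℂ) (k : ℕ) (h : k + 2 < 2 * (n + 1)) :
    cons2 x y b ⟨k + 2, h⟩ = b ⟨k, by omega⟩ := rfl

theorem cons2_swap01 {n : ℕ} (x y : ℂ) (b : Fin (2 * n) → ℂ) :
    cons2 x y b ∘ Equiv.swap ⟨0, by omega⟩ ⟨0 + 1, by omega⟩ = cons2 y x b := by
  funext j
  obtain ⟨j, hj⟩ := j
  rcases j with _ | _ | k
  · rw [Function.comp, Equiv.swap_apply_left]; rfl
  · rw [Function.comp, Equiv.swap_apply_right]; rfl
  · rw [Function.comp, Equiv.swap_apply_of_ne_of_ne, cons2_add, cons2_add]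
    · simp only [ne_eq, Fin.mk.injEq]; omega
    · simp only [ne_eq, Fin.mk.injEq]; omega

theorem cons2_swap_add {n : ℕ} (x y : ℂ) (b : Fin (2 * n) → ℂ) (i : ℕ) (hi : i + 1 < 2 * n) :
    cons2 x y b ∘ Equiv.swap ⟨i + 2, by omega⟩ ⟨i + 2 + 1, by omega⟩ =
      cons2 x y (b ∘ Equiv.swap ⟨i, by omega⟩ ⟨i + 1, hi⟩) := by
  funext j
  obtain ⟨j, hj⟩ := j
  rcases j with _ | _ | k
  · rw [Function.comp, Equiv.swap_apply_of_ne_of_ne, cons2_zero, cons2_zero]
    · simp [Fin.ext_iff]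
    · simp [Fin.ext_iff]
  · rw [Function.comp, Equiv.swap_apply_of_ne_of_ne]
    · simp only [zero_add, cons2_one]
    · simp [Fin.ext_iff]
    · simp [Fin.ext_iff]
  · by_cases h1 : k = i
    · subst h1
      simp only [Function.comp, Equiv.swap_apply_left, cons2_add]
    · by_cases h2 : k = i + 1
      · subst h2
        have e1 : (⟨i + 1 + 1 + 1, hj⟩ : Fin (2 * (n + 1))) = ⟨i + 2 + 1, by omega⟩ := by
          simp [Fin.ext_iff]
        rw [Function.comp, e1, Equiv.swap_apply_right, cons2_add]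
        have e2 : cons2 x y (b ∘ Equiv.swap ⟨i, by omega⟩ ⟨i + 1, hi⟩) ⟨i + 2 + 1, by omega⟩ =
          (b ∘ Equiv.swap ⟨i, by omega⟩ ⟨i + 1, hi⟩) ⟨i + 1, hi⟩ :=
          cons2_add x y _ (i + 1) (by omega)
        rw [e2, Function.comp, Equiv.swap_apply_right]
      · rw [Function.comp, Equiv.swap_apply_of_ne_of_ne, cons2_add, cons2_add, Function.comp,
          Equiv.swap_apply_of_ne_of_ne]
        · simpa [Fin.ext_iff] using h1
        · simpa [Fin.ext_iff] using h2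
        · simpa [Fin.ext_iff] using h1
        · simp only [ne_eq, Fin.mk.injEq]; omega

theorem cons2_swap12 {n : ℕ} (hn : 0 < n) (x y : ℂ) (b : Fin (2 * n) → ℂ) :
    cons2 x y b ∘ Equiv.swap ⟨1, by omega⟩ ⟨1 + 1, by omega⟩ =
      cons2 x (b ⟨0, by omega⟩) (Function.update b ⟨0, by omega⟩ y) := by
  funext j
  obtain ⟨j, hj⟩ := j
  rcases j with _ | _ | _ | k
  · rw [Function.comp, Equiv.swap_apply_of_ne_of_ne, cons2_zero, cons2_zero]
    · simp [Fin.ext_iff]
    · simp [Fin.ext_iff]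
  · simp only [Function.comp, zero_add, Equiv.swap_apply_left, cons2_one]
    exact cons2_add x y b 0 (by omega)
  · have e1 : (⟨0 + 1 + 1, hj⟩ : Fin (2 * (n + 1))) = ⟨1 + 1, by omega⟩ := by
      simp
    have e2 : cons2 x (b ⟨0, by omega⟩) (Function.update b ⟨0, by omega⟩ y) ⟨1 + 1, by omega⟩ =
        (Function.update b ⟨0, by omega⟩ y) ⟨0, by omega⟩ := cons2_add _ _ _ 0 (by omega)
    rw [Function.comp, e1, Equiv.swap_apply_right, cons2_one, e2, Function.update_self]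
  · rw [Function.comp, Equiv.swap_apply_of_ne_of_ne, cons2_add, cons2_add,
      Function.update_of_ne]
    · simp only [ne_eq, Fin.mk.injEq]; omega
    · simp only [ne_eq, Fin.mk.injEq]; omega
    · simp only [ne_eq, Fin.mk.injEq]; omega

theorem finRotate_mk {L : ℕ} (k : ℕ) (hk : k + 1 < L) :
    finRotate L ⟨k, by omega⟩ = ⟨k + 1, hk⟩ := by
  obtain ⟨m, rfl⟩ : ∃ m, L = m + 1 := ⟨L - 1, by omega⟩
  exact finRotate_of_lt (by omega)

theorem finRotate_mk_last {L : ℕ} (k : ℕ) (hk : k + 1 = L) :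
    finRotate L ⟨k, by omega⟩ = ⟨0, by omega⟩ := by
  subst hk
  exact finRotate_last'

theorem cons2_rot {n : ℕ} (hn : 0 < n) (x y : ℂ) (b : Fin (2 * n) → ℂ) :
    cons2 (b ⟨0, by omega⟩) x (Function.update b ⟨0, by omega⟩ y) ∘ finRotate _ =
      cons2 x y (b ∘ finRotate _) := by
  funext j
  obtain ⟨j, hj⟩ := j
  rcases j with _ | _ | k
  · rw [Function.comp, finRotate_mk 0 (by omega)]
    simp only [zero_add, cons2_one, cons2_zero]
  · rw [Function.comp, finRotate_mk (0 + 1) (by omega)]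
    have e2 : cons2 (b ⟨0, by omega⟩) x (Function.update b ⟨0, by omega⟩ y)
        ⟨0 + 1 + 1, by omega⟩ =
        (Function.update b ⟨0, by omega⟩ y) ⟨0, by omega⟩ := cons2_add _ _ _ 0 (by omega)
    rw [e2, Function.update_self]
    simp only [zero_add, cons2_one]
  · by_cases h : k + 1 < 2 * n
    · have e2 : cons2 (b ⟨0, by omega⟩) x (Function.update b ⟨0, by omega⟩ y)
        ⟨k + 1 + 1 + 1, by omega⟩ =
        (Function.update b ⟨0, by omega⟩ y) ⟨k + 1, by omega⟩ := cons2_add _ _ _ (k + 1) (by omega)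
      rw [Function.comp, finRotate_mk (k + 1 + 1) (by omega), e2, cons2_add, Function.comp,
        finRotate_mk k h, Function.update_of_ne]
      simp [Fin.ext_iff]
    · have hk : k + 1 = 2 * n := by omega
      rw [Function.comp, finRotate_mk_last (k + 1 + 1) (by omega), cons2_zero, cons2_add,
        Function.comp, finRotate_mk_last k hk]

/-! ### vanishing outside the image of `ins` -/

section Main

variable {n : ℕ} [NeZero n]

theorem insN_inj {α β : Pat (2 * n)} (h : insN α = insN β) : α = β := ins_inj h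

theorem exists_insN (π : Pat (2 * (n + 1))) : ∃ α : Pat (2 * n), e 0 π = insN α :=
  exists_ins (L := 2 * n) (by have := NeZero.pos n; omega) π

theorem e_zero_insN (α : Pat (2 * n)) : e 0 (insN α) = insN α := e_zero_ins α

theorem e_insN (α : Pat (2 * n)) (i : ℕ) (hi : i + 1 < 2 * n) :
    e ((i : ℤ) + 2) (insN α) = insN (e i α) := e_ins α i hi

theorem e_one_insN (α : Pat (2 * n)) : e 1 (insN α) = (insN α.rot).rotInv :=
  e_one_ins (by have := NeZero.pos n; omega) α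

theorem e_zero_one_insN (α : Pat (2 * n)) : e 0 (e 1 (insN α)) = insN α :=
  e_zero_one_ins (by have := NeZero.pos n; omega) α

variable {Φ' : (Fin (2 * (n + 1)) → ℂ) → Pat (2 * (n + 1)) → ℂ}

theorem van_of_ne (hΦ' : IsSol Φ') {x y : ℂ} (hxy : D x y = 0) (hne : x ≠ y)
    (b : Fin (2 * n) → ℂ) (π : Pat (2 * (n + 1))) (hπ : ∀ α : Pat (2 * n), π ≠ insN α) :
    Φ' (cons2 x y b) π = 0 := by
  have h := hΦ'.ex (cons2 x y b) (fun _ => Set.mem_univ _) 0 (by omega) π
  have h0 : (Finset.univ.filter fun π' : Pat (2 * (n + 1)) => e ((0 : ℕ) : ℤ) π' = π) = ∅ := by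
    rw [Finset.filter_eq_empty_iff]
    intro π' _ h'
    obtain ⟨α, hα⟩ := exists_insN π'
    exact hπ α (by rw [← hα, ← h']; rfl)
  rw [h0] at h
  simp only [zero_add, cons2_zero, cons2_one, hxy, zero_mul, Finset.sum_empty, mul_zero,
    add_zero] at h
  have h1 : D y x = y - x := by
    have : D y x = D x y + (y - x) := by unfold D; ring
    rw [this, hxy, zero_add]
  rw [h1] at h
  rcases mul_eq_zero.1 h.symm with h2 | h2
  · exact absurd (sub_eq_zero.1 h2).symm hne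
  · exact h2

omit [NeZero n] in
theorem cons2_continuousAt {f g : ℂ → ℂ} {s : ℂ} (hf : ContinuousAt f s) (hg : ContinuousAt g s)
    (b : Fin (2 * n) → ℂ) : ContinuousAt (fun s => cons2 (f s) (g s) b) s := by
  rw [continuousAt_pi]
  rintro ⟨j, hj⟩
  rcases j with _ | _ | k
  · exact hf
  · exact hg
  · exact continuousAt_const

theorem van (hΦ' : IsSol Φ') {x y : ℂ} (hxy : D x y = 0)
    (b : Fin (2 * n) → ℂ) (π : Pat (2 * (n + 1))) (hπ : ∀ α : Pat (2 * n), π ≠ insN α) :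
    Φ' (cons2 x y b) π = 0 := by
  by_cases hne : x = y
  swap
  · exact van_of_ne hΦ' hxy hne b π hπ
  subst hne
  have hx : 1 - x + x * x = 0 := hxy
  have hx1 : 1 - x ≠ 0 := by
    intro h
    have : x = 1 := by linear_combination -h
    rw [this] at hx; norm_num at hx
  have hx2 : 1 - 2 * x ≠ 0 := by
    intro h
    have : (1 - 2 * x) ^ 2 = -3 := by linear_combination 4 * hx
    rw [h] at this; norm_num at this
  have hxi : x = (1 - x)⁻¹ := by
    rw [← mul_eq_one_iff_eq_inv₀ hx1]; linear_combination -hx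
  let f : ℂ → ℂ := fun s => Φ' (cons2 (x + s) (1 - (x + s))⁻¹ b) π
  have hf : ContinuousAt f 0 := by
    have h1 : ContinuousAt (fun s : ℂ => cons2 (x + s) (1 - (x + s))⁻¹ b) 0 := by
      apply cons2_continuousAt
      · fun_prop
      · apply ContinuousAt.inv₀
        · fun_prop
        · simpa using hx1
    exact (PF.toPolyF (hΦ'.poly π)).continuous.continuousAt.comp h1
  have h0 : f 0 = Φ' (cons2 x x b) π := by
    show Φ' (cons2 (x + 0) (1 - (x + 0))⁻¹ b) π = _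
    rw [add_zero, ← hxi]
  rw [← h0]
  have h1 : Filter.Tendsto f (nhdsWithin 0 {0}ᶜ) (nhds (f 0)) := hf.tendsto.mono_left nhdsWithin_le_nhds
  have h2 : Filter.Tendsto f (nhdsWithin 0 {0}ᶜ) (nhds 0) := by
    apply tendsto_const_nhds.congr'
    have e1 : ∀ᶠ s : ℂ in nhdsWithin 0 {0}ᶜ, s ≠ 1 - 2 * x :=
      nhdsWithin_le_nhds (isOpen_ne.mem_nhds (Ne.symm hx2))
    have e2 : ∀ᶠ s : ℂ in nhdsWithin 0 {0}ᶜ, s ≠ 1 - x :=
      nhdsWithin_le_nhds (isOpen_ne.mem_nhds (Ne.symm hx1))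
    filter_upwards [e1, e2, self_mem_nhdsWithin] with s h1 h2 h3
    have h3' : s ≠ 0 := h3
    have h4 : 1 - (x + s) ≠ 0 := by
      intro h; apply h2; linear_combination -h
    symm
    apply van_of_ne hΦ' _ _ b π hπ
    · unfold D
      field_simp
      ring
    · intro h
      rw [← mul_eq_one_iff_eq_inv₀ h4] at h
      have : s * (1 - 2 * x - s) = 0 := by linear_combination h + hx
      rcases mul_eq_zero.1 this with h5 | h5
      · exact h3' h5
      · exact h1 (by linear_combination -h5)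
  exact tendsto_nhds_unique h1 h2

theorem sum_insN (hΦ' : IsSol Φ') {x y : ℂ} (hxy : D x y = 0) (b : Fin (2 * n) → ℂ)
    (p : Pat (2 * (n + 1)) → Prop) [DecidablePred p] :
    ∑ π with p π, Φ' (cons2 x y b) π =
      ∑ β : Pat (2 * n) with p (insN β), Φ' (cons2 x y b) (insN β) := by
  symm
  apply Finset.sum_of_injOn insN
  · intro α _ β _ h
    exact insN_inj h
  · intro α hα
    simpa using hα
  · intro π hπ h
    apply van hΦ' hxy
    rintro α rfl
    apply h
    refine ⟨α, ?_, rfl⟩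
    simpa using hπ
  · intro α _
    rfl

/-- the family `Y` of the proof satisfies the exchange relation -/
theorem ex_Y (hΦ' : IsSol Φ') {x y : ℂ} (hxy : D x y = 0) :
    EX Set.univ (fun (b : Fin (2 * n) → ℂ) α => Φ' (cons2 x y b) (insN α)) := by
  intro b _ i hi α
  have h := hΦ'.ex (cons2 x y b) (fun _ => Set.mem_univ _) (i + 2) (by omega) (insN α)
  rw [cons2_swap_add x y b i hi, sum_insN hΦ' hxy] at h
  have e1 : cons2 x y b ⟨i + 2, by omega⟩ = b ⟨i, by omega⟩ := rfl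
  have e2 : cons2 x y b ⟨i + 2 + 1, by omega⟩ = b ⟨i + 1, by omega⟩ := rfl
  rw [e1, e2] at h
  have e3 : (Finset.univ.filter fun β : Pat (2 * n) =>
      e (((i + 2 : ℕ) : ℤ)) (insN β) = insN α) =
      Finset.univ.filter fun β : Pat (2 * n) => e (i : ℤ) β = α := by
    apply Finset.filter_congr
    intro β _
    have : (((i + 2 : ℕ) : ℤ)) = (i : ℤ) + 2 := by push_cast; ring
    rw [this, e_insN β i hi]
    exact ⟨fun h => insN_inj h, fun h => by rw [h]⟩
  rw [e3] at h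
  exact h

theorem insN_ne (hn : 0 < n) (α β : Pat (2 * n)) : e 1 (insN α) ≠ insN β := by
  intro h
  have h1 : (e 1 (insN α)).t 1 = 2 := by
    rw [e_t (by omega)]
    simp [eFun]
  have h2 : (insN β).t 1 = 0 := by
    show insFun (2 * n) β.t 1 = 0
    have h3 : (1 : ℤ) % (((2 * n : ℕ) : ℤ) + 2) = 1 := Int.emod_eq_of_lt (by norm_num) (by omega)
    unfold insFun
    rw [if_neg (by rw [h3]; norm_num), if_pos (by norm_num)]
    norm_num
  rw [h, h2] at h1
  exact absurd h1 (by norm_num)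

theorem rot_Y (hΦ' : IsSol Φ') {x y : ℂ} (hxy : D x y = 0) :
    ROT Set.univ (fun (b : Fin (2 * n) → ℂ) α => Φ' (cons2 x y b) (insN α)) := by
  have hn : 0 < n := NeZero.pos n
  have hy : y * (1 - x) = 1 := by
    have : 1 - y + x * y = 0 := hxy
    linear_combination -this
  have key : ∀ (b : Fin (2 * n) → ℂ) (α : Pat (2 * n)),
      (D x (b ⟨0, by omega⟩) * D y (b ⟨0, by omega⟩)) *
        (Φ' (cons2 x y (b ∘ finRotate _)) (insN α.rot) - Φ' (cons2 x y b) (insN α)) = 0 := by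
    intro b α
    have h1 := hΦ'.ex (cons2 x y b) (fun _ => Set.mem_univ _) 1 (by omega)
    have h0 := hΦ'.ex (cons2 x (b ⟨0, by omega⟩) (Function.update b ⟨0, by omega⟩ y))
      (fun _ => Set.mem_univ _) 0 (by omega) (e 1 (insN α))
    have hr := hΦ'.rot (cons2 (b ⟨0, by omega⟩) x (Function.update b ⟨0, by omega⟩ y))
      (fun _ => Set.mem_univ _) (e 1 (insN α))
    rw [cons2_rot hn, e_one_insN, rot_rotInv, ← e_one_insN] at hr
    have hs0 : (Finset.univ.filter fun π' : Pat (2 * (n + 1)) =>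
        e ((0 : ℕ) : ℤ) π' = e 1 (insN α)) = ∅ := by
      rw [Finset.filter_eq_empty_iff]
      intro π' _ h'
      obtain ⟨β, hβ⟩ := exists_insN π'
      exact insN_ne hn α β (by rw [← h', ← hβ]; rfl)
    rw [cons2_swap01, hs0, Finset.sum_empty, mul_zero, add_zero] at h0
    have h1 := h1 (e 1 (insN α))
    have hs1 : (Finset.univ.filter fun β : Pat (2 * n) =>
        e ((1 : ℕ) : ℤ) (insN β) = e 1 (insN α)) = {α} := by
      ext β
      simp only [Finset.mem_filter, Finset.mem_univ, true_and, Finset.mem_singleton]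
      constructor
      · intro h
        have h' : e 0 (e 1 (insN β)) = e 0 (e 1 (insN α)) := congrArg (e 0) h
        rw [e_zero_one_insN, e_zero_one_insN] at h'
        exact insN_inj h'
      · rintro rfl; rfl
    rw [sum_insN hΦ' hxy, cons2_swap12 hn, hs1, Finset.sum_singleton,
      van hΦ' hxy b (e 1 (insN α)) (fun β => insN_ne hn α β), mul_zero, zero_add] at h1
    have e1 : cons2 x y b ⟨1, by omega⟩ = y := rfl
    have e2 : cons2 x y b ⟨1 + 1, by omega⟩ = b ⟨0, by omega⟩ := rfl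
    have e3 : cons2 x (b ⟨0, by omega⟩) (Function.update b ⟨0, by omega⟩ y) ⟨0, by omega⟩ = x := rfl
    have e4 : cons2 x (b ⟨0, by omega⟩) (Function.update b ⟨0, by omega⟩ y) ⟨0 + 1, by omega⟩ =
      b ⟨0, by omega⟩ := rfl
    rw [e1, e2] at h1
    rw [e3, e4] at h0
    rw [hr]
    have h2 : D (b ⟨0, by omega⟩) x * (y - b ⟨0, by omega⟩) =
        D x (b ⟨0, by omega⟩) * D y (b ⟨0, by omega⟩) := by
      unfold D
      linear_combination (1 - b ⟨0, by omega⟩ + b ⟨0, by omega⟩ ^ 2) * hy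
    linear_combination D y (b ⟨0, by omega⟩) * h0 + D (b ⟨0, by omega⟩) x * h1 +
      Φ' (cons2 x y b) (insN α) * h2
  intro b _ α
  have hpoly : ∀ (π : Pat (2 * (n + 1))) (g : (Fin (2 * n) → ℂ) → (Fin (2 * n) → ℂ)),
      (∀ j, PolyF (fun b => g b j)) → PolyF (fun b => Φ' (cons2 x y (g b)) π) := by
    intro π g hg
    apply PolyF.comp (PF.toPolyF (hΦ'.poly π))
    rintro ⟨j, hj⟩
    rcases j with _ | _ | k
    · exact PolyF.const x
    · exact PolyF.const y
    · exact hg _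
  have := PolyF.cancel (f := fun b => D x (b ⟨0, by omega⟩) * D y (b ⟨0, by omega⟩))
    (g := fun b => Φ' (cons2 x y (b ∘ finRotate _)) (insN α.rot) - Φ' (cons2 x y b) (insN α))
    (((PolyF.const x).D (PolyF.proj _)).mul ((PolyF.const y).D (PolyF.proj _)))
    ((hpoly _ _ fun j => PolyF.proj _).sub (hpoly _ _ fun j => PolyF.proj _))
    (fun b => key b α) 0 (by simp [D]) b
  exact sub_eq_zero.1 this

/-- `Delta` of the rotated tuple -/
theorem Delta_cons {L : ℕ} (y : ℂ) (c : Fin L → ℂ) :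
    Delta (Fin.cons y c : Fin (L + 1) → ℂ) = (∏ j, D y (c j)) * Delta c := by
  unfold Delta
  rw [Fin.prod_univ_succ]
  congr 1
  · rw [Fin.prod_Ioi_zero]
    simp
  · apply Finset.prod_congr rfl
    intro i _
    rw [Fin.prod_Ioi_succ]
    simp

theorem Delta_eq_prod {L : ℕ} (c : Fin L → ℂ) :
    Delta c = ∏ i, ∏ j, if i < j then D (c i) (c j) else 1 := by
  unfold Delta
  apply Finset.prod_congr rfl
  intro i _
  rw [← Finset.prod_filter]
  apply Finset.prod_congr _ fun _ _ => rfl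
  ext j; simp

theorem Delta_snoc {L : ℕ} (x : ℂ) (c : Fin L → ℂ) :
    Delta (Fin.snoc c x : Fin (L + 1) → ℂ) = (∏ j, D (c j) x) * Delta c := by
  rw [Delta_eq_prod, Delta_eq_prod, Fin.prod_univ_castSucc, mul_comm, ← Finset.prod_mul_distrib]
  have h1 : (∏ j : Fin (L + 1), if Fin.last L < j then
      D ((Fin.snoc c x : Fin (L + 1) → ℂ) (Fin.last L)) ((Fin.snoc c x : Fin (L + 1) → ℂ) j)
        else 1) = 1 := by
    apply Finset.prod_eq_one
    intro j _
    rw [if_neg (not_lt.2 (Fin.le_last j))]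
  rw [h1, one_mul]
  apply Finset.prod_congr rfl
  intro i _
  rw [Fin.prod_univ_castSucc, mul_comm]
  simp

theorem cons2_rotate {n : ℕ} (hn : 0 < n) (x y : ℂ) (b : Fin (2 * n) → ℂ) :
    cons2 x y b ∘ finRotate _ = (Fin.cons y (Fin.snoc b x : Fin (2 * n + 1) → ℂ) :
      Fin (2 * n + 2) → ℂ) := by
  funext j
  obtain ⟨j, hj⟩ := j
  rcases j with _ | k
  · rw [Function.comp, finRotate_mk 0 (by omega)]
    rfl
  · by_cases h : k < 2 * n
    · have e1 : (Fin.cons y (Fin.snoc b x : Fin (2 * n + 1) → ℂ) : Fin (2 * n + 2) → ℂ)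
        ⟨k + 1, hj⟩ = (Fin.snoc b x : Fin (2 * n + 1) → ℂ) (Fin.castSucc ⟨k, h⟩) := rfl
      rw [Function.comp, finRotate_mk (k + 1) (by omega), e1, Fin.snoc_castSucc]
      exact cons2_add x y b k (by omega)
    · have hk : k = 2 * n := by omega
      subst hk
      have e1 : (Fin.cons y (Fin.snoc b x : Fin (2 * n + 1) → ℂ) : Fin (2 * n + 2) → ℂ)
        ⟨2 * n + 1, hj⟩ = (Fin.snoc b x : Fin (2 * n + 1) → ℂ) (Fin.last (2 * n)) := rfl
      rw [Function.comp, finRotate_mk_last (2 * n + 1) (by omega), e1, Fin.snoc_last,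
        cons2_zero]

theorem Delta_cons2 {n : ℕ} (hn : 0 < n) (x y : ℂ) (b : Fin (2 * n) → ℂ) :
    Delta (cons2 x y b ∘ finRotate (2 * (n + 1))) = kap x y b * Delta b := by
  rw [cons2_rotate hn]
  have h := Delta_cons y (Fin.snoc b x : Fin (2 * n + 1) → ℂ)
  rw [Delta_snoc, Fin.prod_univ_castSucc] at h
  simp only [Fin.snoc_castSucc, Fin.snoc_last] at h
  refine h.trans ?_
  unfold kap
  rw [Finset.prod_mul_distrib]
  ring

/-- **Fused recursion** -/
theorem fused {n : ℕ} [NeZero n] (Φ : (Fin (2 * n) → ℂ) → Pat (2 * n) → ℂ) (hΦ : IsSol Φ)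
    (Φ' : (Fin (2 * (n + 1)) → ℂ) → Pat (2 * (n + 1)) → ℂ) (hΦ' : IsSol Φ')
    (x y : ℂ) (hxy : D x y = 0) (b : Fin (2 * n) → ℂ) :
    (∀ α : Pat (2 * n), Φ' (cons2 x y b) (insN α) = kap x y b * Φ b α) ∧
    (∀ π : Pat (2 * (n + 1)), (∀ α : Pat (2 * n), π ≠ insN α) → Φ' (cons2 x y b) π = 0) := by
  have hn : 0 < n := NeZero.pos n
  refine ⟨fun α => ?_, fun π hπ => van hΦ' hxy b π hπ⟩
  have hpoly : ∀ (π : Pat (2 * (n + 1))), PolyF (fun b : Fin (2 * n) → ℂ => Φ' (cons2 x y b) π) := by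
    intro π
    apply PolyF.comp (PF.toPolyF (hΦ'.poly π))
    rintro ⟨j, hj⟩
    rcases j with _ | _ | k
    · exact PolyF.const x
    · exact PolyF.const y
    · exact PolyF.proj _
  have hkap : PolyF (fun b : Fin (2 * n) → ℂ => kap x y b) := by
    unfold kap
    exact (PolyF.const _).mul (PolyF.prod _ fun j =>
      ((PolyF.const y).D (PolyF.proj j)).mul ((PolyF.proj j).D (PolyF.const x)))
  have hchi : ∀ b : Fin (2 * n) → ℂ, Φ' (cons2 x y b) (insN (chi n)) = kap x y b * Delta b := by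
    intro b
    have h := hΦ'.rot (cons2 x y b) (fun _ => Set.mem_univ _) (insN (chi n))
    rw [← h, ins_chi, rot_rotInv, hΦ'.chi, Delta_cons2 hn]
  have hu : ∀ b : Fin (2 * n) → ℂ,
      Delta b * (Φ' (cons2 x y b) (insN α) - kap x y b * Φ b α) = 0 := by
    intro b
    have h := uniq Φ (fun (b : Fin (2 * n) → ℂ) α => Φ' (cons2 x y b) (insN α))
      (fun π => ⟨_, hΦ.poly π⟩) (fun π => (hpoly (insN π)).toPF) hΦ.ex (ex_Y hΦ' hxy) hΦ.rot
      (rot_Y hΦ' hxy) b α
    simp only [hchi, hΦ.chi] at h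
    linear_combination -h
  have := PolyF.cancel (f := fun b => Delta b)
    (g := fun b => Φ' (cons2 x y b) (insN α) - kap x y b * Φ b α)
    PolyF.Delta ((hpoly _).sub (hkap.mul (PF.toPolyF (hΦ.poly α)))) hu 0
    (by simp [Delta, D]) b
  exact sub_eq_zero.1 this

end Main

end Pool.Agent.H51.TA
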