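import Pool.Agent.H51.TA.FormBase
import Pool.Agent.H51.TA.Form
import Pool.Agent.H51.TA.Fused

set_option autoImplicit false

/-!
# MP_fe58d8_pr, ALG part, JOB N, part 2: `Num_symm`, `Num_gap`, `Num_poly`, `Num_rec`, `Num_one`
-/

namespace Pool.Agent.H51.TA

open FB

open Finset

section Form

variable {L : ℕ} [NeZero L]

theorem form_adj (hL : 2 ≤ L) (τ : ℂ) (i c : ℤ) (h : ¬ (i + 1 - c) % L = 0) (v w : Pat L → ℂ) :
    form τ c (eV i v) w = form τ c v (eV i w) := by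
  rw [form_eq, sum_eV i v (fun α => ∑ π', w π' * τ ^ mc α.t π'.t c), form_eq]
  refine Finset.sum_congr rfl fun π _ => ?_
  rw [sum_eV i w (fun α => τ ^ mc π.t α.t c)]
  congr 1
  exact Finset.sum_congr rfl fun π' _ => by rw [mc_e hL π π' i c h]

theorem form_eV_eV (hL : 2 ≤ L) (τ : ℂ) (i c : ℤ) (h : ¬ (i + 1 - c) % L = 0)
    (v w : Pat L → ℂ) : form τ c (eV i v) (eV i w) = form τ c v (eV i w) := by
  rw [form_adj hL τ i c h, eV_eV]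

/-- the exchange step: `Num` is invariant up to the factor `D D` -/
theorem Num_exchange (τ : ℂ) {Φ : (Fin L → ℂ) → Pat L → ℂ} (hΦ : EX Set.univ Φ) (c : ℤ)
    (a : Fin L → ℂ) (i : ℕ) (hi : i + 1 < L) (hc : ¬ ((i : ℤ) + 1 - c) % L = 0) :
    (D (a ⟨i, by omega⟩) (a ⟨i + 1, hi⟩) * D (a ⟨i + 1, hi⟩) (a ⟨i, by omega⟩)) *
      (Num τ c Φ (a ∘ Equiv.swap ⟨i, by omega⟩ ⟨i + 1, hi⟩) - Num τ c Φ a) = 0 := by
  have h1 := ex_apply hΦ a i hi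
  have h2 := ex_apply hΦ (fun i => 1 - a i) i hi
  simp only [D_refl] at h2
  have h3 : form τ c
      (fun α => D (a ⟨i, by omega⟩) (a ⟨i + 1, hi⟩) *
        Φ (a ∘ Equiv.swap ⟨i, by omega⟩ ⟨i + 1, hi⟩) α)
      (fun α => D (a ⟨i + 1, hi⟩) (a ⟨i, by omega⟩) *
        Φ ((fun i => 1 - a i) ∘ Equiv.swap ⟨i, by omega⟩ ⟨i + 1, hi⟩) α) =
      form τ c (fun α => D (a ⟨i + 1, hi⟩) (a ⟨i, by omega⟩) * Φ a α +
        (a ⟨i, by omega⟩ - a ⟨i + 1, hi⟩) * eV (i : ℤ) (Φ a) α)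
       (fun α => D (a ⟨i, by omega⟩) (a ⟨i + 1, hi⟩) * Φ (fun i => 1 - a i) α +
        (1 - a ⟨i, by omega⟩ - (1 - a ⟨i + 1, hi⟩)) * eV (i : ℤ) (Φ (fun i => 1 - a i)) α) := by
    rw [h1, h2]
  rw [form_smul_left, form_smul_right, form_add_left, form_add_right, form_add_right,
    form_eV_eV (by omega) τ i c hc, form_adj (by omega) τ i c hc] at h3
  have h4 : Num τ c Φ (a ∘ Equiv.swap ⟨i, by omega⟩ ⟨i + 1, hi⟩) = form τ c
      (Φ (a ∘ Equiv.swap ⟨i, by omega⟩ ⟨i + 1, hi⟩))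
      (Φ ((fun i => 1 - a i) ∘ Equiv.swap ⟨i, by omega⟩ ⟨i + 1, hi⟩)) := rfl
  rw [← h4] at h3
  have h5 : Num τ c Φ a = form τ c (Φ a) (Φ (fun i => 1 - a i)) := rfl
  rw [h5]
  have h6 : D (a ⟨i, by omega⟩) (a ⟨i + 1, hi⟩) - D (a ⟨i + 1, hi⟩) (a ⟨i, by omega⟩) =
      a ⟨i, by omega⟩ - a ⟨i + 1, hi⟩ := by unfold D; ring
  generalize D (a ⟨i, by omega⟩) (a ⟨i + 1, hi⟩) = p at h3 h6 ⊢
  generalize D (a ⟨i + 1, hi⟩) (a ⟨i, by omega⟩) = q at h3 h6 ⊢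
  generalize a ⟨i, by omega⟩ = x at h3 h6 ⊢
  generalize a ⟨i + 1, hi⟩ = y at h3 h6 ⊢
  have h7 : x = y + (p - q) := by rw [h6]; ring
  subst h7
  linear_combination h3

end Form

theorem Num_poly {n : ℕ} [NeZero n] (τ : ℂ) {Φ : (Fin (2 * n) → ℂ) → Pat (2 * n) → ℂ}
    (hΦ : IsSol Φ) : PF (4 * n - 2) (Num τ 0 Φ) :=
  pf_mono (Num_PF τ hΦ.poly 0) (by omega)

theorem Num_symm_aux {L : ℕ} [NeZero L] (τ : ℂ) {Φ : (Fin L → ℂ) → Pat L → ℂ}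
    (hΦ : EX Set.univ Φ) {d : ℕ} (hP : ∀ π, PF d (fun a => Φ a π)) (s : Equiv.Perm (Fin L))
    (a : Fin L → ℂ) : Num τ 0 Φ (a ∘ s) = Num τ 0 Φ a := by
  refine perm_invariant (Num τ 0 Φ) ?_ s a
  intro a i hi
  have hc : ¬ ((i : ℤ) + 1 - 0) % L = 0 := by
    rw [sub_zero, Int.emod_eq_of_lt (by omega) (by omega)]; omega
  have h1 := fun a => Num_exchange τ hΦ 0 a i hi hc
  have hPN := Num_PF τ hP 0
  have hd : PF (d + d) (fun a => Num τ 0 Φ (a ∘ Equiv.swap ⟨i, by omega⟩ ⟨i + 1, hi⟩) -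
      Num τ 0 Φ a) := by
    obtain ⟨P, h1, h2⟩ := pf_comp_perm hPN (Equiv.swap ⟨i, by omega⟩ ⟨i + 1, hi⟩)
    obtain ⟨Q, h3, h4⟩ := hPN
    refine ⟨P - Q, fun k => (MvPolynomial.degreeOf_sub_le k P Q).trans (max_le (h1 k) (h3 k)),
      fun a => ?_⟩
    have h5 := h2 a
    have h6 := h4 a
    rw [map_sub, ← h5, ← h6]
  have h2 := pf_cancel (pf_mul (pf_D (⟨i, by omega⟩ : Fin L) ⟨i + 1, hi⟩)
    (pf_D (⟨i + 1, hi⟩ : Fin L) ⟨i, by omega⟩)) hd h1 ⟨fun _ => 0, by simp [D]⟩ a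
  exact sub_eq_zero.mp h2

theorem Num_symm {n : ℕ} [NeZero n] (τ : ℂ) {Φ : (Fin (2 * n) → ℂ) → Pat (2 * n) → ℂ}
    (hΦ : IsSol Φ) (s : Equiv.Perm (Fin (2 * n))) (a : Fin (2 * n) → ℂ) :
    Num τ 0 Φ (a ∘ s) = Num τ 0 Φ a :=
  Num_symm_aux τ hΦ.ex hΦ.poly s a

/-! ## the gap -/

theorem Num_rot {L : ℕ} [NeZero L] (τ : ℂ) {Φ : (Fin L → ℂ) → Pat L → ℂ}
    (hΦ : ROT Set.univ Φ) (c : ℤ) (a : Fin L → ℂ) :
    Num τ c Φ (a ∘ finRotate L) = Num τ (c + 1) Φ a := by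
  let E : Pat L ≃ Pat L := ⟨Pat.rot, Pat.rotInv, rotInv_rot, rot_rotInv⟩
  have h1 : ∀ π, Φ (a ∘ finRotate L) (E π) = Φ a π := fun π => hΦ a (fun _ => Set.mem_univ _) π
  have h2 : ∀ π, Φ (fun i => 1 - (a ∘ finRotate L) i) (E π) = Φ (fun i => 1 - a i) π :=
    fun π => hΦ (fun i => 1 - a i) (fun _ => Set.mem_univ _) π
  unfold Num form
  rw [← E.sum_comp]
  refine Finset.sum_congr rfl fun π _ => ?_
  rw [← E.sum_comp]
  refine Finset.sum_congr rfl fun π' _ => ?_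
  rw [h1, h2]
  have h3 : mc (E π).t (E π').t c = mc π.t π'.t (c + 1) := mc_rot π π' c
  rw [h3]

theorem Num_gap {n : ℕ} [NeZero n] (τ : ℂ) {Φ : (Fin (2 * n) → ℂ) → Pat (2 * n) → ℂ}
    (hΦ : IsSol Φ) (c : ℤ) (a : Fin (2 * n) → ℂ) :
    Num τ c Φ a = Num τ 0 Φ a := by
  induction c using Int.induction_on generalizing a with
  | zero => rfl
  | succ k ih => rw [← Num_rot τ hΦ.rot, ih, Num_symm τ hΦ]
  | pred k ih =>
    have h1 := Num_rot τ hΦ.rot (-(k : ℤ) - 1) (a ∘ (finRotate (2 * n)).symm)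
    have h2 : (a ∘ (finRotate (2 * n)).symm) ∘ finRotate (2 * n) = a := by
      funext i; simp
    rw [h2] at h1
    rw [h1, show -(k : ℤ) - 1 + 1 = -(k : ℤ) by ring, ih, Num_symm τ hΦ]

theorem mc_insN {n : ℕ} [NeZero n] (α β : Pat (2 * n)) :
    mc (insN α).t (insN β).t 0 = mc α.t β.t 0 := by
  have h1 := mc_add (insN α) (insN β) 0
  have h2 := mc_add α β 0
  have h3 := mc_ins α β ((2 * n : ℕ) + 2) (by omega) le_rfl
  have h4 : (0 : ℤ) + ((2 * (n + 1) : ℕ) : ℤ) = ((2 * n : ℕ) : ℤ) + 2 := by push_cast; ring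
  rw [h4] at h1
  rw [← h1, ← h2]
  refine h3.trans ?_
  congr 1
  ring

theorem Num_rec_of_ne {n : ℕ} [NeZero n] (τ : ℂ) {Φ : (Fin (2 * n) → ℂ) → Pat (2 * n) → ℂ}
    (hΦ : IsSol Φ) {Φ' : (Fin (2 * (n + 1)) → ℂ) → Pat (2 * (n + 1)) → ℂ} (hΦ' : IsSol Φ')
    (x y : ℂ) (hxy : D x y = 0) (hne : x ≠ y) (b : Fin (2 * n) → ℂ) :
    Num τ 0 Φ' (cons2 x y b) = kap x y b ^ 2 * Num τ 0 Φ b := by
  have hf := fused Φ hΦ Φ' hΦ' x y hxy b
  have hf' := fused Φ hΦ Φ' hΦ' (1 - y) (1 - x) (by rw [D_refl]; exact hxy) (fun j => 1 - b j)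
  rw [kap_refl] at hf'
  have h1 : Num τ 0 Φ' (cons2 x y b) =
      form τ 0 (Φ' (cons2 x y b)) (Φ' (cons2 (1 - x) (1 - y) (fun j => 1 - b j))) := by
    unfold Num; rw [cons2_refl]
  rw [h1, form_eq, FB.sum_insN _ _ hf.2]
  have h2 : ∀ α : Pat (2 * n), ∑ π', Φ' (cons2 (1 - x) (1 - y) (fun j => 1 - b j)) π' *
      τ ^ mc (insN α).t π'.t 0 =
      kap x y b * ∑ α', Φ (fun j => 1 - b j) α' * τ ^ mc α.t α'.t 0 := by
    intro α
    have hc : ¬ ((0 : ℤ) + 1 - 0) % ((2 * (n + 1) : ℕ) : ℤ) = 0 := by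
      rw [Int.emod_eq_of_lt (by omega) (by omega)]; omega
    have h3 : ∀ π' : Pat (2 * (n + 1)), mc (insN α).t π'.t 0 = mc (insN α).t (e 0 π').t 0 := by
      intro π'
      rw [← mc_e (by omega) (insN α) π' 0 0 hc, e_zero_insN]
    have h4 : ∑ π', Φ' (cons2 (1 - x) (1 - y) (fun j => 1 - b j)) π' *
      τ ^ mc (insN α).t π'.t 0 = ∑ π', Φ' (cons2 (1 - x) (1 - y) (fun j => 1 - b j)) π' *
      τ ^ mc (insN α).t (e 0 π').t 0 := Finset.sum_congr rfl fun π' _ => by rw [h3]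
    rw [h4, ← sum_eV 0 _ (fun π' => τ ^ mc (insN α).t π'.t 0),
      eV_cons2 hΦ'.ex (1 - x) (1 - y) (by rw [D_refl]; exact hxy)
        (fun h => hne (by linear_combination -h)), FB.sum_insN _ _ hf'.2, Finset.mul_sum]
    refine Finset.sum_congr rfl fun α' _ => ?_
    rw [hf'.1, mc_insN, mul_assoc]
  simp_rw [h2, hf.1]
  unfold Num
  rw [form_eq, Finset.mul_sum]
  exact Finset.sum_congr rfl fun α _ => by ring

theorem Num_rec {n : ℕ} [NeZero n] (τ : ℂ) {Φ : (Fin (2 * n) → ℂ) → Pat (2 * n) → ℂ}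
    (hΦ : IsSol Φ) {Φ' : (Fin (2 * (n + 1)) → ℂ) → Pat (2 * (n + 1)) → ℂ} (hΦ' : IsSol Φ')
    (x y : ℂ) (hxy : D x y = 0) (b : Fin (2 * n) → ℂ) :
    Num τ 0 Φ' (cons2 x y b) = kap x y b ^ 2 * Num τ 0 Φ b := by
  obtain ⟨hx1, hy⟩ := (D_eq_zero_iff x y).mp hxy
  subst hy
  have hcN : Continuous (Num τ 0 Φ') := pf_continuous (Num_PF τ hΦ'.poly 0)
  have hinv : ContinuousAt (fun z : ℂ => (1 - z)⁻¹) x := by
    apply ContinuousAt.inv₀
    · fun_prop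
    · intro h; exact hx1 (by linear_combination -h)
  have hc2 : ContinuousAt (fun z : ℂ => cons2 z (1 - z)⁻¹ b) x := by
    rw [continuousAt_pi]
    intro i
    rcases i with ⟨i, hi⟩
    rcases i with _ | _ | i
    · exact continuousAt_id
    · exact hinv
    · exact continuousAt_const
  have h1 : ContinuousAt (fun z : ℂ => Num τ 0 Φ' (cons2 z (1 - z)⁻¹ b)) x :=
    hcN.continuousAt.comp hc2
  have h2 : ContinuousAt (fun z : ℂ => kap z (1 - z)⁻¹ b ^ 2 * Num τ 0 Φ b) x := by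
    unfold kap D
    fun_prop
  have h3 : ∀ᶠ z in nhdsWithin x {x}ᶜ,
      Num τ 0 Φ' (cons2 z (1 - z)⁻¹ b) = kap z (1 - z)⁻¹ b ^ 2 * Num τ 0 Φ b := by
    have e1 : ∀ᶠ z in nhdsWithin x {x}ᶜ, z ≠ 1 :=
      (continuousAt_id.eventually_ne hx1).filter_mono nhdsWithin_le_nhds
    have e2 : ∀ᶠ z in nhdsWithin x {x}ᶜ, z * (1 - z) ≠ 1 := by
      by_cases hx : x * (1 - x) = 1
      · have e3 : ∀ᶠ z in nhdsWithin x {x}ᶜ, z ≠ 1 - x := by
          refine (continuousAt_id.eventually_ne ?_).filter_mono nhdsWithin_le_nhds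
          intro h
          have h' : x = 1 - x := h
          have h4 : x = 1 / 2 := by linear_combination (1 / 2 : ℂ) * h'
          rw [h4] at hx
          norm_num at hx
        filter_upwards [e3, self_mem_nhdsWithin] with z h4 h5 h6
        have h7 : (z - x) * (z - (1 - x)) = 0 := by linear_combination hx - h6
        rcases mul_eq_zero.mp h7 with h8 | h8
        · exact h5 (sub_eq_zero.mp h8)
        · exact h4 (sub_eq_zero.mp h8)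
      · have : ContinuousAt (fun z : ℂ => z * (1 - z)) x := by fun_prop
        exact (this.eventually_ne hx).filter_mono nhdsWithin_le_nhds
    filter_upwards [e1, e2] with z h4 h5
    have h6 : D z (1 - z)⁻¹ = 0 := (D_eq_zero_iff z _).mpr ⟨h4, rfl⟩
    refine Num_rec_of_ne τ hΦ hΦ' z _ h6 (fun h => h5 ?_) b
    have h7 : (1 - z) ≠ 0 := fun h => h4 (by linear_combination -h)
    nth_rewrite 1 [h]
    exact inv_mul_cancel₀ h7
  exact tendsto_nhds_unique_of_eventuallyEq (h1.tendsto.mono_left nhdsWithin_le_nhds)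
    (h2.tendsto.mono_left nhdsWithin_le_nhds) h3

/-- `n = 1` -/
theorem Num_one (τ : ℂ) {Φ : (Fin (2 * 1) → ℂ) → Pat (2 * 1) → ℂ} (hΦ : IsSol Φ)
    (a : Fin (2 * 1) → ℂ) :
    Num τ 0 Φ a = D (a 0) (a 1) ^ 2 + D (a 1) (a 0) ^ 2 + (τ + 1) * (D (a 0) (a 1) * D (a 1) (a 0)) := by
  have hr : ∀ b : Fin (2 * 1) → ℂ, Φ b (chi 1).rot = D (b 1) (b 0) := by
    intro b
    have h1 := hΦ.rot b (fun _ => Set.mem_univ _) (chi 1).rot
    have h2 : (chi 1).rot.rot = chi 1 := rot_iter (chi 1)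
    rw [h2, hΦ.chi, Delta_one] at h1
    rw [← h1]
    rfl
  have hc : ∀ b : Fin (2 * 1) → ℂ, Φ b (chi 1) = D (b 0) (b 1) := by
    intro b
    rw [hΦ.chi, Delta_one]
  unfold Num form
  rw [univ_two, Finset.sum_pair chi_ne_rot, Finset.sum_pair chi_ne_rot, Finset.sum_pair chi_ne_rot,
    mc_chi_chi, mc_rot_rot, mc_chi_rot, mc_rot_chi]
  simp only [hr, hc, D_refl, pow_zero, pow_one]
  ring

end Pool.Agent.H51.TA
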