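import Mathlib
import Pool.Agent.H68.Izer.Main
import Pool.Agent.H51.TA.Num
import Pool.Agent.H51.TA.Cal

/-!
# The polynomial `Num` equals the Izergin type determinant
-/

set_option autoImplicit false

open Filter Topology

namespace Pool.Agent.H51.TA

/-- calibration -/
theorem Num_cal {n : ℕ} [NeZero n] (τ : ℂ) {Φ : (Fin (2 * n) → ℂ) → Pat (2 * n) → ℂ}
    (hΦ : IsSol Φ) {Φ' : (Fin (2 * (n + 1)) → ℂ) → Pat (2 * (n + 1)) → ℂ} (hΦ' : IsSol Φ')
    (q : ℂ) (hq : q ^ 2 - q + 1 = 0) (b : Fin (2 * n) → ℂ) (hb : ∀ j, b j ≠ q) :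
    ∃ R : Polynomial ℂ, ∀ s : ℂ, Num τ 0 Φ' (cons2 (q + s) q b) =
      s ^ 2 * (-(τ + 2) * (∏ j, (b j - q) ^ 4) * Num τ 0 Φ b) + s ^ 3 * R.eval s := by
  have hn : 1 ≤ n := Nat.one_le_iff_ne_zero.2 (NeZero.ne n)
  refine Num_cal_of τ hΦ' (fun x y hxy b => fused Φ hΦ Φ' hΦ' x y hxy b)
    (fun π π' i c h => mc_e (by omega) π π' i c h) (fun π π' c => mc_rot π π' c)
    (fun α β => mc_ins_one α β) (fun α β => ?_) (fun a => Num_gap τ hΦ' 2 a) q hq b hb
  have h := mc_ins α β 2 le_rfl (by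
    have : (0 : ℤ) ≤ ((2 * n : ℕ) : ℤ) := by positivity
    linarith)
  simpa using h

theorem pf_update {L d : ℕ} {f : (Fin L → ℂ) → ℂ} (hf : PF d f) (x : Fin L → ℂ) (i : Fin L) :
    ∃ p : Polynomial ℂ, p.natDegree ≤ d ∧ ∀ t, f (Function.update x i t) = p.eval t := by
  obtain ⟨P, hP, hf⟩ := hf
  -- substitute `X_j ↦ C (x j)` for `j ≠ i` and `X_i ↦ X`
  refine ⟨MvPolynomial.eval₂ Polynomial.C
    (Function.update (fun j => Polynomial.C (x j)) i Polynomial.X) P, ?_, ?_⟩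
  · rw [MvPolynomial.eval₂_eq']
    refine Polynomial.natDegree_sum_le_of_forall_le _ _ (fun m hm => ?_)
    refine le_trans (Polynomial.natDegree_C_mul_le _ _) ?_
    refine le_trans (Polynomial.natDegree_prod_le _ _) ?_
    calc ∑ j, ((Function.update (fun j => Polynomial.C (x j)) i Polynomial.X j) ^ m j).natDegree
        ≤ ∑ j, (if j = i then m j else 0) := by
          refine Finset.sum_le_sum (fun j _ => ?_)
          split_ifs with h
          · subst h
            rw [Function.update_self]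
            simp
          · rw [Function.update_of_ne h, ← Polynomial.C_pow, Polynomial.natDegree_C]
      _ = m i := by simp
      _ ≤ P.degreeOf i := by
          rw [MvPolynomial.degreeOf_eq_sup]
          exact Finset.le_sup (f := fun m : Fin L →₀ ℕ => m i) hm
      _ ≤ d := hP i
  · intro t
    rw [hf]
    rw [← Polynomial.coe_evalRingHom, MvPolynomial.eval₂_eq', MvPolynomial.eval_eq', map_sum]
    refine Finset.sum_congr rfl (fun m _ => ?_)
    rw [map_mul, map_prod]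
    congr 1
    · simp
    · refine Finset.prod_congr rfl (fun j _ => ?_)
      rw [map_pow]
      congr 1
      by_cases h : j = i
      · subst h; simp
      · simp [Function.update_of_ne h]

section

variable (Φ : ∀ (n : ℕ) [NeZero n], (Fin (2 * n) → ℂ) → Pat (2 * n) → ℂ)

/-- the family of all sizes -/
noncomputable def FF (τ : ℂ) : ∀ n : ℕ, (Fin (2 * n) → ℂ) → ℂ
  | 0 => fun _ => 1
  | n + 1 => Num τ 0 (Φ (n + 1))

theorem cons2_eq {n : ℕ} (a b : ℂ) (x : Fin (2 * n) → ℂ) :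
    (Fin.cons a (Fin.cons b x : Fin (2 * n + 1) → ℂ) : Fin (2 * n + 2) → ℂ) = cons2 a b x := rfl

theorem cons2_swap {n : ℕ} (a b : ℂ) (x : Fin (2 * n) → ℂ) :
    cons2 a b x ∘ (Equiv.swap (0 : Fin (2 * n + 2)) 1) = cons2 b a x := by
  funext k
  refine Fin.cases ?_ (fun k => Fin.cases ?_ (fun k => ?_) k) k
  · simp only [Function.comp_apply, Equiv.swap_apply_left]
    rfl
  · show cons2 a b x (Equiv.swap 0 1 1) = _
    rw [Equiv.swap_apply_right]
    rfl
  · simp only [Function.comp_apply]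
    rw [Equiv.swap_apply_of_ne_of_ne (Fin.succ_ne_zero _)]
    · rfl
    · intro h
      rw [← Fin.succ_zero_eq_one, Fin.succ_inj] at h
      exact Fin.succ_ne_zero _ h

theorem Num_eq_MM (hΦ : ∀ (n : ℕ) [NeZero n], IsSol (Φ n)) {w q : ℂ} (hw : w ≠ 0)
    (hq : q ^ 2 - q + 1 = 0) (n : ℕ) [NeZero n] (a : Fin (2 * n) → ℂ) :
    Num (w + w⁻¹) 0 (Φ n) a =
      (-1) ^ n * (w ^ n)⁻¹ * MvPolynomial.eval a (Pool.Agent.H68.Izer.MM (2 * n) w) := by
  have key := Pool.Agent.H68.Izer.eq_MM_complex hw hq (FF Φ (w + w⁻¹)) (fun _ => rfl)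
    ?_ ?_ ?_ ?_ n a
  · rw [← key]
    obtain ⟨m, rfl⟩ := Nat.exists_eq_succ_of_ne_zero (NeZero.ne n)
    rfl
  · intro n σ x
    cases n with
    | zero => rfl
    | succ m => exact Num_symm _ (hΦ (m + 1)) σ x
  · intro n x i
    cases n with
    | zero => exact i.elim0
    | succ m => exact pf_update (Num_poly _ (hΦ (m + 1))) x i
  · intro n a b x hab
    have hs : FF Φ (w + w⁻¹) (n + 1) (cons2 a b x) = FF Φ (w + w⁻¹) (n + 1) (cons2 b a x) := by
      rw [← cons2_swap a b x]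
      exact (Num_symm _ (hΦ (n + 1)) _ _).symm
    rw [cons2_eq, hs]
    have hD : D b a = 0 := by unfold D; linear_combination hab
    cases n with
    | zero =>
      change Num (w + w⁻¹) 0 (Φ (0 + 1)) (cons2 b a x) = _
      have h1 := Num_one (w + w⁻¹) (hΦ 1) (cons2 b a x)
      rw [show Num (w + w⁻¹) 0 (Φ (0 + 1)) (cons2 b a x) = Num (w + w⁻¹) 0 (Φ 1) (cons2 b a x)
        from rfl, h1]
      have e0 : (cons2 b a x : Fin (2 * (0 + 1)) → ℂ) 0 = b := rfl
      have e1 : (cons2 b a x : Fin (2 * (0 + 1)) → ℂ) 1 = a := rfl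
      rw [e0, e1, hD]
      simp [FF, D]
      ring
    | succ m =>
      change Num (w + w⁻¹) 0 (Φ (m + 1 + 1)) (cons2 b a x) = _
      rw [Num_rec (w + w⁻¹) (hΦ (m + 1)) (hΦ (m + 1 + 1)) b a hD x]
      congr 2
      unfold kap D
      congr 1
      · ring
      · refine Finset.prod_congr rfl (fun j _ => ?_)
        ring
  · intro n x hx
    cases n with
    | zero =>
      have h1 : ∀ e : ℂ, e ≠ 0 → FF Φ (w + w⁻¹) (0 + 1) (cons2 (q + e) q x) / e ^ 2
          = -(w + w⁻¹ + 2) := by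
        intro e he
        change Num (w + w⁻¹) 0 (Φ 1) (cons2 (q + e) q x) / e ^ 2 = _
        rw [Num_one (w + w⁻¹) (hΦ 1) (cons2 (q + e) q x)]
        have e0 : (cons2 (q + e) q x : Fin (2 * (0 + 1)) → ℂ) 0 = q + e := rfl
        have e1 : (cons2 (q + e) q x : Fin (2 * (0 + 1)) → ℂ) 1 = q := rfl
        rw [e0, e1]
        have d1 : D (q + e) q = e * q := by unfold D; linear_combination hq
        have d2 : D q (q + e) = e * (q - 1) := by unfold D; linear_combination hq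
        rw [d1, d2, div_eq_iff (pow_ne_zero 2 he)]
        generalize w + w⁻¹ = τ
        linear_combination (e ^ 2 * (τ + 3)) * hq
      have h2 : Tendsto (fun _ : ℂ => -(w + w⁻¹ + 2)) (𝓝[≠] 0) (𝓝 (-(w + w⁻¹ + 2))) :=
        tendsto_const_nhds
      have h5 : -(w + w⁻¹ + 2) * (∏ k, (x k - q) ^ 4) * FF Φ (w + w⁻¹) 0 x = -(w + w⁻¹ + 2) := by
        have : (∏ k : Fin (2 * 0), (x k - q) ^ 4) = 1 := by simp
        rw [this]
        simp [FF]
      rw [h5]
      refine h2.congr' ?_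
      filter_upwards [self_mem_nhdsWithin] with e he
      exact (h1 e he).symm
    | succ m =>
      obtain ⟨R, hR⟩ := Num_cal (w + w⁻¹) (hΦ (m + 1)) (hΦ (m + 1 + 1)) q hq x hx
      have h1 : ∀ e : ℂ, e ≠ 0 → FF Φ (w + w⁻¹) (m + 1 + 1) (cons2 (q + e) q x) / e ^ 2
          = -(w + w⁻¹ + 2) * (∏ k, (x k - q) ^ 4) * FF Φ (w + w⁻¹) (m + 1) x + e * R.eval e := by
        intro e he
        change Num (w + w⁻¹) 0 (Φ (m + 1 + 1)) (cons2 (q + e) q x) / e ^ 2 = _
        rw [hR e]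
        change _ = -(w + w⁻¹ + 2) * (∏ k, (x k - q) ^ 4) * Num (w + w⁻¹) 0 (Φ (m + 1)) x + e * R.eval e
        field_simp
      have h2 : Tendsto (fun e : ℂ => -(w + w⁻¹ + 2) * (∏ k, (x k - q) ^ 4) *
          FF Φ (w + w⁻¹) (m + 1) x + e * R.eval e) (𝓝[≠] 0)
          (𝓝 (-(w + w⁻¹ + 2) * (∏ k, (x k - q) ^ 4) * FF Φ (w + w⁻¹) (m + 1) x)) := by
        have h3 : Continuous (fun e : ℂ => -(w + w⁻¹ + 2) * (∏ k, (x k - q) ^ 4) *
          FF Φ (w + w⁻¹) (m + 1) x + e * R.eval e) := by fun_prop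
        have h4 := (h3.tendsto 0).mono_left (nhdsWithin_le_nhds (s := {0}ᶜ))
        simpa using h4
      refine h2.congr' ?_
      filter_upwards [self_mem_nhdsWithin] with e he
      exact (h1 e he).symm

end

end Pool.Agent.H51.TA
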