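import Mathlib
import Pool.Agent.H68.Izer.Main
import Pool.Agent.H23.BO.Homog

/-!
# The value of the polynomial `MM` at the homogeneous point
-/

set_option autoImplicit false

open Filter Topology

namespace Pool.Agent.H51.TA

open Pool.Agent.H68.Izer (MM RHS RHS_eq)
open Pool.Agent.H23.BO (pascal RHS_tendsto')

theorem MM_half (n : ℕ) (w : ℂ) :
    (-1) ^ n * (w ^ n)⁻¹ * MvPolynomial.eval (fun _ => (1 / 2 : ℂ)) (MM (2 * n) w) =
      (9 / 16) ^ (n * (2 * n - 1)) * (w ^ n)⁻¹ *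
        (w • (1 : Matrix (Fin (2 * n)) (Fin (2 * n)) ℂ) + pascal (2 * n)).det := by
  have h1 := RHS_tendsto' n w
  refine tendsto_nhds_unique ?_ h1
  have hc : Continuous (fun ε : ℂ => (-1) ^ n * (w ^ n)⁻¹ *
      MvPolynomial.eval (fun i : Fin (2 * n) => 1 / 2 + ε * (((i : ℕ) : ℂ) + 1)) (MM (2 * n) w)) := by
    refine continuous_const.mul ?_
    exact (MvPolynomial.continuous_eval (MM (2 * n) w)).comp (by fun_prop)
  have h2 := (hc.tendsto 0).mono_left (nhdsWithin_le_nhds (s := {0}ᶜ))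
  simp only [zero_mul, add_zero] at h2
  refine h2.congr' ?_
  -- generic points
  have hD : ∀ i j : Fin (2 * n), ∀ᶠ ε : ℂ in 𝓝 0,
      Pool.Agent.H68.Izer.D (1 / 2 + ε * (((i : ℕ) : ℂ) + 1)) (1 / 2 + ε * (((j : ℕ) : ℂ) + 1)) ≠ 0 := by
    intro i j
    have hcont : Continuous (fun ε : ℂ => Pool.Agent.H68.Izer.D (1 / 2 + ε * (((i : ℕ) : ℂ) + 1))
        (1 / 2 + ε * (((j : ℕ) : ℂ) + 1))) := by
      unfold Pool.Agent.H68.Izer.D; fun_prop
    refine hcont.continuousAt.eventually_ne ?_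
    unfold Pool.Agent.H68.Izer.D
    norm_num
  have hD2 : ∀ᶠ ε : ℂ in 𝓝[≠] 0, ∀ i j : Fin (2 * n),
      Pool.Agent.H68.Izer.D (1 / 2 + ε * (((i : ℕ) : ℂ) + 1)) (1 / 2 + ε * (((j : ℕ) : ℂ) + 1)) ≠ 0 := by
    refine Filter.Eventually.filter_mono nhdsWithin_le_nhds ?_
    rw [Filter.eventually_all]
    intro i
    rw [Filter.eventually_all]
    exact hD i
  filter_upwards [hD2, self_mem_nhdsWithin] with ε hε hne
  symm
  apply RHS_eq w n _ _ hε
  intro i j hij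
  have h3 : ε * (((i : ℕ) : ℂ) + 1) = ε * (((j : ℕ) : ℂ) + 1) := by simpa using hij
  have h4 := mul_left_cancel₀ hne h3
  have h5 : ((i : ℕ) : ℂ) = ((j : ℕ) : ℂ) := by simpa using h4
  exact Fin.ext (by exact_mod_cast h5)

end Pool.Agent.H51.TA
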