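import Pool.Agent.H51.TA.Defs

/-!
# MP_fe58d8_pr, ALG part, job W2: Temperley-Lieb relations and `ins` (helper53)
-/

set_option autoImplicit false

namespace Pool.Agent.H51.TA

/-! ### JOB W2: relations -/

theorem e_t {L : ℕ} (hL : 2 ≤ L) (i : ℤ) (π : Pat L) : (e i π).t = eFun L i π.t := by
  simp [e, hL]

/-! #### residues -/

theorem w2_divmod {N x m s : ℤ} (h : x = N * m + s) (h0 : 0 ≤ s) (h1 : s < N) :
    x / N = m ∧ x % N = s := by
  subst h
  have hN : N ≠ 0 := by omega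
  constructor
  · rw [show N * m + s = s + N * m by ring, Int.add_mul_ediv_left _ _ hN,
      Int.ediv_eq_zero_of_lt h0 h1, zero_add]
  · rw [show N * m + s = s + N * m by ring, Int.add_mul_emod_self_left, Int.emod_eq_of_lt h0 h1]

theorem w2_res {N x m s i : ℤ} (h : x = N * m + s) (h0 : 0 ≤ s) (h1 : s < N) (hi0 : 0 ≤ i)
    (hi1 : i < N) : (x - i) % N = 0 ↔ s = i := by
  subst h
  constructor
  · intro hx
    have h2 : N ∣ N * m + s - i := Int.dvd_of_emod_eq_zero hx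
    have h3 : N ∣ s - i := by
      have : s - i = (N * m + s - i) - N * m := by ring
      rw [this]
      exact dvd_sub h2 (dvd_mul_right _ _)
    have h4 := Int.eq_zero_of_abs_lt_dvd h3 (by rw [abs_lt]; constructor <;> omega)
    omega
  · rintro rfl
    simp

theorem w2_res0 {N x m s : ℤ} (h : x = N * m + s) (h0 : 0 ≤ s) (h1 : s < N) :
    x % N = 0 ↔ s = 0 := by
  rw [(w2_divmod h h0 h1).2]

theorem w2_rep {N : ℤ} (hN : 0 < N) (x : ℤ) : ∃ m s, x = N * m + s ∧ 0 ≤ s ∧ s < N :=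
  ⟨x / N, x % N, (Int.mul_ediv_add_emod x N).symm, Int.emod_nonneg _ hN.ne', Int.emod_lt_of_pos _ hN⟩

theorem w2_up_rep {L : ℕ} {y m r : ℤ} (h : y = L * m + r) (h0 : 0 ≤ r) (h1 : r < L) :
    up L y = (L + 2) * m + (r + 2) := by
  unfold up
  rw [(w2_divmod h h0 h1).1, h]
  ring

theorem w2_down_rep {L : ℕ} {x m s : ℤ} (h : x = (L + 2) * m + s) (h0 : 0 ≤ s) (h1 : s < L + 2) :
    down L x = L * m + (s - 2) := by
  unfold down
  rw [(w2_divmod h h0 h1).1, h]
  ring

theorem w2_down_up {L : ℕ} (hL : 0 < L) (y : ℤ) : down L (up L y) = y := by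
  obtain ⟨m, r, h, h0, h1⟩ := w2_rep (N := (L : ℤ)) (by exact_mod_cast hL) y
  rw [w2_down_rep (w2_up_rep h h0 h1) (by omega) (by omega), h]
  ring

/-- the positions `≢ 0, 1` are the `up y` -/
theorem w2_pos_cases {L : ℕ} (hL : 0 < L) (x : ℤ) :
    (∃ m : ℤ, x = (L + 2) * m) ∨ (∃ m : ℤ, x = (L + 2) * m + 1) ∨ ∃ y, x = up L y := by
  obtain ⟨m, s, h, h0, h1⟩ := w2_rep (N := ((L : ℤ) + 2)) (by omega) x
  by_cases hs0 : s = 0
  · left; exact ⟨m, by rw [h, hs0]; ring⟩
  by_cases hs1 : s = 1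
  · right; left; exact ⟨m, by rw [h, hs1]⟩
  right; right
  refine ⟨L * m + (s - 2), ?_⟩
  rw [w2_up_rep (m := m) (r := s - 2) rfl (by omega) (by omega), h]
  ring

theorem w2_up_mod0 {L : ℕ} (hL : 0 < L) (y : ℤ) : ¬ up L y % (L + 2 : ℤ) = 0 := by
  obtain ⟨m, r, h, h0, h1⟩ := w2_rep (N := (L : ℤ)) (by exact_mod_cast hL) y
  rw [w2_res0 (w2_up_rep h h0 h1) (by omega) (by omega)]
  omega

theorem w2_up_mod1 {L : ℕ} (hL : 0 < L) (y : ℤ) : ¬ (up L y - 1) % (L + 2 : ℤ) = 0 := by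
  obtain ⟨m, r, h, h0, h1⟩ := w2_rep (N := (L : ℤ)) (by exact_mod_cast hL) y
  rw [w2_res (w2_up_rep h h0 h1) (by omega) (by omega) (by omega) (by omega)]
  omega

theorem w2_insFun_up {L : ℕ} (hL : 0 < L) (t : ℤ → ℤ) (y : ℤ) :
    insFun L t (up L y) = up L (t y) := by
  unfold insFun
  rw [if_neg (w2_up_mod0 hL y), if_neg (w2_up_mod1 hL y), w2_down_up hL]

theorem w2_insFun_zero {L : ℕ} (t : ℤ → ℤ) (m : ℤ) :
    insFun L t ((L + 2) * m) = (L + 2) * m + 1 := by
  unfold insFun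
  rw [if_pos (by simp)]

theorem w2_insFun_one {L : ℕ} (t : ℤ → ℤ) (m : ℤ) :
    insFun L t ((L + 2) * m + 1) = (L + 2) * m := by
  unfold insFun
  have h : ¬ ((L + 2 : ℤ) * m + 1) % (L + 2 : ℤ) = 0 := by
    rw [w2_res0 (m := m) rfl (by omega) (by omega)]; omega
  rw [if_neg h, if_pos (by simp)]
  ring

theorem w2_up_strictMono {L : ℕ} (hL : 0 < L) : StrictMono (up L) := by
  intro a b hab
  unfold up
  have : a / (L : ℤ) ≤ b / (L : ℤ) := Int.ediv_le_ediv (by exact_mod_cast hL) hab.le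
  omega

/-! #### `e` -/

theorem eFun_of_I {L : ℕ} {i x : ℤ} {t : ℤ → ℤ} (h : (x - i) % L = 0) :
    eFun L i t x = x + 1 := by
  unfold eFun; rw [if_pos h]

theorem w2_not_I_of_J {L : ℕ} (hL : 2 ≤ L) {i x : ℤ} (h : (x - i - 1) % L = 0) :
    ¬ (x - i) % L = 0 := by
  intro h'
  have h1 : (L : ℤ) ∣ x - i - 1 := Int.dvd_of_emod_eq_zero h
  have h2 : (L : ℤ) ∣ x - i := Int.dvd_of_emod_eq_zero h'
  have h3 : (L : ℤ) ∣ 1 := by
    have := dvd_sub h2 h1
    simpa using this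
  have := Int.le_of_dvd one_pos h3
  omega

theorem eFun_of_J {L : ℕ} (hL : 2 ≤ L) {i x : ℤ} {t : ℤ → ℤ} (h : (x - i - 1) % L = 0) :
    eFun L i t x = x - 1 := by
  unfold eFun; rw [if_neg (w2_not_I_of_J hL h), if_pos h]

/-- if `π` has the small arcs `(i, i + 1)` then `e i π = π` -/
theorem e_fix {L : ℕ} (i : ℤ) (π : Pat L) (h : ∀ x, (x - i) % L = 0 → π.t x = x + 1) :
    e i π = π := by
  by_cases hL : 2 ≤ L
  swap
  · simp [e, hL]
  have h' : ∀ x, (x - i - 1) % L = 0 → π.t x = x - 1 := by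
    intro x hx
    have h1 := h (x - 1) (by rw [show x - 1 - i = x - i - 1 by ring]; exact hx)
    have h2 := π.inv (x - 1)
    rw [h1] at h2
    rw [← h2]; congr 1; ring
  ext x
  rw [e_t hL]
  unfold eFun
  split_ifs with h1 h2 h3 h4
  · exact (h x h1).symm
  · exact (h' x h2).symm
  · exfalso
    have h5 := h _ h3
    rw [π.inv] at h5
    apply h2
    rw [show x - i - 1 = π.t x - i by omega]
    exact h3
  · exfalso
    have h5 := h' _ h4
    rw [π.inv] at h5
    apply h1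
    rw [show x - i = π.t x - i - 1 by omega]
    exact h4
  · rfl

theorem e_e {L : ℕ} (i : ℤ) (π : Pat L) : e i (e i π) = e i π := by
  by_cases hL : 2 ≤ L
  · apply e_fix
    intro x hx
    rw [e_t hL, eFun_of_I hx]
  · simp [e, hL]

theorem e_add {L : ℕ} (i : ℤ) (π : Pat L) : e (i + L) π = e i π := by
  by_cases hL : 2 ≤ L
  · ext x
    rw [e_t hL, e_t hL]
    unfold eFun
    have h : ∀ y : ℤ, (y - (i + L)) % (L : ℤ) = (y - i) % L := by
      intro y
      rw [show y - (i + L) = y - i - L by ring, Int.sub_emod_right]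
    have h' : ∀ y : ℤ, (y - (i + L) - 1) % (L : ℤ) = (y - i - 1) % L := by
      intro y
      rw [show y - (i + L) - 1 = y - i - 1 - L by ring, Int.sub_emod_right]
    simp only [h, h']
  · simp [e, hL]

theorem rot_e {L : ℕ} (i : ℤ) (π : Pat L) : (e (i + 1) π).rot = e i π.rot := by
  by_cases hL : 2 ≤ L
  · ext x
    have : (e (i + 1) π).rot.t x = eFun L (i + 1) π.t (x + 1) - 1 := by
      rw [← e_t hL]; rfl
    rw [this, e_t hL]
    unfold eFun
    have h : ∀ y : ℤ, y + 1 - (i + 1) = y - i := fun y => by ring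
    have h2 : ∀ y : ℤ, y - (i + 1) = y - 1 - i := fun y => by ring
    simp only [Pat.rot, h]
    rw [h2 (π.t (x + 1))]
    split_ifs
    · ring
    · ring
    · rw [show π.t (x + 1) - 1 + 1 + 1 = π.t (x + 1) + 1 by ring]
    · rw [show π.t (x + 1) - 1 - 1 + 1 = π.t (x + 1) - 1 by ring]
    · rfl
  · simp [e, hL]

theorem rot_iter_t {L : ℕ} (k : ℕ) (π : Pat L) (x : ℤ) :
    (Pat.rot^[k] π).t x = π.t (x + k) - k := by
  induction k generalizing x with
  | zero => simp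
  | succ k ih =>
    rw [Function.iterate_succ_apply']
    show (Pat.rot^[k] π).t (x + 1) - 1 = _
    rw [ih]
    push_cast
    rw [show x + 1 + (k : ℤ) = x + (k + 1) by ring]
    ring

theorem rot_iter {L : ℕ} (π : Pat L) : Pat.rot^[L] π = π := by
  ext x
  rw [rot_iter_t, π.per]
  ring

theorem rot_rotInv {L : ℕ} (π : Pat L) : π.rotInv.rot = π := by
  ext x; simp [Pat.rot, Pat.rotInv]

theorem rotInv_rot {L : ℕ} (π : Pat L) : π.rot.rotInv = π := by
  ext x; simp [Pat.rot, Pat.rotInv]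

/-! #### `ins` -/

theorem ins_up {L : ℕ} [NeZero L] (α : Pat L) (y : ℤ) : (ins α).t (up L y) = up L (α.t y) :=
  w2_insFun_up (Nat.pos_of_ne_zero (NeZero.ne L)) α.t y

theorem ins_inj {L : ℕ} [NeZero L] {α β : Pat L} (h : ins α = ins β) : α = β := by
  have hL : 0 < L := Nat.pos_of_ne_zero (NeZero.ne L)
  ext y
  have h1 : (ins α).t (up L y) = (ins β).t (up L y) := by rw [h]
  rw [ins_up, ins_up] at h1
  have := congrArg (down L) h1
  rwa [w2_down_up hL, w2_down_up hL] at this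

theorem e_zero_ins {L : ℕ} [NeZero L] (α : Pat L) : e 0 (ins α) = ins α := by
  apply e_fix
  intro x hx
  rw [sub_zero] at hx
  show insFun L α.t x = x + 1
  unfold insFun
  rw [if_pos (by push_cast at hx; exact hx)]

theorem exists_ins' {L : ℕ} [NeZero L] (π : Pat (L + 2))
    (h : ∀ m : ℤ, π.t ((L + 2) * m) = (L + 2) * m + 1) : ∃ α : Pat L, π = ins α := by
  have hL : 0 < L := Nat.pos_of_ne_zero (NeZero.ne L)
  have h1 : ∀ m : ℤ, π.t ((L + 2) * m + 1) = (L + 2) * m := by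
    intro m
    rw [← h m, π.inv]
  have hup : ∀ y, ∃ z, π.t (up L y) = up L z := by
    intro y
    rcases w2_pos_cases hL (π.t (up L y)) with ⟨m, hm⟩ | ⟨m, hm⟩ | ⟨z, hz⟩
    · exfalso
      have h2 := π.inv (up L y)
      rw [hm, h] at h2
      apply w2_up_mod1 hL y
      rw [← h2]; simp
    · exfalso
      have h2 := π.inv (up L y)
      rw [hm, h1] at h2
      apply w2_up_mod0 hL y
      rw [← h2]; simp
    · exact ⟨z, hz⟩
  choose f hf using hup
  have hmono := w2_up_strictMono hL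
  have hinj := hmono.injective
  refine ⟨⟨f, ?_, ?_, ?_, ?_⟩, ?_⟩
  · intro y
    apply hinj
    rw [← hf, ← hf, π.inv]
  · intro y hy
    apply π.ne (up L y)
    rw [hf, hy]
  · intro y
    apply hinj
    have hup2 : ∀ z : ℤ, up L (z + L) = up L z + ((L + 2 : ℕ) : ℤ) := by
      intro z
      unfold up
      rw [Int.add_ediv_of_dvd_right (dvd_refl _), Int.ediv_self (by exact_mod_cast hL.ne')]
      push_cast; ring
    rw [← hf, hup2, hup2, π.per, hf]
  · intro x y hxy hyx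
    have h2 := π.nc (up L x) (up L y) (hmono hxy) (by rw [hf]; exact hmono hyx)
    rw [hf, hf] at h2
    exact ⟨hmono.lt_iff_lt.mp h2.1, hmono.lt_iff_lt.mp h2.2⟩
  · ext x
    rcases w2_pos_cases hL x with ⟨m, rfl⟩ | ⟨m, rfl⟩ | ⟨y, rfl⟩
    · rw [h]; exact (w2_insFun_zero _ _).symm
    · rw [h1]; exact (w2_insFun_one _ _).symm
    · rw [hf, ins_up]

/-- the image of `e 0` consists of the patterns `ins α` -/
theorem exists_ins {L : ℕ} [NeZero L] (hL : 2 ≤ L) (π : Pat (L + 2)) :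
    ∃ α : Pat L, e 0 π = ins α := by
  apply exists_ins'
  intro m
  rw [e_t (by omega), eFun_of_I]
  rw [sub_zero]
  push_cast
  simp

theorem ins_zero {L : ℕ} [NeZero L] (α : Pat L) (m : ℤ) :
    (ins α).t ((L + 2) * m) = (L + 2) * m + 1 := w2_insFun_zero _ _

theorem ins_one {L : ℕ} [NeZero L] (α : Pat L) (m : ℤ) :
    (ins α).t ((L + 2) * m + 1) = (L + 2) * m := w2_insFun_one _ _

theorem up_res {L : ℕ} (hL : 0 < L) (y i : ℤ) (hi0 : 0 ≤ i) (hi : i < L) :
    (up L y - (i + 2)) % (L + 2 : ℤ) = 0 ↔ (y - i) % (L : ℤ) = 0 := by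
  obtain ⟨m, r, h, h0, h1⟩ := w2_rep (N := (L : ℤ)) (by exact_mod_cast hL) y
  rw [w2_res (w2_up_rep h h0 h1) (by omega) (by omega) (by omega) (by omega), w2_res h h0 h1 hi0 hi]
  omega

theorem up_succ {L : ℕ} (hL : 0 < L) (y i : ℤ) (hi0 : 0 ≤ i) (hi : i + 1 < L)
    (h : (y - i) % (L : ℤ) = 0) : up L (y + 1) = up L y + 1 := by
  obtain ⟨m, r, h2, h0, h1⟩ := w2_rep (N := (L : ℤ)) (by exact_mod_cast hL) y
  have h3 := (w2_res h2 h0 h1 hi0 (by omega)).mp h
  subst h3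
  rw [w2_up_rep h2 h0 h1, w2_up_rep (y := y + 1) (m := m) (r := r + 1) (by rw [h2]; ring) (by omega)
    (by omega)]
  ring

theorem e_ins {L : ℕ} [NeZero L] (α : Pat L) (i : ℕ) (hi : i + 1 < L) :
    e ((i : ℤ) + 2) (ins α) = ins (e i α) := by
  have hL : 0 < L := by omega
  have hc : ((L + 2 : ℕ) : ℤ) = (L : ℤ) + 2 := by push_cast; ring
  ext x
  rw [e_t (by omega)]
  unfold eFun
  rw [hc]
  rcases w2_pos_cases hL x with ⟨m, rfl⟩ | ⟨m, rfl⟩ | ⟨y, rfl⟩
  · rw [ins_zero, ins_zero]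
    have a1 : ¬ (((L : ℤ) + 2) * m - (i + 2)) % ((L : ℤ) + 2) = 0 := by
      rw [w2_res (m := m) (s := 0) (by ring) (by omega) (by omega) (by omega) (by omega)]; omega
    have a2 : ¬ (((L : ℤ) + 2) * m - (i + 2) - 1) % ((L : ℤ) + 2) = 0 := by
      rw [show ((L : ℤ) + 2) * m - (i + 2) - 1 = ((L : ℤ) + 2) * m - (i + 3) by ring,
        w2_res (m := m) (s := 0) (by ring) (by omega) (by omega) (by omega) (by omega)]; omega
    have a3 : ¬ (((L : ℤ) + 2) * m + 1 - (i + 2)) % ((L : ℤ) + 2) = 0 := by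
      rw [w2_res (m := m) (s := 1) (by ring) (by omega) (by omega) (by omega) (by omega)]; omega
    have a4 : ¬ (((L : ℤ) + 2) * m + 1 - (i + 2) - 1) % ((L : ℤ) + 2) = 0 := by
      rw [show ((L : ℤ) + 2) * m + 1 - (i + 2) - 1 = ((L : ℤ) + 2) * m + 1 - (i + 3) by ring,
        w2_res (m := m) (s := 1) (by ring) (by omega) (by omega) (by omega) (by omega)]; omega
    rw [if_neg a1, if_neg a2, if_neg a3, if_neg a4]
  · rw [ins_one, ins_one]
    have a1 : ¬ (((L : ℤ) + 2) * m - (i + 2)) % ((L : ℤ) + 2) = 0 := by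
      rw [w2_res (m := m) (s := 0) (by ring) (by omega) (by omega) (by omega) (by omega)]; omega
    have a2 : ¬ (((L : ℤ) + 2) * m - (i + 2) - 1) % ((L : ℤ) + 2) = 0 := by
      rw [show ((L : ℤ) + 2) * m - (i + 2) - 1 = ((L : ℤ) + 2) * m - (i + 3) by ring,
        w2_res (m := m) (s := 0) (by ring) (by omega) (by omega) (by omega) (by omega)]; omega
    have a3 : ¬ (((L : ℤ) + 2) * m + 1 - (i + 2)) % ((L : ℤ) + 2) = 0 := by
      rw [w2_res (m := m) (s := 1) (by ring) (by omega) (by omega) (by omega) (by omega)]; omega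
    have a4 : ¬ (((L : ℤ) + 2) * m + 1 - (i + 2) - 1) % ((L : ℤ) + 2) = 0 := by
      rw [show ((L : ℤ) + 2) * m + 1 - (i + 2) - 1 = ((L : ℤ) + 2) * m + 1 - (i + 3) by ring,
        w2_res (m := m) (s := 1) (by ring) (by omega) (by omega) (by omega) (by omega)]; omega
    rw [if_neg a3, if_neg a4, if_neg a1, if_neg a2, ins_one]
  · rw [ins_up, ins_up, e_t (by omega)]
    unfold eFun
    have k1 : ∀ z : ℤ, (up L z - (i + 2)) % ((L : ℤ) + 2) = 0 ↔ (z - i) % (L : ℤ) = 0 :=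
      fun z => up_res hL z i (by omega) (by omega)
    have k2 : ∀ z : ℤ, (up L z - (i + 2) - 1) % ((L : ℤ) + 2) = 0 ↔ (z - i - 1) % (L : ℤ) = 0 := by
      intro z
      have := up_res hL z (i + 1) (by omega) (by omega)
      rw [show up L z - (i + 2) - 1 = up L z - ((i : ℤ) + 1 + 2) by ring, this,
        show z - ((i : ℤ) + 1) = z - i - 1 by ring]
    have k3 : ∀ z : ℤ, (z - i) % (L : ℤ) = 0 → up L (z + 1) = up L z + 1 :=
      fun z => up_succ hL z i (by omega) (by omega)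
    have k4 : ∀ z : ℤ, (z - i - 1) % (L : ℤ) = 0 → up L (z - 1) = up L z - 1 := by
      intro z hz
      have := k3 (z - 1) (by rw [show z - 1 - (i : ℤ) = z - i - 1 by ring]; exact hz)
      rw [show z - 1 + 1 = z by ring] at this
      rw [this]; ring
    simp only [k1, k2]
    split_ifs with h1 h2 h3 h4
    · exact (k3 _ h1).symm
    · exact (k4 _ h2).symm
    · rw [← k3 _ h3, ins_up]
    · rw [← k4 _ h4, ins_up]
    · rfl

theorem res_ne_zero {L : ℕ} (α : Pat L) (m : ℤ) : ¬ α.t (L * m) % (L : ℤ) = 0 := by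
  intro h
  obtain ⟨k, hk⟩ := Int.dvd_of_emod_eq_zero h
  have hper : ∀ (k : ℤ) (x : ℤ), α.t (x + L * k) = α.t x + L * k := by
    intro k
    induction k using Int.induction_on with
    | zero => intro x; simp
    | succ k ih =>
      intro x
      have := α.per (x + L * k)
      rw [ih] at this
      rw [show x + (L : ℤ) * (k + 1) = x + L * k + L by ring, this]; ring
    | pred k ih =>
      intro x
      have := α.per (x + L * (-k - 1))
      rw [show x + (L : ℤ) * (-k - 1) + L = x + L * (-k) by ring, ih] at this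
      linarith
  have h1 := hper (k - m) (L * m)
  rw [show (L : ℤ) * m + L * (k - m) = L * k by ring, hk] at h1
  have h2 := α.inv (L * m)
  rw [hk, h1] at h2
  apply α.ne (L * m)
  rw [hk]
  linarith

theorem up_sub_one {L : ℕ} (hL : 0 < L) (z : ℤ) (h : ¬ z % (L : ℤ) = 0) :
    up L (z - 1) + 1 = up L z := by
  obtain ⟨m, r, h2, h0, h1⟩ := w2_rep (N := (L : ℤ)) (by exact_mod_cast hL) z
  rw [w2_res0 h2 h0 h1] at h
  rw [w2_up_rep h2 h0 h1, w2_up_rep (y := z - 1) (m := m) (r := r - 1) (by rw [h2]; ring) (by omega)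
    (by omega)]
  ring

theorem up_mul {L : ℕ} (hL : 0 < L) (m : ℤ) : up L (L * m) = (L + 2) * m + 2 := by
  rw [w2_up_rep (m := m) (r := 0) (by ring) (by omega) (by omega)]; ring

theorem up_mul_sub_one {L : ℕ} (hL : 0 < L) (m : ℤ) : up L (L * m - 1) + 1 = (L + 2) * m := by
  rw [w2_up_rep (m := m - 1) (r := L - 1) (by ring) (by omega) (by omega)]; ring

theorem e_one_ins_t {L : ℕ} [NeZero L] (hL : 2 ≤ L) (α : Pat L) :
    (∀ m : ℤ, (e 1 (ins α)).t ((L + 2) * m) = up L (α.t (L * m))) ∧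
    (∀ m : ℤ, (e 1 (ins α)).t ((L + 2) * m + 1) = (L + 2) * m + 2) ∧
    (∀ m : ℤ, (e 1 (ins α)).t ((L + 2) * m + 2) = (L + 2) * m + 1) ∧
    (∀ m : ℤ, (e 1 (ins α)).t (up L (α.t (L * m))) = (L + 2) * m) ∧
    (∀ y : ℤ, ¬ y % (L : ℤ) = 0 → ¬ α.t y % (L : ℤ) = 0 →
      (e 1 (ins α)).t (up L y) = up L (α.t y)) := by
  have hL0 : 0 < L := by omega
  have hc : ((L + 2 : ℕ) : ℤ) = (L : ℤ) + 2 := by push_cast; ring
  have b1 : ∀ y : ℤ, (up L y - 1) % ((L : ℤ) + 2) = 0 ↔ False := by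
    intro y; simp [w2_up_mod1 hL0 y]
  have b2 : ∀ y : ℤ, (up L y - 1 - 1) % ((L : ℤ) + 2) = 0 ↔ y % (L : ℤ) = 0 := by
    intro y
    have := up_res hL0 y 0 le_rfl (by omega)
    rw [sub_zero] at this
    rw [← this, show up L y - 1 - 1 = up L y - (0 + 2) by ring]
  refine ⟨?_, ?_, ?_, ?_, ?_⟩
  · intro m
    rw [e_t (by omega)]
    unfold eFun
    rw [hc, ins_zero]
    have a1 : ¬ (((L : ℤ) + 2) * m - 1) % ((L : ℤ) + 2) = 0 := by
      rw [w2_res (m := m) (s := 0) (by ring) (by omega) (by omega) (by omega) (by omega)]; omega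
    have a2 : ¬ (((L : ℤ) + 2) * m - 1 - 1) % ((L : ℤ) + 2) = 0 := by
      rw [show ((L : ℤ) + 2) * m - 1 - 1 = ((L : ℤ) + 2) * m - 2 by ring,
        w2_res (m := m) (s := 0) (by ring) (by omega) (by omega) (by omega) (by omega)]; omega
    have a3 : (((L : ℤ) + 2) * m + 1 - 1) % ((L : ℤ) + 2) = 0 := by simp
    rw [if_neg a1, if_neg a2, if_pos a3,
      show ((L : ℤ) + 2) * m + 1 + 1 = up L (L * m) by rw [up_mul hL0]; ring, ins_up]
  · intro m
    rw [e_t (by omega), eFun_of_I]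
    · ring
    · rw [hc]; simp
  · intro m
    rw [e_t (by omega), eFun_of_J (by omega)]
    · ring
    · rw [hc, show ((L : ℤ) + 2) * m + 2 - 1 - 1 = ((L : ℤ) + 2) * m by ring]; simp
  · intro m
    rw [e_t (by omega)]
    unfold eFun
    rw [hc, ins_up, α.inv]
    simp only [b1, b2, if_false]
    rw [if_neg (res_ne_zero α m), if_pos (by simp), up_mul hL0,
      show ((L : ℤ) + 2) * m + 2 - 1 = (L + 2) * m + 1 by ring, ins_one]
  · intro y h1 h2
    rw [e_t (by omega)]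
    unfold eFun
    rw [hc, ins_up]
    simp only [b1, b2, if_false, if_neg h1, if_neg h2]

theorem e_one_ins {L : ℕ} [NeZero L] (hL : 2 ≤ L) (α : Pat L) :
    e 1 (ins α) = (ins α.rot).rotInv := by
  have hL0 : 0 < L := by omega
  obtain ⟨h1, h2, h3, h4, h5⟩ := e_one_ins_t hL α
  have key : ∀ y : ℤ, (ins α.rot).rotInv.t (up L (y - 1) + 1) = up L (α.t y - 1) + 1 := by
    intro y
    show (ins α.rot).t (up L (y - 1) + 1 - 1) + 1 = _
    rw [show up L (y - 1) + 1 - 1 = up L (y - 1) by ring, ins_up]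
    show up L (α.t (y - 1 + 1) - 1) + 1 = _
    rw [show y - 1 + 1 = y by ring]
  ext x
  rcases w2_pos_cases hL0 x with ⟨m, rfl⟩ | ⟨m, rfl⟩ | ⟨y, rfl⟩
  · rw [h1]
    have := key (L * m)
    rw [up_mul_sub_one hL0, up_sub_one hL0 _ (res_ne_zero α m)] at this
    exact this.symm
  · rw [h2]
    show _ = (ins α.rot).t (((L : ℤ) + 2) * m + 1 - 1) + 1
    rw [show ((L : ℤ) + 2) * m + 1 - 1 = ((L : ℤ) + 2) * m by ring, ins_zero]; ring
  · by_cases hy : y % (L : ℤ) = 0
    · obtain ⟨m, rfl⟩ := Int.dvd_of_emod_eq_zero hy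
      rw [up_mul hL0, h3]
      show _ = (ins α.rot).t (((L : ℤ) + 2) * m + 2 - 1) + 1
      rw [show ((L : ℤ) + 2) * m + 2 - 1 = ((L : ℤ) + 2) * m + 1 by ring, ins_one]
    · have h6 := key y
      rw [up_sub_one hL0 y hy] at h6
      rw [h6]
      by_cases hz : α.t y % (L : ℤ) = 0
      · obtain ⟨m, hm⟩ := Int.dvd_of_emod_eq_zero hz
        have h7 := h4 m
        rw [← hm, α.inv] at h7
        rw [h7, hm, up_mul_sub_one hL0]
      · rw [h5 y hy hz, up_sub_one hL0 _ hz]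

theorem e_zero_one_ins {L : ℕ} [NeZero L] (hL : 2 ≤ L) (α : Pat L) :
    e 0 (e 1 (ins α)) = ins α := by
  have hL0 : 0 < L := by omega
  have hc : ((L + 2 : ℕ) : ℤ) = (L : ℤ) + 2 := by push_cast; ring
  obtain ⟨h1, h2, h3, h4, h5⟩ := e_one_ins_t hL α
  have b0 : ∀ y : ℤ, (up L y - 0) % ((L : ℤ) + 2) = 0 ↔ False := by
    intro y; simp [w2_up_mod0 hL0 y]
  have b1 : ∀ y : ℤ, (up L y - 0 - 1) % ((L : ℤ) + 2) = 0 ↔ False := by
    intro y; simp [w2_up_mod1 hL0 y]
  ext x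
  rcases w2_pos_cases hL0 x with ⟨m, rfl⟩ | ⟨m, rfl⟩ | ⟨y, rfl⟩
  · rw [e_t (by omega), eFun_of_I, ins_zero]
    rw [hc]; simp
  · rw [e_t (by omega), eFun_of_J (by omega), ins_one]
    · ring
    · rw [hc]; simp
  · rw [e_t (by omega)]
    unfold eFun
    rw [hc]
    simp only [b0, b1, if_false]
    rw [ins_up]
    by_cases hy : y % (L : ℤ) = 0
    · obtain ⟨m, rfl⟩ := Int.dvd_of_emod_eq_zero hy
      rw [up_mul hL0, h3]
      have a3 : ¬ (((L : ℤ) + 2) * m + 1 - 0) % ((L : ℤ) + 2) = 0 := by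
        rw [sub_zero, w2_res0 (m := m) (s := 1) (by ring) (by omega) (by omega)]; omega
      rw [if_neg a3, if_pos (by simp),
        show ((L : ℤ) + 2) * m + 1 - 1 = ((L : ℤ) + 2) * m by ring, h1]
    · by_cases hz : α.t y % (L : ℤ) = 0
      · obtain ⟨m, hm⟩ := Int.dvd_of_emod_eq_zero hz
        have h7 := h4 m
        rw [← hm, α.inv] at h7
        rw [h7, if_pos (by simp), h2, hm, up_mul hL0]
      · rw [h5 y hy hz]
        simp only [b0, b1, if_false]

theorem ins_chi (n : ℕ) [NeZero n] : insN (chi n) = (chi (n + 1)).rotInv := by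
  have hn : 0 < n := Nat.pos_of_ne_zero (NeZero.ne n)
  have hL0 : 0 < 2 * n := by omega
  ext x
  show insFun (2 * n) (chiFun n) x = chiFun (n + 1) (x - 1) + 1
  rcases w2_pos_cases hL0 x with ⟨m, rfl⟩ | ⟨m, rfl⟩ | ⟨y, rfl⟩
  · rw [w2_insFun_zero]
    unfold chiFun
    push_cast
    have h := (w2_divmod (N := 2 * ((n : ℤ) + 1)) (x := (2 * n + 2) * m - 1 + (n + 1)) (m := m)
      (s := n) (by ring) (by omega) (by omega)).1
    rw [h]; ring
  · rw [w2_insFun_one]
    unfold chiFun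
    push_cast
    have h := (w2_divmod (N := 2 * ((n : ℤ) + 1)) (x := (2 * n + 2) * m + 1 - 1 + (n + 1)) (m := m)
      (s := n + 1) (by ring) (by omega) (by omega)).1
    rw [h]; ring
  · rw [w2_insFun_up hL0]
    obtain ⟨m, r, h, h0, h1⟩ := w2_rep (N := ((2 * n : ℕ) : ℤ)) (by exact_mod_cast hL0) y
    have hupy := w2_up_rep h h0 h1
    rw [hupy]
    unfold chiFun
    push_cast at h h0 h1 ⊢
    by_cases hr : r < n
    · have e1 := (w2_divmod (N := 2 * (n : ℤ)) (x := y + n) (m := m) (s := r + n)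
        (by rw [h]; ring) (by omega) (by omega)).1
      have e2 := (w2_divmod (N := 2 * ((n : ℤ) + 1)) (x := (2 * n + 2) * m + (r + 2) - 1 + (n + 1))
        (m := m) (s := r + 2 + n) (by ring) (by omega) (by omega)).1
      rw [e1, e2, h]
      have e3 := w2_up_rep (L := 2 * n) (y := 4 * n * m - 1 - (2 * n * m + r)) (m := m - 1)
        (r := 2 * n - 1 - r) (by push_cast; ring) (by omega) (by push_cast; omega)
      rw [e3]; push_cast; ring
    · have e1 := (w2_divmod (N := 2 * (n : ℤ)) (x := y + n) (m := m + 1) (s := r - n)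
        (by rw [h]; ring) (by omega) (by omega)).1
      have e2 := (w2_divmod (N := 2 * ((n : ℤ) + 1)) (x := (2 * n + 2) * m + (r + 2) - 1 + (n + 1))
        (m := m + 1) (s := r - n) (by ring) (by omega) (by omega)).1
      rw [e1, e2, h]
      have e3 := w2_up_rep (L := 2 * n) (y := 4 * n * (m + 1) - 1 - (2 * n * m + r)) (m := m + 1)
        (r := 2 * n - 1 - r) (by push_cast; ring) (by omega) (by push_cast; omega)
      rw [e3]; push_cast; ring

/-- `chi` is not in the image of `e i`, `0 ≤ i < 2 n - 1` -/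
theorem e_ne_chi {n : ℕ} [NeZero n] (i : ℕ) (hi : i + 1 < 2 * n) (π : Pat (2 * n)) :
    e i π ≠ chi n := by
  intro h
  have h1 : (e i π).t i = (chi n).t i := by rw [h]
  rw [e_t (by omega), eFun_of_I (by simp)] at h1
  have h2 : (chi n).t i = 4 * n * (((i : ℤ) + n) / (2 * n : ℤ)) - 1 - i := rfl
  rw [h2] at h1
  by_cases hin : i < n
  · rw [(w2_divmod (N := 2 * (n : ℤ)) (x := (i : ℤ) + n) (m := 0) (s := i + n) (by ring) (by omega)
      (by omega)).1] at h1
    omega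
  · rw [(w2_divmod (N := 2 * (n : ℤ)) (x := (i : ℤ) + n) (m := 1) (s := i - n) (by ring) (by omega)
      (by omega)).1] at h1
    omega

end Pool.Agent.H51.TA
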