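import Mathlib
import Pool.Agent.H51.TA.Defs
import Pool.Agent.H38.TA.Poly
import Pool.Agent.H51.TA.Rel
import Pool.Agent.H51.TA.Tri

namespace Pool.Agent.H51.TA

theorem EX_toAbs {L : ℕ} [NeZero L] {K : Type*} [Field K] {S : Set K} {G : Set (Fin L → K)}
    (hG : ∀ a ∈ G, ∀ i, a i ∈ S) {X : (Fin L → K) → Pat L → K} (h : EX S X) :
    Pool.Agent.H38.TA.EXg e G X := by
  intro a ha i hi α
  exact h a (hG a ha) i hi α

theorem ROT_toAbs {L : ℕ} [NeZero L] {K : Type*} [Field K] {S : Set K} {G : Set (Fin L → K)}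
    (hG : ∀ a ∈ G, ∀ i, a i ∈ S) {X : (Fin L → K) → Pat L → K} (h : ROT S X) :
    Pool.Agent.H38.TA.ROTg Pat.rot G X := by
  intro a ha π
  exact h a (hG a ha) π

theorem rot_bijective {L : ℕ} : Function.Bijective (Pat.rot : Pat L → Pat L) :=
  Function.bijective_iff_has_inverse.mpr ⟨Pat.rotInv, rotInv_rot, rot_rotInv⟩

theorem exists_poly {n : ℕ} [NeZero n] (μ : (Fin (2 * n) → ℝ) → Pat (2 * n) → ℝ)
    (hEX : EX (Set.Ioo 0 1) μ) (hROT : ROT (Set.Ioo 0 1) μ)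
    (hsum : ∀ a : Fin (2 * n) → ℝ, (∀ i, a i ∈ Set.Ioo (0 : ℝ) 1) → ∑ π, μ a π = 1) :
    ∃ P : Pat (2 * n) → MvPolynomial (Fin (2 * n)) ℝ,
      (∀ π i, (P π).degreeOf i ≤ 2 * n - 1) ∧
      (∀ a, MvPolynomial.eval a (P (chi n)) = Delta a) ∧
      EX Set.univ (fun (a : Fin (2 * n) → ℂ) π => MvPolynomial.aeval a (P π)) ∧
      ROT Set.univ (fun (a : Fin (2 * n) → ℂ) π => MvPolynomial.aeval a (P π)) ∧
      ∀ a : Fin (2 * n) → ℝ, Function.Injective a → (∀ i, a i ∈ Set.Ioo (0 : ℝ) 1) → ∀ π,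
        MvPolynomial.eval a (P π) = (∑ π', MvPolynomial.eval a (P π')) * μ a π := by
  have hn : 0 < n := Nat.pos_of_ne_zero (NeZero.ne n)
  obtain ⟨Q, h1, h2, h3, h4, h5⟩ := Pool.Agent.H38.TA.exists_poly_abs (L := 2 * n) (by omega)
    e Pat.rot (chi n) len e_e rot_e rot_bijective e_ne_chi
    (fun π => by
      rcases tri π with h | ⟨i, hi1, hi2⟩
      · exact Or.inl h
      · exact Or.inr ⟨i, hi1, hi2⟩)
    μ (EX_toAbs (fun a ha i => ha.2 i) hEX) (ROT_toAbs (fun a ha i => ha.2 i) hROT)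
    (fun a ha => hsum a ha.2)
  refine ⟨Q, h1, h2, ?_, ?_, fun a ha1 ha2 => h5 a ⟨ha1, ha2⟩⟩
  · intro a _ i hi α
    exact h3 a (Set.mem_univ _) i hi α
  · intro a _ π
    exact h4 a (Set.mem_univ _) π


end Pool.Agent.H51.TA
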