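import Pool.Agent.H51.TA.Defs

set_option autoImplicit false

/-!
# MP_fe58d8_pr, ALG part: the two-arm link (job 131; specification: helper51, proof: helper69)

For two patterns `π`, `π'` of period `L` and a strand at the position `c` (between the gaps `c` and
`c + 1`): if the loop through the strand is finite then the numbers `mc` of closed loops around the
gaps `c` and `c + 1` differ by one; if it is infinite then both numbers are `0`.
-/

namespace Pool.Agent.H51.TA

namespace TwoArmAux

/-- a finite set with a fixed point free involution has an even number of elements -/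
theorem even_ncard {S : Set ℤ} (hS : S.Finite) (f : ℤ → ℤ) (hinv : ∀ x, f (f x) = x)
    (hne : ∀ x, f x ≠ x) (hmem : ∀ x ∈ S, f x ∈ S) : Even S.ncard := by
  classical
  rw [← ZMod.natCast_eq_zero_iff_even, Set.ncard_eq_toFinset_card S hS, Finset.card_eq_sum_ones,
    Nat.cast_sum]
  refine Finset.sum_involution (fun x _ => f x) ?_ ?_ ?_ ?_
  · intro x _
    decide
  · intro x _ _
    exact hne x
  · intro x hx
    rw [Set.Finite.mem_toFinset] at hx ⊢
    exact hmem x hx
  · intro x _
    exact hinv x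

/-- the orbit of `x` -/
def orb (f g : ℤ → ℤ) (x : ℤ) : Set ℤ := {y | Loop f g x y}

variable {f g : ℤ → ℤ}

theorem mem_orb_self (x : ℤ) : x ∈ orb f g x := Relation.EqvGen.refl x

theorem orb_eq_of_mem {x y : ℤ} (h : y ∈ orb f g x) : orb f g x = orb f g y := by
  ext z
  exact ⟨fun hz => (Relation.EqvGen.symm _ _ h).trans _ _ _ hz, fun hz => h.trans _ _ _ hz⟩

theorem mem_orb_left {x y : ℤ} (h : y ∈ orb f g x) : f y ∈ orb f g x :=
  h.trans _ _ _ (Relation.EqvGen.rel _ _ (Or.inl rfl))

theorem mem_orb_right {x y : ℤ} (h : y ∈ orb f g x) : g y ∈ orb f g x :=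
  h.trans _ _ _ (Relation.EqvGen.rel _ _ (Or.inr rfl))

/-- a predicate that is preserved by both involutions is constant on orbits -/
theorem pred_const {p : ℤ → Prop} (hf : ∀ x, p x ↔ p (f x)) (hg : ∀ x, p x ↔ p (g x)) {x y : ℤ}
    (h : Loop f g x y) : p x ↔ p y := by
  induction h with
  | rel a b hab =>
    rcases hab with rfl | rfl
    · exact hf a
    · exact hg a
  | refl a => exact Iff.rfl
  | symm a b _ ih => exact ih.symm
  | trans a b c _ _ ih1 ih2 => exact ih1.trans ih2

/-- a predicate that is preserved by both involutions on the orbit is constant on it -/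
theorem pred_const_on {p : ℤ → Prop} {x : ℤ} (hf : ∀ z ∈ orb f g x, (p z ↔ p (f z)))
    (hg : ∀ z ∈ orb f g x, (p z ↔ p (g z))) {y : ℤ} (h : Loop f g x y) : p x ↔ p y := by
  have key : ∀ a b, Loop f g a b → a ∈ orb f g x → (p a ↔ p b) := by
    intro a b hab
    induction hab with
    | rel a b hab =>
      intro ha
      rcases hab with rfl | rfl
      · exact hf a ha
      · exact hg a ha
    | refl a => intro _; exact Iff.rfl
    | symm a b h ih =>
      intro hb
      exact (ih (hb.trans _ _ _ (Relation.EqvGen.symm _ _ h))).symm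
    | trans a b c h1 h2 ih1 ih2 =>
      intro ha
      exact (ih1 ha).trans (ih2 (ha.trans _ _ _ h1))
  exact key x y h (mem_orb_self x)

variable {L : ℕ}

theorem arc_lt (π : Pat L) (hL : 0 < L) (x : ℤ) : π.t x < x + L := by
  by_contra hcon
  push Not at hcon
  have hp := π.per x
  rcases eq_or_lt_of_le hcon with h | h
  · have h1 := π.inv x
    rw [← h, hp, ← h] at h1
    omega
  · have h1 := (π.nc x (x + L) (by omega) h).2
    rw [hp] at h1
    omega

theorem arc_gt (π : Pat L) (hL : 0 < L) (x : ℤ) : x - L < π.t x := by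
  have := arc_lt π hL (π.t x)
  rw [π.inv] at this
  omega

theorem even_orb (π π' : Pat L) {x : ℤ} (h : (orb π.t π'.t x).Finite) :
    Even (orb π.t π'.t x).ncard :=
  even_ncard h π.t π.inv π.ne (fun _ hy => mem_orb_left hy)

/-- every loop around the gap `c` contains a position in `[c - L, c)` -/
theorem finite_loops (π π' : Pat L) (hL : 0 < L) (c : ℤ) :
    (loopsAround π.t π'.t c).Finite := by
  refine Set.Finite.subset ((Set.finite_Ico (c - L) c).image (orb π.t π'.t)) ?_
  rintro O ⟨⟨x, rfl⟩, hfin, hodd⟩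
  change (orb π.t π'.t x).Finite at hfin
  change Odd (orb π.t π'.t x ∩ Set.Iio c).ncard at hodd
  by_contra hcon
  -- no element in `[c - L, c)`
  have hno : ∀ y ∈ orb π.t π'.t x, ¬ (c - L ≤ y ∧ y < c) := by
    intro y hy h
    exact hcon ⟨y, h, (orb_eq_of_mem hy).symm⟩
  have hcross : ∀ (σ : Pat L), (∀ y ∈ orb π.t π'.t x, σ.t y ∈ orb π.t π'.t x) →
      ∀ y ∈ orb π.t π'.t x, (y < c ↔ σ.t y < c) := by
    intro σ hσ y hy
    have h1 := hno y hy
    have h2 := hno _ (hσ y hy)
    have h3 := arc_lt σ hL y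
    have h4 := arc_gt σ hL y
    omega
  obtain ⟨y, hy, hyc⟩ : (orb π.t π'.t x ∩ Set.Iio c).Nonempty := by
    rw [Set.nonempty_iff_ne_empty]
    intro h
    rw [h, Set.ncard_empty] at hodd
    exact absurd hodd (by decide)
  have hx : x < c := by
    have := pred_const_on (p := fun z => z < c) (hcross π (fun _ h => mem_orb_left h))
      (hcross π' (fun _ h => mem_orb_right h)) hy
    exact this.2 hyc
  have hall : orb π.t π'.t x ∩ Set.Iio c = orb π.t π'.t x := by
    apply Set.inter_eq_left.2
    intro z hz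
    have := pred_const_on (p := fun z => z < c) (hcross π (fun _ h => mem_orb_left h))
      (hcross π' (fun _ h => mem_orb_right h)) hz
    exact this.1 hx
  rw [hall] at hodd
  exact (Nat.not_odd_iff_even.2 (even_orb π π' hfin)) hodd

theorem inter_Iio_succ_of_notMem {F : Set ℤ} {c : ℤ} (hc : c ∉ F) :
    F ∩ Set.Iio (c + 1) = F ∩ Set.Iio c := by
  ext z
  simp only [Set.mem_inter_iff, Set.mem_Iio]
  constructor
  · rintro ⟨h1, h2⟩
    have : z ≠ c := fun h => hc (h ▸ h1)
    exact ⟨h1, by omega⟩
  · rintro ⟨h1, h2⟩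
    exact ⟨h1, by omega⟩

theorem mem_loops_iff_of_ne (F : Set ℤ) {c : ℤ} (hc : F ≠ orb f g c) :
    F ∈ loopsAround f g c ↔ F ∈ loopsAround f g (c + 1) := by
  unfold loopsAround
  simp only [Set.mem_ofPred_eq]
  refine and_congr_right fun ⟨x, hx⟩ => ?_
  have hcF : c ∉ F := by
    intro h
    apply hc
    rw [hx] at h
    rw [hx]
    exact orb_eq_of_mem h
  rw [inter_Iio_succ_of_notMem hcF]

theorem mem_loops_self (f g : ℤ → ℤ) {c : ℤ} (hO : (orb f g c).Finite) :
    orb f g c ∈ loopsAround f g (c + 1) ↔ orb f g c ∉ loopsAround f g c := by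
  have h1 : ((orb f g c) ∩ Set.Iio (c + 1)) = insert c ((orb f g c) ∩ Set.Iio c) := by
    ext z
    simp only [Set.mem_inter_iff, Set.mem_Iio, Set.mem_insert_iff]
    constructor
    · rintro ⟨h1, h2⟩
      by_cases h3 : z = c
      · exact Or.inl h3
      · exact Or.inr ⟨h1, by omega⟩
    · rintro (rfl | ⟨h1, h2⟩)
      · exact ⟨mem_orb_self _, by omega⟩
      · exact ⟨h1, by omega⟩
  have h2 : ((orb f g c) ∩ Set.Iio (c + 1)).ncard = ((orb f g c) ∩ Set.Iio c).ncard + 1 := by
    rw [h1, Set.ncard_insert_of_notMem (by simp) (hO.subset Set.inter_subset_left)]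
  unfold loopsAround
  simp only [Set.mem_ofPred_eq]
  constructor
  · rintro ⟨-, -, h⟩ ⟨-, -, h'⟩
    rw [h2] at h
    exact (Nat.not_even_iff_odd.2 h) (h'.add_one)
  · intro h
    refine ⟨⟨c, rfl⟩, hO, ?_⟩
    rw [h2]
    refine Even.add_one (Nat.not_odd_iff_even.1 fun h' => h ⟨⟨c, rfl⟩, hO, h'⟩)

theorem insert_loops {f g : ℤ → ℤ} {c : ℤ} {a b : ℤ}
    (hab : ∀ F : Set ℤ, F ≠ orb f g c → (F ∈ loopsAround f g a ↔ F ∈ loopsAround f g b))
    (ha : orb f g c ∉ loopsAround f g a) (hb : orb f g c ∈ loopsAround f g b)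
    (hfin : (loopsAround f g a).Finite) : mc f g b = mc f g a + 1 := by
  have h1 : loopsAround f g b = insert (orb f g c) (loopsAround f g a) := by
    ext F
    rw [Set.mem_insert_iff]
    by_cases hF : F = orb f g c
    · subst hF
      simp [hb]
    · simp [hF, hab F hF]
  unfold mc
  rw [h1, Set.ncard_insert_of_notMem ha hfin]

/-- translation by a multiple of the period -/
theorem loop_add (π π' : Pat L) {x y : ℤ} (h : Loop π.t π'.t x y) :
    Loop π.t π'.t (x + L) (y + L) := by
  induction h with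
  | rel a b hab =>
    apply Relation.EqvGen.rel
    rcases hab with rfl | rfl
    · exact Or.inl (π.per a).symm
    · exact Or.inr (π'.per a).symm
  | refl a => exact Relation.EqvGen.refl _
  | symm a b _ ih => exact ih.symm _ _
  | trans a b c _ _ ih1 ih2 => exact ih1.trans _ _ _ ih2

theorem per_sub (π : Pat L) (a : ℤ) : π.t (a - L) = π.t a - L := by
  have := π.per (a - L)
  rw [sub_add_cancel] at this
  omega

theorem loop_sub (π π' : Pat L) {x y : ℤ} (h : Loop π.t π'.t x y) :
    Loop π.t π'.t (x - L) (y - L) := by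
  induction h with
  | rel a b hab =>
    apply Relation.EqvGen.rel
    rcases hab with rfl | rfl
    · exact Or.inl (per_sub π a).symm
    · exact Or.inr (per_sub π' a).symm
  | refl a => exact Relation.EqvGen.refl _
  | symm a b _ ih => exact ih.symm _ _
  | trans a b c _ _ ih1 ih2 => exact ih1.trans _ _ _ ih2

theorem loop_sub_mul (π π' : Pat L) {x y : ℤ} (h : Loop π.t π'.t x y) (k : ℕ) :
    Loop π.t π'.t (x - k * L) (y - k * L) := by
  induction k with
  | zero => simpa using h
  | succ k ih =>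
    have := loop_sub π π' ih
    have e1 : x - ((k + 1 : ℕ) : ℤ) * L = x - k * L - L := by push_cast; ring
    have e2 : y - ((k + 1 : ℕ) : ℤ) * L = y - k * L - L := by push_cast; ring
    rw [e1, e2]
    exact this

/-- an infinite orbit is unbounded below -/
theorem unbounded (π π' : Pat L) (hL : 0 < L) {c : ℤ} (hO : (orb π.t π'.t c).Infinite) (M : ℤ) :
    ∃ y ∈ orb π.t π'.t c, y < M := by
  -- two elements which are congruent mod `L`
  obtain ⟨x, hx, y, hy, hxy, hmod⟩ :=
    hO.exists_ne_map_eq_of_mapsTo (f := fun z : ℤ => z % L) (t := Set.Ico 0 (L : ℤ))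
      (fun z _ => ⟨Int.emod_nonneg _ (by omega), Int.emod_lt_of_pos _ (by omega)⟩)
      (Set.finite_Ico _ _)
  -- wlog `y < x`
  obtain ⟨k, hk, hk2⟩ : ∃ k : ℕ, 0 < k ∧ ∃ x ∈ orb π.t π'.t c, x - k * L ∈ orb π.t π'.t c := by
    have hmod' : x % (L : ℤ) = y % L := hmod
    rcases lt_or_gt_of_ne hxy with h | h
    · have h2 : (L : ℤ) ∣ y - x := (Int.emod_eq_emod_iff_emod_sub_eq_zero.1 hmod'.symm) |>
        Int.dvd_of_emod_eq_zero
      obtain ⟨k, hk⟩ := h2
      have hkpos : 0 < k := by
        by_contra hcon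
        push Not at hcon
        have : (L : ℤ) * k ≤ 0 := mul_nonpos_of_nonneg_of_nonpos (by omega) hcon
        omega
      refine ⟨k.toNat, by omega, y, hy, ?_⟩
      have : y - (k.toNat : ℤ) * L = x := by
        rw [Int.toNat_of_nonneg hkpos.le]
        linarith [hk, mul_comm (L : ℤ) k]
      rw [this]; exact hx
    · have h2 : (L : ℤ) ∣ x - y := (Int.emod_eq_emod_iff_emod_sub_eq_zero.1 hmod') |>
        Int.dvd_of_emod_eq_zero
      obtain ⟨k, hk⟩ := h2
      have hkpos : 0 < k := by
        by_contra hcon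
        push Not at hcon
        have : (L : ℤ) * k ≤ 0 := mul_nonpos_of_nonneg_of_nonpos (by omega) hcon
        omega
      refine ⟨k.toNat, by omega, x, hx, ?_⟩
      have : x - (k.toNat : ℤ) * L = y := by
        rw [Int.toNat_of_nonneg hkpos.le]
        linarith [hk, mul_comm (L : ℤ) k]
      rw [this]; exact hy
  obtain ⟨z, hz, hzk⟩ := hk2
  -- all `z - m k L` are in the orbit
  have hall : ∀ m : ℕ, z - ((m * k : ℕ) : ℤ) * L ∈ orb π.t π'.t c := by
    intro m
    induction m with
    | zero => simpa using hz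
    | succ m ih =>
      have h1 : Loop π.t π'.t z (z - k * L) :=
        (Relation.EqvGen.symm _ _ hz).trans _ _ _ hzk
      have h2 := loop_sub_mul π π' h1 (m * k)
      have h3 := ih.trans _ _ _ h2
      have e1 : z - (((m + 1) * k : ℕ) : ℤ) * L = z - k * L - ((m * k : ℕ) : ℤ) * L := by
        push_cast; ring
      rw [e1]
      exact h3
  refine ⟨_, hall ((z - M).toNat + 1), ?_⟩
  have h1 : ((z - M).toNat + 1 : ℤ) ≤ (((z - M).toNat + 1) * k : ℕ) * (L : ℤ) := by
    have : (z - M).toNat + 1 ≤ ((z - M).toNat + 1) * k * L := by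
      calc (z - M).toNat + 1 = ((z - M).toNat + 1) * 1 * 1 := by ring
        _ ≤ _ := by gcongr <;> omega
    exact_mod_cast this
  have h2 : z - M ≤ (z - M).toNat := Int.self_le_toNat _
  omega

/-- the number of elements of `F` to the left of `x` and of `σ x` have the same parity -/
theorem parity_step {F : Set ℤ} (hF : F.Finite) (σ : Pat L) (hσ : ∀ y ∈ F, σ.t y ∈ F) {x : ℤ}
    (hx : x ∉ F) : (Even (F ∩ Set.Iio x).ncard ↔ Even (F ∩ Set.Iio (σ.t x)).ncard) := by
  have key : ∀ x, x ∉ F → x < σ.t x →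
      (Even (F ∩ Set.Iio x).ncard ↔ Even (F ∩ Set.Iio (σ.t x)).ncard) := by
    intro x hx hlt
    have hsplit : F ∩ Set.Iio (σ.t x) = (F ∩ Set.Iio x) ∪ (F ∩ Set.Ioo x (σ.t x)) := by
      ext z
      simp only [Set.mem_inter_iff, Set.mem_Iio, Set.mem_union, Set.mem_Ioo]
      constructor
      · rintro ⟨h1, h2⟩
        have : z ≠ x := fun h => hx (h ▸ h1)
        by_cases h3 : z < x
        · exact Or.inl ⟨h1, h3⟩
        · exact Or.inr ⟨h1, by omega, h2⟩
      · rintro (⟨h1, h2⟩ | ⟨h1, h2, h3⟩)
        · exact ⟨h1, by omega⟩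
        · exact ⟨h1, h3⟩
    have hdisj : Disjoint (F ∩ Set.Iio x) (F ∩ Set.Ioo x (σ.t x)) := by
      rw [Set.disjoint_left]
      rintro z ⟨-, h1⟩ ⟨-, h2⟩
      have h3 : z < x := h1
      have h4 : x < z := h2.1
      omega
    rw [hsplit, Set.ncard_union_eq hdisj (hF.subset Set.inter_subset_left)
      (hF.subset Set.inter_subset_left), Nat.even_add]
    have heven : Even (F ∩ Set.Ioo x (σ.t x)).ncard := by
      refine even_ncard (hF.subset Set.inter_subset_left) σ.t σ.inv σ.ne ?_
      rintro z ⟨h1, h2, h3⟩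
      have := σ.nc x z h2 h3
      exact ⟨hσ z h1, this.1, this.2⟩
    simp [heven]
  rcases lt_trichotomy x (σ.t x) with h | h | h
  · exact key x hx h
  · exact absurd h.symm (σ.ne x)
  · have h1 : σ.t x ∉ F := by
      intro h2
      apply hx
      have := hσ _ h2
      rwa [σ.inv] at this
    have := key (σ.t x) h1 (by rw [σ.inv]; exact h)
    rw [σ.inv] at this
    exact this.symm

end TwoArmAux

open TwoArmAux

variable {L : ℕ}

/-- (a): if the loop through the strand at `c` is finite, the numbers of closed loops around the two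
adjacent gaps differ by one -/
theorem mc_of_finite (π π' : Pat L) (hL : 0 < L) (c : ℤ)
    (hO : {y | Loop π.t π'.t c y}.Finite) :
    mc π.t π'.t c = mc π.t π'.t (c + 1) + 1 ∨ mc π.t π'.t (c + 1) = mc π.t π'.t c + 1 := by
  change (orb π.t π'.t c).Finite at hO
  by_cases h : orb π.t π'.t c ∈ loopsAround π.t π'.t c
  · left
    have h' : orb π.t π'.t c ∉ loopsAround π.t π'.t (c + 1) := fun hh =>
      (mem_loops_self _ _ hO).1 hh h
    exact insert_loops (fun F hF => (mem_loops_iff_of_ne F hF).symm) h' h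
      (finite_loops π π' hL (c + 1))
  · right
    exact insert_loops (fun F hF => mem_loops_iff_of_ne F hF) h ((mem_loops_self _ _ hO).2 h)
      (finite_loops π π' hL c)

/-- (b): if the loop through the strand at `c` is infinite, no closed loop surrounds the two
adjacent gaps -/
theorem mc_of_infinite (π π' : Pat L) (hL : 0 < L) (c : ℤ)
    (hO : {y | Loop π.t π'.t c y}.Infinite) :
    mc π.t π'.t c = 0 ∧ mc π.t π'.t (c + 1) = 0 := by
  change (orb π.t π'.t c).Infinite at hO
  have h0 : loopsAround π.t π'.t c = ∅ := by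
    rw [Set.eq_empty_iff_forall_notMem]
    rintro F ⟨⟨x, hx⟩, hfin, hodd⟩
    change F = orb π.t π'.t x at hx
    have hdisj : ∀ z ∈ orb π.t π'.t c, z ∉ F := by
      intro z hz hzF
      rw [hx] at hzF hfin
      rw [orb_eq_of_mem hz, ← orb_eq_of_mem hzF] at hO
      exact hO hfin
    have hl : ∀ y ∈ F, π.t y ∈ F := by
      rw [hx]; exact fun y hy => mem_orb_left hy
    have hr : ∀ y ∈ F, π'.t y ∈ F := by
      rw [hx]; exact fun y hy => mem_orb_right hy
    obtain ⟨M, hM⟩ := hfin.bddBelow
    obtain ⟨y, hy, hyM⟩ := unbounded π π' hL hO M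
    have h1 := pred_const_on (p := fun z => Even (F ∩ Set.Iio z).ncard)
      (fun z hz => parity_step hfin π hl (hdisj z hz))
      (fun z hz => parity_step hfin π' hr (hdisj z hz)) hy
    have h2 : F ∩ Set.Iio y = ∅ := by
      rw [Set.eq_empty_iff_forall_notMem]
      rintro z ⟨hz1, hz2⟩
      have h3 := hM hz1
      have h4 : z < y := hz2
      omega
    have h3 : Even (F ∩ Set.Iio c).ncard := by
      apply h1.2
      show Even (F ∩ Set.Iio y).ncard
      rw [h2, Set.ncard_empty]
      exact Even.zero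
    exact (Nat.not_odd_iff_even.2 h3) hodd
  have h1 : loopsAround π.t π'.t (c + 1) = ∅ := by
    rw [Set.eq_empty_iff_forall_notMem]
    intro F hF
    have hne : F ≠ orb π.t π'.t c := by
      intro h
      have := hF.2.1
      rw [h] at this
      exact hO this
    have := (mem_loops_iff_of_ne F hne).2 hF
    rw [h0] at this
    exact this
  unfold mc
  rw [h0, h1]
  simp

/-- the strand at `c` lies on an infinite loop if and only if no closed loop surrounds the two
adjacent gaps -/
theorem mc_zero_iff_infinite (π π' : Pat L) (hL : 0 < L) (c : ℤ) :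
    (mc π.t π'.t c = 0 ∧ mc π.t π'.t (c + 1) = 0) ↔ {y | Loop π.t π'.t c y}.Infinite := by
  constructor
  · rintro ⟨h1, h2⟩ hfin
    rcases mc_of_finite π π' hL c hfin with h | h <;> omega
  · exact mc_of_infinite π π' hL c

/-- the two-arm link -/
theorem neg_one_pow_mc {R : Type*} [CommRing R] (π π' : Pat L) (hL : 0 < L) (c : ℤ)
    [Decidable (mc π.t π'.t c = 0 ∧ mc π.t π'.t (c + 1) = 0)] :
    (-1 : R) ^ mc π.t π'.t c + (-1 : R) ^ mc π.t π'.t (c + 1) =
      2 * (if mc π.t π'.t c = 0 ∧ mc π.t π'.t (c + 1) = 0 then 1 else 0) := by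
  by_cases hO : {y | Loop π.t π'.t c y}.Finite
  · rw [if_neg (fun h => (mc_zero_iff_infinite π π' hL c).1 h hO)]
    rcases mc_of_finite π π' hL c hO with h | h <;> rw [h, pow_succ] <;> ring
  · have := mc_of_infinite π π' hL c hO
    rw [if_pos this, this.1, this.2]
    norm_num

end Pool.Agent.H51.TA
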