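import Mathlib
import Pool.Agent.H51.TA.Det
import Pool.Agent.H51.TA.HalfPt
import Pool.Agent.H51.TA.Poly
import Pool.Agent.H51.TA.TwoArm
import Pool.Agent.H82.Arm.Main
import Pool.Agent.H90.TA.Pos

/-!
# The law of the number of contractible loops around a gap
-/

set_option autoImplicit false

open Filter Topology

namespace Pool.Agent.H51.TA

open Pool.Agent.H65.Perc
open Pool.Agent.H23.BO (pascal)

/-- a polynomial solution together with its relation to the homogeneous chain -/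
structure PolData (n : ℕ) [NeZero n] (P : Pat (2 * n) → MvPolynomial (Fin (2 * n)) ℝ) : Prop where
  sol : IsSol (fun (a : Fin (2 * n) → ℂ) π => MvPolynomial.aeval a (P π))
  hom : (∑ π, MvPolynomial.eval (fun _ => (1 / 2 : ℝ)) (P π)) ≠ 0 →
    ∀ Ψ : (PX (2 * n) → ℝ) →ₗ[ℝ] ℝ,
      (∀ f : PX (2 * n) → ℝ, ∀ x, Tendsto (fun M : ℕ => (SX (1 / 2) ^ M) f x) atTop (𝓝 (Ψ f))) →
      ∀ f : Pat (2 * n) → ℝ, Ψ (fun x => f (toPat x)) =
        ∑ π, (MvPolynomial.eval (fun _ => (1 / 2 : ℝ)) (P π) /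
          ∑ π', MvPolynomial.eval (fun _ => (1 / 2 : ℝ)) (P π')) * f π

/-- injective tuples converging to the homogeneous point -/
noncomputable def uu (n : ℕ) (k : ℕ) (i : Fin (2 * n)) : ℝ :=
  1 / 2 + (1 / ((k : ℝ) + 3)) * ((((i : ℕ) : ℝ) + 1) / (2 * (n : ℝ) + 1))

theorem uu_inj (n : ℕ) (k : ℕ) : Function.Injective (uu n k) := by
  intro i j h
  unfold uu at h
  have h1 : (1 / ((k : ℝ) + 3)) ≠ 0 := by positivity
  have h2 : (2 * (n : ℝ) + 1) ≠ 0 := by positivity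
  have h3 := mul_left_cancel₀ h1 (add_left_cancel h)
  rw [div_left_inj' h2] at h3
  have h4 : ((i : ℕ) : ℝ) = ((j : ℕ) : ℝ) := add_right_cancel h3
  exact Fin.ext (by exact_mod_cast h4)

theorem uu_mem (n : ℕ) (k : ℕ) (i : Fin (2 * n)) : uu n k i ∈ Set.Ioo (0 : ℝ) 1 := by
  unfold uu
  have h1 : (0 : ℝ) < 1 / ((k : ℝ) + 3) := by positivity
  have h2 : (0 : ℝ) < (((i : ℕ) : ℝ) + 1) / (2 * (n : ℝ) + 1) := by positivity
  have h3 : 1 / ((k : ℝ) + 3) ≤ 1 / 3 :=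
    one_div_le_one_div_of_le (by norm_num) (by linarith [Nat.cast_nonneg (α := ℝ) k])
  have h4 : (((i : ℕ) : ℝ) + 1) / (2 * (n : ℝ) + 1) ≤ 1 := by
    rw [div_le_one (by positivity)]
    have := i.2
    have h5 : ((i : ℕ) : ℝ) + 1 ≤ 2 * (n : ℝ) := by exact_mod_cast this
    linarith
  constructor
  · positivity
  · have : (1 / ((k : ℝ) + 3)) * ((((i : ℕ) : ℝ) + 1) / (2 * (n : ℝ) + 1)) ≤ 1 / 3 * 1 :=
      mul_le_mul h3 h4 h2.le (by norm_num)
    linarith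

theorem uu_tendsto (n : ℕ) : Tendsto (uu n) atTop (𝓝 (fun _ => 1 / 2)) := by
  rw [tendsto_pi_nhds]
  intro i
  unfold uu
  have h1 : Tendsto (fun k : ℕ => (1 / ((k : ℝ) + 3))) atTop (𝓝 0) := by
    have h2 : Tendsto (fun k : ℕ => (k : ℝ) + 3) atTop atTop :=
      tendsto_atTop_add_const_right _ _ tendsto_natCast_atTop_atTop
    simp only [one_div]
    exact h2.inv_tendsto_atTop
  have h2 := (h1.mul_const ((((i : ℕ) : ℝ) + 1) / (2 * (n : ℝ) + 1))).const_add (1 / 2)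
  simpa using h2

theorem exists_polData (n : ℕ) [NeZero n] : ∃ P, PolData n P := by
  obtain ⟨μ, hEX, hROT, hpos, hhom⟩ := exists_mu n
  obtain ⟨P, hdeg, hchi, hPEX, hPROT, hPμ⟩ := exists_poly μ hEX hROT (fun a ha => (hpos a ha).2)
  refine ⟨P, ⟨fun π => ?_, hPEX, hPROT, fun a => ?_⟩, ?_⟩
  · refine ⟨(P π).map (algebraMap ℝ ℂ), fun i => ?_, fun a => ?_⟩
    · refine le_trans ?_ (hdeg π i)
      classical
      rw [MvPolynomial.degreeOf_def, MvPolynomial.degreeOf_def]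
      exact Multiset.count_le_of_le _ (MvPolynomial.degrees_map_le)
    · rw [MvPolynomial.eval_map]
      exact MvPolynomial.aeval_def _ _
  · -- the equality of polynomials over `ℝ` transfers to `ℂ`
    have hQ : P (chi n) = ∏ i, ∏ j ∈ Finset.Ioi i,
        (1 - MvPolynomial.X j + MvPolynomial.X i * MvPolynomial.X j) := by
      apply MvPolynomial.funext
      intro b
      rw [hchi b]
      simp [Delta, D, map_prod]
    rw [hQ]
    simp [Delta, D, map_prod]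
  · intro hne Ψ hlim f
    set c : Fin (2 * n) → ℝ := fun _ => 1 / 2 with hc
    have hcont : ∀ π, Tendsto (fun k => MvPolynomial.eval (uu n k) (P π)) atTop
        (𝓝 (MvPolynomial.eval c (P π))) := fun π =>
      ((MvPolynomial.continuous_eval (P π)).tendsto c).comp (uu_tendsto n)
    have hcontS : Tendsto (fun k => ∑ π, MvPolynomial.eval (uu n k) (P π)) atTop
        (𝓝 (∑ π, MvPolynomial.eval c (P π))) := tendsto_finsetSum _ fun π _ => hcont π
    refine hhom Ψ hlim (uu n) (fun π => MvPolynomial.eval c (P π) /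
          ∑ π', MvPolynomial.eval c (P π')) (fun k i => uu_mem n k i) (uu_tendsto n) (fun π => ?_) f
    have h1 := (hcont π).div hcontS hne
    refine h1.congr' ?_
    filter_upwards [hcontS.eventually_ne hne] with k hk
    change MvPolynomial.eval (uu n k) (P π) / (∑ π, MvPolynomial.eval (uu n k) (P π)) = μ (uu n k) π
    rw [hPμ (uu n k) (uu_inj n k) (uu_mem n k) π, mul_comm, mul_div_assoc, div_self hk, mul_one]

/-- the ratio of the determinants -/
noncomputable def gdet (n : ℕ) (w : ℂ) : ℂ :=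
  (w ^ n)⁻¹ * (w • (1 : Matrix (Fin (2 * n)) (Fin (2 * n)) ℂ) + pascal (2 * n)).det

theorem gdet_ne_zero (n : ℕ) {q : ℂ} (hq : q ^ 2 - q + 1 = 0) : gdet n q ≠ 0 := by
  have hq0 : q ≠ 0 := by rintro rfl; norm_num at hq
  exact mul_ne_zero (inv_ne_zero (pow_ne_zero _ hq0)) (Pool.Agent.H90.TA.det_ne_zero _ _ hq)

/-- the polynomials -/
noncomputable def Pp (n : ℕ) [NeZero n] : Pat (2 * n) → MvPolynomial (Fin (2 * n)) ℝ :=
  (exists_polData n).choose

theorem Pp_spec (n : ℕ) [NeZero n] : PolData n (Pp n) :=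
  (exists_polData n).choose_spec

/-- the polynomial solutions -/
noncomputable def Ph (n : ℕ) [NeZero n] : (Fin (2 * n) → ℂ) → Pat (2 * n) → ℂ :=
  fun a π => MvPolynomial.aeval a (Pp n π)

theorem Ph_sol (n : ℕ) [NeZero n] : IsSol (Ph n) := (Pp_spec n).sol

/-- the values at the homogeneous point -/
noncomputable def val (n : ℕ) [NeZero n] (π : Pat (2 * n)) : ℝ :=
  MvPolynomial.eval (fun _ => (1 / 2 : ℝ)) (Pp n π)

theorem Ph_half (n : ℕ) [NeZero n] (π : Pat (2 * n)) :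
    Ph n (fun _ => 1 / 2) π = ((val n π : ℝ) : ℂ) := by
  unfold Ph val
  have h := MvPolynomial.aeval_algebraMap_apply (A := ℝ) ℂ (fun _ : Fin (2 * n) => (1 / 2 : ℝ))
    (Pp n π)
  have h2 : (fun i : Fin (2 * n) => (algebraMap ℝ ℂ) ((fun _ : Fin (2 * n) => (1 / 2 : ℝ)) i)) =
      (fun _ => (1 / 2 : ℂ)) := by
    funext i; simp
  have h3 : (⇑(algebraMap ℝ ℂ) ∘ fun _ : Fin (2 * n) => (1 / 2 : ℝ)) =
      (fun _ => (1 / 2 : ℂ)) := by
    funext i; simp
  rw [h3] at h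
  rw [h]
  simp

theorem Num_half (n : ℕ) [NeZero n] (c : ℤ) {w q : ℂ} (hw : w ≠ 0) (hq : q ^ 2 - q + 1 = 0) :
    (∑ π, ∑ π', (val n π : ℂ) * (val n π' : ℂ) * (w + w⁻¹) ^ mc π.t π'.t c) =
      (9 / 16) ^ (n * (2 * n - 1)) * gdet n w := by
  have h1 := Num_gap (w + w⁻¹) (Ph_sol n) c (fun _ => 1 / 2)
  have h2 := Num_eq_MM (fun n _ => Ph n) (fun n _ => Ph_sol n) hw hq n (fun _ => 1 / 2)
  rw [MM_half] at h2
  rw [gdet, ← mul_assoc, ← h2, ← h1]
  unfold Num form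
  have h3 : (fun _ : Fin (2 * n) => (1 : ℂ) - 1 / 2) = (fun _ => 1 / 2) := by
    funext i; norm_num
  refine Finset.sum_congr rfl fun π _ => Finset.sum_congr rfl fun π' _ => ?_
  rw [h3, Ph_half, Ph_half]

theorem q_add_inv {q : ℂ} (hq : q ^ 2 - q + 1 = 0) : q + q⁻¹ = 1 := by
  have hq0 : q ≠ 0 := by rintro rfl; norm_num at hq
  field_simp
  linear_combination hq

theorem sum_val_sq (n : ℕ) [NeZero n] {q : ℂ} (hq : q ^ 2 - q + 1 = 0) :
    ((∑ π, val n π : ℝ) : ℂ) ^ 2 = (9 / 16) ^ (n * (2 * n - 1)) * gdet n q := by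
  have hq0 : q ≠ 0 := by rintro rfl; norm_num at hq
  rw [← Num_half n 0 hq0 hq, q_add_inv hq, sq]
  push_cast
  rw [Finset.sum_mul_sum]
  simp

theorem sum_val_ne (n : ℕ) [NeZero n] : (∑ π, val n π) ≠ 0 := by
  obtain ⟨q, hq⟩ : ∃ q : ℂ, q ^ 2 - q + 1 = 0 := by
    obtain ⟨q, hq⟩ := IsAlgClosed.exists_eq_mul_self (-3 : ℂ)
    exact ⟨(1 + q) / 2, by linear_combination (-1 / 4) * hq⟩
  intro h
  have h1 := sum_val_sq n hq
  rw [h] at h1
  have h2 := gdet_ne_zero n hq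
  have h3 : ((9 / 16 : ℂ)) ^ (n * (2 * n - 1)) ≠ 0 := pow_ne_zero _ (by norm_num)
  exact (mul_ne_zero h3 h2) (by rw [← h1]; simp)

/-- the expectation of a function of the pattern -/
theorem hom_val (n : ℕ) [NeZero n] (Ψ : (PX (2 * n) → ℝ) →ₗ[ℝ] ℝ)
    (hlim : ∀ f : PX (2 * n) → ℝ, ∀ x, Tendsto (fun M : ℕ => (SX (1 / 2) ^ M) f x) atTop (𝓝 (Ψ f)))
    (f : Pat (2 * n) → ℝ) :
    Ψ (fun x => f (toPat x)) = (∑ π, val n π * f π) / ∑ π, val n π := by
  rw [(Pp_spec n).hom (sum_val_ne n) Ψ hlim f, Finset.sum_div]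
  refine Finset.sum_congr rfl fun π _ => ?_
  change val n π / (∑ π, val n π) * f π = _
  ring

theorem hom_val2 (n : ℕ) [NeZero n] (Ψ : (PX (2 * n) → ℝ) →ₗ[ℝ] ℝ)
    (hlim : ∀ f : PX (2 * n) → ℝ, ∀ x, Tendsto (fun M : ℕ => (SX (1 / 2) ^ M) f x) atTop (𝓝 (Ψ f)))
    (f : Pat (2 * n) → Pat (2 * n) → ℝ) :
    Ψ (fun x => Ψ (fun y => f (toPat x) (toPat y))) =
      (∑ π, ∑ π', val n π * val n π' * f π π') / (∑ π, val n π) ^ 2 := by
  have h1 : (fun x : PX (2 * n) => Ψ (fun y => f (toPat x) (toPat y))) =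
      (fun x => (fun π => (∑ π', val n π' * f π π') / ∑ π, val n π) (toPat x)) := by
    funext x
    exact hom_val n Ψ hlim (fun π' => f (toPat x) π')
  rw [h1, hom_val n Ψ hlim (fun π => (∑ π', val n π' * f π π') / ∑ π, val n π)]
  rw [sq, ← div_div]
  congr 1
  rw [Finset.sum_div]
  refine Finset.sum_congr rfl fun π _ => ?_
  rw [mul_div_assoc', Finset.mul_sum]
  congr 1
  refine Finset.sum_congr rfl fun π' _ => ?_
  ring

/-- **the law of the number of contractible loops around a gap** -/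
theorem law (n : ℕ) [NeZero n] (Ψ : (PX (2 * n) → ℝ) →ₗ[ℝ] ℝ)
    (hlim : ∀ f : PX (2 * n) → ℝ, ∀ x, Tendsto (fun M : ℕ => (SX (1 / 2) ^ M) f x) atTop (𝓝 (Ψ f)))
    (c : ℤ) (τ : ℝ) {w q : ℂ} (hw : w ≠ 0) (hτ : (τ : ℂ) = w + w⁻¹) (hq : q ^ 2 - q + 1 = 0) :
    ((Ψ fun x => Ψ fun y => τ ^ mc (toPat x).t (toPat y).t c : ℝ) : ℂ) = gdet n w / gdet n q := by
  rw [hom_val2 n Ψ hlim (fun π π' => τ ^ mc π.t π'.t c)]
  push_cast
  have h1 := Num_half n c hw hq
  have h2 := sum_val_sq n hq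
  push_cast at h2
  rw [h2, hτ, h1, mul_div_mul_left _ _ (pow_ne_zero _ (by norm_num))]

open Classical in
/-- **the two-arm probability**: no contractible loop around two consecutive gaps -/
theorem law_two (n : ℕ) [NeZero n] (Ψ : (PX (2 * n) → ℝ) →ₗ[ℝ] ℝ)
    (hlim : ∀ f : PX (2 * n) → ℝ, ∀ x, Tendsto (fun M : ℕ => (SX (1 / 2) ^ M) f x) atTop (𝓝 (Ψ f)))
    (c : ℤ) {w q : ℂ} (hw : w ^ 2 + w + 1 = 0) (hq : q ^ 2 - q + 1 = 0) :
    ((Ψ fun x => Ψ fun y => (if mc (toPat x).t (toPat y).t c = 0 ∧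
      mc (toPat x).t (toPat y).t (c + 1) = 0 then (1 : ℝ) else 0) : ℝ) : ℂ) =
        gdet n w / gdet n q := by
  have hw0 : w ≠ 0 := by rintro rfl; norm_num at hw
  have hw1 : ((-1 : ℝ) : ℂ) = w + w⁻¹ := by
    push_cast
    field_simp
    linear_combination -hw
  have h1 := law n Ψ hlim c (-1) hw0 hw1 hq
  have h2 := law n Ψ hlim (c + 1) (-1) hw0 hw1 hq
  have h3 : (fun x : PX (2 * n) => Ψ fun y => (if mc (toPat x).t (toPat y).t c = 0 ∧
      mc (toPat x).t (toPat y).t (c + 1) = 0 then (1 : ℝ) else 0)) =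
      (1 / 2 : ℝ) • ((fun x => Ψ fun y => (-1 : ℝ) ^ mc (toPat x).t (toPat y).t c) +
        (fun x => Ψ fun y => (-1 : ℝ) ^ mc (toPat x).t (toPat y).t (c + 1))) := by
    funext x
    simp only [Pi.smul_apply, Pi.add_apply]
    rw [← map_add, ← map_smul]
    congr 1
    funext y
    simp only [Pi.smul_apply, Pi.add_apply, smul_eq_mul]
    rw [neg_one_pow_mc (R := ℝ) (toPat x) (toPat y) (Nat.pos_of_ne_zero (NeZero.ne (2 * n))) c]
    ring
  rw [h3, map_smul, map_add]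
  rw [smul_eq_mul]
  push_cast
  rw [h1, h2]
  ring

end Pool.Agent.H51.TA
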