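import Mathlib
import Pool.Agent.H51.TA.Main
import Pool.Agent.H13.Pascal.Bridge
import Pool.Agent.H98.Izer.Asym3
import Pool.Agent.H65.Perc.Assembly

/-!
# One-arm and two-arm probabilities of the stationary half-cylinder states, up to constants
-/

set_option autoImplicit false

open Filter Topology

namespace Pool.Agent.H51.TA

open Pool.Agent.H65.Perc
open Pool.Agent.H23.BO (pascal)
open Pool.Agent.H98.Izer (rR rR_bounds rR_tendsto det_ratio)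

theorem norm_q {q : ℂ} (hq : q ^ 2 - q + 1 = 0) : ‖q‖ = 1 := by
  have h : q ^ 6 = 1 := by linear_combination (q ^ 4 + q ^ 3 - q - 1) * hq
  have h2 : ‖q‖ ^ 6 = 1 := by rw [← norm_pow, h, norm_one]
  exact (pow_eq_one_iff_of_nonneg (norm_nonneg q) (by norm_num)).1 h2

theorem norm_w {w : ℂ} (hw : w ^ 2 + w + 1 = 0) : ‖w‖ = 1 := by
  have h : w ^ 3 = 1 := by linear_combination (w - 1) * hw
  have h2 : ‖w‖ ^ 3 = 1 := by rw [← norm_pow, h, norm_one]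
  exact (pow_eq_one_iff_of_nonneg (norm_nonneg w) (by norm_num)).1 h2

theorem exists_q : ∃ q : ℂ, q ^ 2 - q + 1 = 0 := by
  obtain ⟨q, hq⟩ := IsAlgClosed.exists_eq_mul_self (-3 : ℂ)
  exact ⟨(1 + q) / 2, by linear_combination (-1 / 4) * hq⟩

theorem det_ratio' (n : ℕ) (w q : ℂ) (hw : w ^ 2 + w + 1 = 0) (hq : q ^ 2 - q + 1 = 0) :
    ‖(w • (1 : Matrix (Fin (2 * n)) (Fin (2 * n)) ℂ) + pascal (2 * n)).det‖ /
      ‖(q • (1 : Matrix (Fin (2 * n)) (Fin (2 * n)) ℂ) + pascal (2 * n)).det‖ = rR n := by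
  have h : (pascal (2 * n) : Matrix (Fin (2 * n)) (Fin (2 * n)) ℂ) =
      Matrix.of fun i j : Fin (2 * n) => ((((i : ℕ) + j).choose i : ℕ) : ℂ) := by
    ext i j
    rfl
  rw [h]
  exact det_ratio n w q hw hq

theorem gdet_ratio (n : ℕ) (w q : ℂ) (hw : w ^ 2 + w + 1 = 0) (hq : q ^ 2 - q + 1 = 0) :
    ‖gdet n w / gdet n q‖ = rR n := by
  rw [gdet, gdet, norm_div, norm_mul, norm_mul, norm_inv, norm_inv, norm_pow, norm_pow, norm_q hq,
    norm_w hw, one_pow, inv_one, one_mul, one_mul, det_ratio' n w q hw hq]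

/-- the functional is positive -/
theorem psi_nonneg {n : ℕ} [NeZero n] {Ψ : (PX (2 * n) → ℝ) →ₗ[ℝ] ℝ}
    (hlim : ∀ f : PX (2 * n) → ℝ, ∀ x, Tendsto (fun M : ℕ => (SX (1 / 2) ^ M) f x) atTop (𝓝 (Ψ f)))
    (x : PX (2 * n)) (f : PX (2 * n) → ℝ) (hf : ∀ x, 0 ≤ f x) : 0 ≤ Ψ f := by
  refine ge_of_tendsto' (hlim f x) (fun M => ?_)
  have h := avg_rows (extX f) M x
  rw [resX_extX] at h
  rw [h]
  refine mul_nonneg (by positivity) (Finset.sum_nonneg fun ω _ => ?_)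
  by_cases hs : Planar (runRows (extRows ω) M x.1)
  · rw [extX_apply hs]
    exact hf _
  · simp [extX, hs]

theorem norm_psi {n : ℕ} [NeZero n] {Ψ : (PX (2 * n) → ℝ) →ₗ[ℝ] ℝ}
    (hlim : ∀ f : PX (2 * n) → ℝ, ∀ x, Tendsto (fun M : ℕ => (SX (1 / 2) ^ M) f x) atTop (𝓝 (Ψ f)))
    (x : PX (2 * n)) (F : PX (2 * n) → PX (2 * n) → ℝ) (hF : ∀ x y, 0 ≤ F x y) :
    ‖((Ψ fun x => Ψ fun y => F x y : ℝ) : ℂ)‖ = Ψ fun x => Ψ fun y => F x y := by
  rw [Complex.norm_real, Real.norm_eq_abs, abs_of_nonneg]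
  exact psi_nonneg hlim x _ fun a => psi_nonneg hlim x _ fun b => hF a b

/-- **one arm**: no contractible loop around a gap -/
theorem one_arm : ∃ c C : ℝ, 0 < c ∧ 0 < C ∧ ∀ (n : ℕ) [NeZero n] (Ψ : (PX (2 * n) → ℝ) →ₗ[ℝ] ℝ),
    (∀ f : PX (2 * n) → ℝ, ∀ x, Tendsto (fun M : ℕ => (SX (1 / 2) ^ M) f x) atTop (𝓝 (Ψ f))) →
    PX (2 * n) → ∀ g : ℤ,
      c * (n : ℝ) ^ (-(5 / 48) : ℝ) ≤ Ψ (fun x => Ψ fun y => 0 ^ mc (toPat x).t (toPat y).t g) ∧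
      Ψ (fun x => Ψ fun y => 0 ^ mc (toPat x).t (toPat y).t g) ≤ C * (n : ℝ) ^ (-(5 / 48) : ℝ) := by
  obtain ⟨c, C, hc, hC, h⟩ := Pool.Agent.H13.Pascal.one_arm_of (by
    obtain ⟨c, C, hc, hC, h⟩ := rR_bounds
    refine ⟨c, hc, fun n hn w q hw hq => ?_⟩
    rw [det_ratio' n w q hw hq]
    exact (h n hn).1)
  refine ⟨c, C, hc, hC, ?_⟩
  intro n _ Ψ hlim x0 g
  obtain ⟨q, hq⟩ := exists_q
  have hI : Complex.I ^ 2 + 1 = 0 := by rw [Complex.I_sq]; ring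
  have h1 := h n (Nat.one_le_iff_ne_zero.2 (NeZero.ne n)) Complex.I q hI hq
  have h2 := law n Ψ hlim g 0 (w := Complex.I) (q := q) Complex.I_ne_zero
    (by rw [Complex.inv_I]; simp) hq
  have h3 := norm_psi hlim x0 (fun x y => 0 ^ mc (toPat x).t (toPat y).t g)
    (fun x y => pow_nonneg le_rfl _)
  rw [h2, norm_div] at h3
  rw [← h3]
  exact h1

open Classical in
/-- the two-arm probability is exactly `A(2n) / A_HT(2n)^2` -/
theorem two_arm_eq (n : ℕ) [NeZero n] (Ψ : (PX (2 * n) → ℝ) →ₗ[ℝ] ℝ)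
    (hlim : ∀ f : PX (2 * n) → ℝ, ∀ x, Tendsto (fun M : ℕ => (SX (1 / 2) ^ M) f x) atTop (𝓝 (Ψ f)))
    (x0 : PX (2 * n)) (g : ℤ) :
    Ψ (fun x => Ψ fun y => if mc (toPat x).t (toPat y).t g = 0 ∧
      mc (toPat x).t (toPat y).t (g + 1) = 0 then (1 : ℝ) else 0) = rR n := by
  obtain ⟨q, hq⟩ := exists_q
  have hw : (-q) ^ 2 + (-q) + 1 = 0 := by linear_combination hq
  have h1 := law_two n Ψ hlim g hw hq
  have h2 := norm_psi hlim x0 (fun x y => if mc (toPat x).t (toPat y).t g = 0 ∧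
      mc (toPat x).t (toPat y).t (g + 1) = 0 then (1 : ℝ) else 0)
    (fun x y => by split_ifs <;> norm_num)
  rw [h1, gdet_ratio n _ q hw hq] at h2
  exact h2.symm

end Pool.Agent.H51.TA
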