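import Pool.Agent.H51.TA.Rel

set_option autoImplicit false

/-!
# MP_fe58d8_pr, ALG part, JOB N, part 1: calculus of `PF`, vectors, the form (no loop combinatorics)
-/

namespace Pool.Agent.H51.TA

namespace FB

open Finset

/-! ## `PF` calculus -/

section PFcalc

variable {K : Type*} [Field K] {L : ℕ}

theorem pf_mono {d d' : ℕ} {f : (Fin L → K) → K} (h : PF d f) (hd : d ≤ d') : PF d' f := by
  obtain ⟨P, h1, h2⟩ := h
  exact ⟨P, fun i => (h1 i).trans hd, h2⟩

theorem pf_mul {d d' : ℕ} {f g : (Fin L → K) → K} (hf : PF d f) (hg : PF d' g) :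
    PF (d + d') (fun a => f a * g a) := by
  obtain ⟨P, h1, h2⟩ := hf
  obtain ⟨Q, h3, h4⟩ := hg
  refine ⟨P * Q, fun i => ?_, fun a => by simp [h2, h4]⟩
  exact (MvPolynomial.degreeOf_mul_le i P Q).trans (Nat.add_le_add (h1 i) (h3 i))

theorem pf_const (c : K) : PF (L := L) 0 (fun _ => c) :=
  ⟨MvPolynomial.C c, fun i => by simp [MvPolynomial.degreeOf_C], fun a => by simp⟩

theorem pf_sum {ι : Type*} (s : Finset ι) {d : ℕ} {f : ι → (Fin L → K) → K}
    (hf : ∀ i ∈ s, PF d (f i)) : PF d (fun a => ∑ i ∈ s, f i a) := by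
  classical
  induction s using Finset.induction_on with
  | empty => simpa using pf_mono (pf_const (L := L) (0 : K)) (Nat.zero_le d)
  | insert i s hi ih =>
    obtain ⟨P, h1, h2⟩ := hf i (Finset.mem_insert_self i s)
    obtain ⟨Q, h3, h4⟩ := ih (fun j hj => hf j (Finset.mem_insert_of_mem hj))
    refine ⟨P + Q, fun k => ?_, fun a => ?_⟩
    · exact (MvPolynomial.degreeOf_add_le k P Q).trans (max_le (h1 k) (h3 k))
    · have h5 : ∑ j ∈ s, f j a = MvPolynomial.eval a Q := h4 a
      change ∑ j ∈ insert i s, f j a = _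
      rw [Finset.sum_insert hi, h2, h5, map_add]

theorem pf_const_mul {d : ℕ} {f : (Fin L → K) → K} (c : K) (hf : PF d f) :
    PF d (fun a => c * f a) := by
  have := pf_mul (pf_const (L := L) c) hf
  rwa [Nat.zero_add] at this

theorem pf_refl1 {d : ℕ} {f : (Fin L → K) → K} (hf : PF d f) :
    PF d (fun a => f (fun i => 1 - a i)) := by
  classical
  obtain ⟨P, h1, h2⟩ := hf
  refine ⟨MvPolynomial.bind₁ (fun i => 1 - MvPolynomial.X i) P, fun i => ?_, fun a => ?_⟩
  · rw [MvPolynomial.bind₁, MvPolynomial.aeval_def, MvPolynomial.eval₂_eq]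
    refine (MvPolynomial.degreeOf_sum_le i _ _).trans (Finset.sup_le fun m hm => ?_)
    refine (MvPolynomial.degreeOf_mul_le i _ _).trans ?_
    rw [MvPolynomial.algebraMap_eq, MvPolynomial.degreeOf_C, Nat.zero_add]
    refine (MvPolynomial.degreeOf_prod_le i _ _).trans ?_
    have h3 : ∀ j ∈ m.support, MvPolynomial.degreeOf i
        ((1 - MvPolynomial.X j : MvPolynomial (Fin L) K) ^ (m j)) ≤ if j = i then m i else 0 := by
      intro j _
      refine (MvPolynomial.degreeOf_pow_le i _ _).trans ?_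
      have h4 : MvPolynomial.degreeOf i (1 - MvPolynomial.X j : MvPolynomial (Fin L) K) ≤
          if j = i then 1 else 0 := by
        refine (MvPolynomial.degreeOf_sub_le i _ _).trans (max_le ?_ ?_)
        · rw [MvPolynomial.degreeOf_one]; exact Nat.zero_le _
        · rw [MvPolynomial.degreeOf_X]
          split_ifs with ha hb hb
          · exact le_refl _
          · exact absurd ha.symm hb
          · exact absurd hb.symm ha
          · exact le_refl _
      split_ifs at h4 ⊢ with hj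
      · subst hj; exact (Nat.mul_le_mul_left _ h4).trans (by simp)
      · have : MvPolynomial.degreeOf i (1 - MvPolynomial.X j : MvPolynomial (Fin L) K) = 0 := by
          omega
        simp [this]
    refine (Finset.sum_le_sum h3).trans ?_
    rw [Finset.sum_ite_eq']
    split_ifs with hi
    · exact (MvPolynomial.monomial_le_degreeOf i hm).trans (h1 i)
    · exact Nat.zero_le _
  · change f (fun i => 1 - a i) = _
    rw [h2, MvPolynomial.eval, MvPolynomial.eval, MvPolynomial.eval₂Hom_bind₁]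
    simp

theorem pf_continuous {d : ℕ} {f : (Fin L → ℂ) → ℂ} (hf : PF d f) : Continuous f := by
  obtain ⟨P, -, h2⟩ := hf
  have : f = fun a => MvPolynomial.eval a P := funext h2
  rw [this]
  exact MvPolynomial.continuous_eval P

theorem pf_comp_perm {d : ℕ} {f : (Fin L → K) → K} (hf : PF d f) (s : Equiv.Perm (Fin L)) :
    PF d (fun a => f (a ∘ s)) := by
  obtain ⟨P, h1, h2⟩ := hf
  refine ⟨MvPolynomial.rename s P, fun i => ?_, fun a => ?_⟩
  · obtain ⟨j, rfl⟩ := s.surjective i
    rw [MvPolynomial.degreeOf_rename_of_injective s.injective]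
    exact h1 j
  · change f (a ∘ s) = _
    rw [h2, MvPolynomial.eval_rename]

/-- cancellation of a polynomial factor which is not identically zero -/
theorem pf_cancel {d d' : ℕ} {f g : (Fin L → ℂ) → ℂ} (hf : PF d f) (hg : PF d' g)
    (h : ∀ a, f a * g a = 0) (hf0 : ∃ a, f a ≠ 0) (a : Fin L → ℂ) : g a = 0 := by
  obtain ⟨P, -, h2⟩ := hf
  obtain ⟨Q, -, h4⟩ := hg
  have h5 : P * Q = 0 := by
    apply MvPolynomial.funext
    intro x
    rw [map_mul, ← h2, ← h4, h, map_zero]
  rcases mul_eq_zero.mp h5 with h6 | h6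
  · obtain ⟨b, hb⟩ := hf0
    exact absurd (by rw [h2, h6, map_zero]) hb
  · rw [h4, h6, map_zero]

end PFcalc

/-! ## permutations from adjacent transpositions -/

theorem perm_invariant {K : Type*} {L : ℕ} (f : (Fin L → K) → K)
    (h : ∀ (a : Fin L → K) (i : ℕ) (hi : i + 1 < L),
      f (a ∘ Equiv.swap ⟨i, by omega⟩ ⟨i + 1, hi⟩) = f a)
    (s : Equiv.Perm (Fin L)) (a : Fin L → K) : f (a ∘ s) = f a := by
  rcases Nat.eq_zero_or_pos L with rfl | hL
  · congr 1; funext i; exact i.elim0
  · obtain ⟨m, rfl⟩ : ∃ m, L = m + 1 := ⟨L - 1, by omega⟩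
    have hs : s ∈ Submonoid.closure (Set.range fun i : Fin m => Equiv.swap i.castSucc i.succ) := by
      rw [Equiv.Perm.mclosure_swap_castSucc_succ]; trivial
    induction hs using Submonoid.closure_induction generalizing a with
    | mem x hx =>
      obtain ⟨i, rfl⟩ := hx
      exact h a i (by omega)
    | one => rfl
    | mul x y _ _ hx hy =>
      have : a ∘ (x * y : Equiv.Perm (Fin (m + 1))) = (a ∘ x) ∘ y := rfl
      rw [this, hy, hx]

/-! ## the operator `e i` on vectors, adjointness -/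

section Form

variable {L : ℕ} [NeZero L]

/-- the linear operator `e i` on vectors -/
noncomputable def eV (i : ℤ) (v : Pat L → ℂ) : Pat L → ℂ := fun α => ∑ π with e i π = α, v π

theorem sum_eV (i : ℤ) (v : Pat L → ℂ) (g : Pat L → ℂ) :
    ∑ α, eV i v α * g α = ∑ π, v π * g (e i π) := by
  classical
  unfold eV
  simp_rw [Finset.sum_mul]
  rw [← Finset.sum_fiberwise (s := Finset.univ) (g := fun π : Pat L => e i π)
    (f := fun π => v π * g (e i π))]
  refine Finset.sum_congr rfl fun α _ => Finset.sum_congr rfl fun π hπ => ?_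
  rw [Finset.mem_filter] at hπ
  rw [hπ.2]

theorem form_eq (τ : ℂ) (c : ℤ) (v w : Pat L → ℂ) :
    form τ c v w = ∑ π, v π * ∑ π', w π' * τ ^ mc π.t π'.t c := by
  unfold form
  refine Finset.sum_congr rfl fun π _ => ?_
  rw [Finset.mul_sum]
  exact Finset.sum_congr rfl fun π' _ => by ring

theorem form_eq' (τ : ℂ) (c : ℤ) (v w : Pat L → ℂ) :
    form τ c v w = ∑ π', w π' * ∑ π, v π * τ ^ mc π.t π'.t c := by
  unfold form
  rw [Finset.sum_comm]
  refine Finset.sum_congr rfl fun π _ => ?_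
  rw [Finset.mul_sum]
  exact Finset.sum_congr rfl fun π' _ => by ring

theorem form_add_left (τ : ℂ) (c : ℤ) (x y : ℂ) (v v' w : Pat L → ℂ) :
    form τ c (fun π => x * v π + y * v' π) w = x * form τ c v w + y * form τ c v' w := by
  unfold form
  simp_rw [Finset.mul_sum, ← Finset.sum_add_distrib]
  exact Finset.sum_congr rfl fun π _ => Finset.sum_congr rfl fun π' _ => by ring

theorem form_add_right (τ : ℂ) (c : ℤ) (x y : ℂ) (v w w' : Pat L → ℂ) :
    form τ c v (fun π => x * w π + y * w' π) = x * form τ c v w + y * form τ c v w' := by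
  unfold form
  simp_rw [Finset.mul_sum, ← Finset.sum_add_distrib]
  exact Finset.sum_congr rfl fun π _ => Finset.sum_congr rfl fun π' _ => by ring

theorem form_smul_left (τ : ℂ) (c : ℤ) (x : ℂ) (v w : Pat L → ℂ) :
    form τ c (fun π => x * v π) w = x * form τ c v w := by
  unfold form
  simp_rw [Finset.mul_sum]
  exact Finset.sum_congr rfl fun π _ => Finset.sum_congr rfl fun π' _ => by ring

theorem form_smul_right (τ : ℂ) (c : ℤ) (x : ℂ) (v w : Pat L → ℂ) :
    form τ c v (fun π => x * w π) = x * form τ c v w := by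
  unfold form
  simp_rw [Finset.mul_sum]
  exact Finset.sum_congr rfl fun π _ => Finset.sum_congr rfl fun π' _ => by ring

theorem eV_eV (i : ℤ) (v : Pat L → ℂ) : eV i (eV i v) = eV i v := by
  classical
  funext α
  have h1 := sum_eV i (eV i v) (fun β => if β = α then 1 else 0)
  have h2 := sum_eV i v (fun β => if e i β = α then 1 else 0)
  have h3 := sum_eV i v (fun β => if β = α then 1 else 0)
  simp only [e_e] at h2
  rw [h2, ← h3] at h1
  simpa using h1

theorem D_refl (x y : ℂ) : D (1 - x) (1 - y) = D y x := by unfold D; ring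

theorem ex_apply {Φ : (Fin L → ℂ) → Pat L → ℂ} (h : EX Set.univ Φ) (a : Fin L → ℂ) (i : ℕ)
    (hi : i + 1 < L) :
    (fun α => D (a ⟨i, by omega⟩) (a ⟨i + 1, hi⟩) *
        Φ (a ∘ Equiv.swap ⟨i, by omega⟩ ⟨i + 1, hi⟩) α) =
      fun α => D (a ⟨i + 1, hi⟩) (a ⟨i, by omega⟩) * Φ a α +
        (a ⟨i, by omega⟩ - a ⟨i + 1, hi⟩) * eV (i : ℤ) (Φ a) α :=
  funext fun α => h a (fun _ => Set.mem_univ _) i hi α

end Form

/-! ## `Num` is a symmetric polynomial function -/

theorem Num_PF {L : ℕ} [NeZero L] (τ : ℂ) {Φ : (Fin L → ℂ) → Pat L → ℂ} {d : ℕ}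
    (hΦ : ∀ π, PF d (fun a => Φ a π)) (c : ℤ) : PF (d + d) (Num τ c Φ) := by
  unfold Num form
  refine pf_sum _ fun π _ => pf_sum _ fun π' _ => ?_
  have h1 := pf_const_mul (τ ^ mc π.t π'.t c) (pf_mul (hΦ π) (pf_refl1 (hΦ π')))
  have h2 : (fun a : Fin L → ℂ => Φ a π * Φ (fun i => 1 - a i) π' * τ ^ mc π.t π'.t c) =
      fun a => τ ^ mc π.t π'.t c * (Φ a π * Φ (fun i => 1 - a i) π') := by
    funext a; ring
  rw [h2]
  exact h1

theorem pf_D {L : ℕ} (i j : Fin L) : PF (K := ℂ) 2 (fun a => D (a i) (a j)) := by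
  classical
  refine ⟨1 - MvPolynomial.X j + MvPolynomial.X i * MvPolynomial.X j, fun k => ?_, fun a => ?_⟩
  · have hX : ∀ l : Fin L, MvPolynomial.degreeOf k (MvPolynomial.X l : MvPolynomial (Fin L) ℂ) ≤ 1 := by
      intro l
      rw [MvPolynomial.degreeOf_X]; split_ifs <;> omega
    refine (MvPolynomial.degreeOf_add_le k _ _).trans (max_le ?_ ?_)
    · refine (MvPolynomial.degreeOf_sub_le k _ _).trans (max_le ?_ ((hX j).trans one_le_two))
      rw [MvPolynomial.degreeOf_one]; exact Nat.zero_le _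
    · exact (MvPolynomial.degreeOf_mul_le k _ _).trans (Nat.add_le_add (hX i) (hX j))
  · simp [D]

/-! ## recursion -/

theorem kap_refl {L : ℕ} (x y : ℂ) (b : Fin L → ℂ) :
    kap (1 - y) (1 - x) (fun j => 1 - b j) = kap x y b := by
  unfold kap
  simp only [D_refl]
  congr 1
  exact Finset.prod_congr rfl fun j _ => mul_comm _ _

theorem cons2_zero {n : ℕ} (x y : ℂ) (b : Fin (2 * n) → ℂ) (h : 0 < 2 * (n + 1)) :
    cons2 x y b ⟨0, h⟩ = x := rfl

theorem cons2_one {n : ℕ} (x y : ℂ) (b : Fin (2 * n) → ℂ) (h : 0 + 1 < 2 * (n + 1)) :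
    cons2 x y b ⟨0 + 1, h⟩ = y := rfl

theorem cons2_swap {n : ℕ} (x y : ℂ) (b : Fin (2 * n) → ℂ) (h : 0 < 2 * (n + 1))
    (h' : 0 + 1 < 2 * (n + 1)) :
    cons2 x y b ∘ Equiv.swap ⟨0, h⟩ ⟨0 + 1, h'⟩ = cons2 y x b := by
  funext i
  rcases i with ⟨i, hi⟩
  rcases i with _ | _ | i
  · rw [Function.comp_apply, Equiv.swap_apply_left]; rfl
  · rw [Function.comp_apply]
    have h1 : (⟨0 + 1, hi⟩ : Fin (2 * (n + 1))) = ⟨0 + 1, h'⟩ := rfl
    rw [h1, Equiv.swap_apply_right]; rfl
  · rw [Function.comp_apply, Equiv.swap_apply_of_ne_of_ne]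
    · rfl
    · intro h; simp at h
    · intro h; simp at h

theorem cons2_refl {n : ℕ} (x y : ℂ) (b : Fin (2 * n) → ℂ) :
    (fun i => 1 - cons2 x y b i) = cons2 (1 - x) (1 - y) (fun j => 1 - b j) := by
  funext i
  rcases i with ⟨i, hi⟩
  rcases i with _ | _ | i <;> rfl

theorem eV_cons2 {n : ℕ} {Φ' : (Fin (2 * (n + 1)) → ℂ) → Pat (2 * (n + 1)) → ℂ}
    (hΦ' : EX Set.univ Φ') (x y : ℂ) (hxy : D y x = 0) (hne : x ≠ y) (b : Fin (2 * n) → ℂ) :
    eV 0 (Φ' (cons2 x y b)) = Φ' (cons2 y x b) := by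
  have h1 := ex_apply hΦ' (cons2 x y b) 0 (by omega)
  rw [cons2_swap, cons2_zero, cons2_one, hxy] at h1
  have h2 : D x y = x - y := by
    have : D x y - D y x = x - y := by unfold D; ring
    rw [← this, hxy, sub_zero]
  funext α
  have h3 := congrFun h1 α
  simp only [Nat.cast_zero, zero_mul, zero_add] at h3
  rw [h2] at h3
  exact (mul_left_cancel₀ (sub_ne_zero.mpr hne) h3).symm

theorem insN_inj {n : ℕ} [NeZero n] {α β : Pat (2 * n)} (h : insN α = insN β) : α = β :=
  ins_inj h

theorem sum_insN {n : ℕ} [NeZero n] (v G : Pat (2 * (n + 1)) → ℂ)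
    (hv : ∀ π, (∀ α : Pat (2 * n), π ≠ insN α) → v π = 0) :
    ∑ π, v π * G π = ∑ α : Pat (2 * n), v (insN α) * G (insN α) := by
  classical
  rw [← Finset.sum_image (s := Finset.univ) (g := fun α : Pat (2 * n) => insN α)
    (f := fun π => v π * G π) (fun α _ β _ h => insN_inj h)]
  symm
  refine Finset.sum_subset (Finset.subset_univ _) fun π _ hπ => ?_
  rw [hv π, zero_mul]
  rintro α rfl
  exact hπ (Finset.mem_image_of_mem _ (Finset.mem_univ α))

theorem e_zero_insN {n : ℕ} [NeZero n] (α : Pat (2 * n)) : e 0 (insN α) = insN α :=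
  e_zero_ins α

theorem D_eq_zero_iff (x y : ℂ) : D x y = 0 ↔ (x ≠ 1 ∧ y = (1 - x)⁻¹) := by
  unfold D
  constructor
  · intro h
    have h1 : y * (1 - x) = 1 := by linear_combination -h
    have h2 : x ≠ 1 := by rintro rfl; simp at h1
    refine ⟨h2, eq_inv_of_mul_eq_one_left h1⟩
  · rintro ⟨h1, rfl⟩
    have h2 : (1 - x) ≠ 0 := fun h => h1 (by linear_combination -h)
    field_simp
    ring

/-! ## `n = 1` -/

theorem pat_two_zero (π : Pat 2) : π.t 0 = 1 ∨ π.t 0 = -1 := by
  have hp := π.per 0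
  have hp' := π.per (-2)
  have hne := π.ne 0
  have hi := π.inv 0
  simp only [Nat.cast_ofNat, zero_add] at hp
  rw [show (-2 : ℤ) + (2 : ℕ) = 0 by norm_num] at hp'
  push_cast at hp'
  rcases lt_trichotomy (π.t 0) 0 with h | h | h
  · right
    by_contra h1
    have h2 : π.t 0 ≤ -2 := by omega
    rcases h2.lt_or_eq with h3 | h3
    · -- arcs (t 0, 0) and (t 0 + 2, 2)
      have h4 := π.nc (π.t 0) (π.t 0 + 2) (by omega) (by omega)
      have h5 := π.per (π.t 0)
      push_cast at h5
      omega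
    · rw [h3] at hi; omega
  · exact absurd h hne
  · left
    by_contra h1
    have h2 : 2 ≤ π.t 0 := by omega
    rcases h2.lt_or_eq with h3 | h3
    · have h4 := π.nc 0 2 (by omega) h3
      omega
    · rw [← h3] at hi; omega

theorem pat_per_mul {L : ℕ} (π : Pat L) (k : ℤ) (x : ℤ) : π.t (x + k * L) = π.t x + k * L := by
  induction k using Int.induction_on with
  | zero => simp
  | succ k ih =>
    rw [show x + ((k : ℤ) + 1) * L = (x + k * L) + L by ring, π.per, ih]; ring
  | pred k ih =>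
    have h1 := π.per (x + (-(k : ℤ) - 1) * L)
    rw [show x + (-(k : ℤ) - 1) * L + L = x + -(k : ℤ) * L by ring, ih] at h1
    linarith

theorem pat_two_ext (π π' : Pat 2) (h : π.t 0 = π'.t 0) : π = π' := by
  have h0 : ∀ k : ℤ, π.t (k * 2) = π'.t (k * 2) := by
    intro k
    have h1 := pat_per_mul π k 0
    have h2 := pat_per_mul π' k 0
    push_cast at h1 h2
    rw [zero_add] at h1 h2
    rw [h1, h2, h]
  ext x
  rcases Int.even_or_odd' x with ⟨k, hk | hk⟩
  · rw [hk, mul_comm]; exact h0 k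
  · rcases pat_two_zero π with h3 | h3
    · -- t (2k) = 2k+1
      have h1 := pat_per_mul π k 0
      have h2 := pat_per_mul π' k 0
      rw [← h, h3] at h2
      rw [h3] at h1
      push_cast at h1 h2
      have h4 := π.inv (0 + k * 2)
      have h5 := π'.inv (0 + k * 2)
      rw [h1] at h4
      rw [h2] at h5
      rw [hk, show 2 * k + 1 = 1 + k * 2 by ring, h4, h5]
    · have h1 := pat_per_mul π (k + 1) 0
      have h2 := pat_per_mul π' (k + 1) 0
      rw [← h, h3] at h2
      rw [h3] at h1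
      push_cast at h1 h2
      have h4 := π.inv (0 + (k + 1) * 2)
      have h5 := π'.inv (0 + (k + 1) * 2)
      rw [h1] at h4
      rw [h2] at h5
      rw [hk, show 2 * k + 1 = -1 + (k + 1) * 2 by ring, h4, h5]

theorem loop_self_iff (f : ℤ → ℤ) (hf : ∀ x, f (f x) = x) (x y : ℤ) :
    Loop f f x y ↔ y = x ∨ y = f x := by
  constructor
  · intro h
    induction h with
    | rel x y h => rcases h with h | h <;> exact Or.inr h
    | refl x => exact Or.inl rfl
    | symm x y _ ih =>
      rcases ih with h | h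
      · exact Or.inl h.symm
      · right; rw [h, hf]
    | trans x y z _ _ ih1 ih2 =>
      rcases ih1 with h1 | h1 <;> rcases ih2 with h2 | h2
      · left; rw [h2, h1]
      · right; rw [h2, h1]
      · right; rw [h2, h1]
      · left; rw [h2, h1, hf]
  · rintro (h | h)
    · rw [h]; exact Relation.EqvGen.refl _
    · exact Relation.EqvGen.rel _ _ (Or.inl h)

theorem loop_self_set (f : ℤ → ℤ) (hf : ∀ x, f (f x) = x) (x : ℤ) :
    {y | Loop f f x y} = {x, f x} := by
  ext y
  rw [Set.mem_ofPred_eq, loop_self_iff f hf]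
  rfl

theorem mc_self_zero (f : ℤ → ℤ) (hf : ∀ x, f (f x) = x) (hne : ∀ x, f x ≠ x)
    (h : ∀ x, x < 0 ↔ f x < 0) : mc f f 0 = 0 := by
  have h1 : loopsAround f f 0 = ∅ := by
    rw [Set.eq_empty_iff_forall_notMem]
    rintro O ⟨⟨x, rfl⟩, -, hodd⟩
    rw [loop_self_set f hf] at hodd
    by_cases hx : x < 0
    · have h2 : ({x, f x} : Set ℤ) ∩ Set.Iio 0 = {x, f x} := by
        apply Set.inter_eq_left.mpr
        rintro y (rfl | hy)
        · exact hx
        · rw [Set.mem_singleton_iff] at hy; rw [hy]; exact (h x).mp hx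
      rw [h2, Set.ncard_pair (hne x).symm] at hodd
      exact absurd hodd (by decide)
    · have h2 : ({x, f x} : Set ℤ) ∩ Set.Iio 0 = ∅ := by
        rw [Set.eq_empty_iff_forall_notMem]
        rintro y ⟨rfl | hy, hy'⟩
        · exact hx hy'
        · rw [Set.mem_singleton_iff] at hy; rw [hy] at hy'; exact hx ((h x).mpr hy')
      rw [h2, Set.ncard_empty] at hodd
      exact absurd hodd (by decide)
  rw [mc, h1, Set.ncard_empty]

theorem mc_self_one (f : ℤ → ℤ) (hf : ∀ x, f (f x) = x) (hne : ∀ x, f x ≠ x)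
    (h0 : f 0 = -1) (h1 : ∀ x, 0 < x → 0 ≤ f x) (h2 : ∀ x, x < -1 → f x < 0) :
    mc f f 0 = 1 := by
  have hm1 : f (-1) = 0 := by rw [← h0, hf]
  have h1 : loopsAround f f 0 = {{-1, 0}} := by
    ext O
    rw [Set.mem_singleton_iff]
    constructor
    · rintro ⟨⟨x, rfl⟩, -, hodd⟩
      rw [loop_self_set f hf] at hodd ⊢
      rcases lt_trichotomy x 0 with hx | hx | hx
      · by_cases hx1 : x = -1
        · rw [hx1, hm1]
        · exfalso
          have hx2 := h2 x (by omega)
          have h2 : ({x, f x} : Set ℤ) ∩ Set.Iio 0 = {x, f x} := by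
            apply Set.inter_eq_left.mpr
            rintro y (rfl | hy)
            · exact hx
            · rw [Set.mem_singleton_iff] at hy; rw [hy]; exact hx2
          rw [h2, Set.ncard_pair (hne x).symm] at hodd
          exact absurd hodd (by decide)
      · rw [hx, h0, Set.pair_comm]
      · exfalso
        have hx2 := h1 x hx
        have h2 : ({x, f x} : Set ℤ) ∩ Set.Iio 0 = ∅ := by
          rw [Set.eq_empty_iff_forall_notMem]
          rintro y ⟨rfl | hy, hy'⟩
          · have : y < 0 := hy'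
            omega
          · rw [Set.mem_singleton_iff] at hy; rw [hy] at hy'
            have : f x < 0 := hy'
            omega
        rw [h2, Set.ncard_empty] at hodd
        exact absurd hodd (by decide)
    · rintro rfl
      refine ⟨⟨-1, ?_⟩, Set.toFinite _, ?_⟩
      · rw [loop_self_set f hf, hm1]
      · have h2 : ({-1, 0} : Set ℤ) ∩ Set.Iio 0 = {-1} := by
          ext y
          simp only [Set.mem_inter_iff, Set.mem_insert_iff, Set.mem_singleton_iff, Set.mem_Iio]
          omega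
        rw [h2, Set.ncard_singleton]
        exact odd_one
  rw [mc, h1, Set.ncard_singleton]

theorem mc_infinite (f g : ℤ → ℤ) (h : ∀ x, Loop f g x (x + 1)) (c : ℤ) : mc f g c = 0 := by
  have h0 : ∀ x y, Loop f g x y := by
    intro x y
    obtain ⟨k, rfl⟩ : ∃ k, y = x + k := ⟨y - x, by ring⟩
    induction k using Int.induction_on with
    | zero => rw [add_zero]; exact Relation.EqvGen.refl _
    | succ k ih =>
      have := h (x + k)
      rw [show x + ((k : ℤ) + 1) = x + k + 1 by ring]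
      exact Relation.EqvGen.trans _ _ _ ih this
    | pred k ih =>
      have := h (x + (-(k : ℤ) - 1))
      rw [show x + (-(k : ℤ) - 1) + 1 = x + -(k : ℤ) by ring] at this
      exact Relation.EqvGen.trans _ _ _ ih (Relation.EqvGen.symm _ _ this)
  have h1 : loopsAround f g c = ∅ := by
    rw [Set.eq_empty_iff_forall_notMem]
    rintro O ⟨⟨x, rfl⟩, hfin, -⟩
    have : {y | Loop f g x y} = Set.univ := Set.eq_univ_of_forall (h0 x)
    rw [this] at hfin
    exact Set.infinite_univ hfin
  rw [mc, h1, Set.ncard_empty]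

theorem chi_one_t (x : ℤ) : (chi 1).t x = 4 * ((x + 1) / 2) - 1 - x := by
  change chiFun 1 x = _
  unfold chiFun
  norm_num

theorem chi_one_rot_t (x : ℤ) : (chi 1).rot.t x = 4 * ((x + 2) / 2) - 3 - x := by
  change (chi 1).t (x + 1) - 1 = _
  rw [chi_one_t, show x + 1 + 1 = x + 2 by ring]
  ring

theorem mc_chi_chi : mc (chi 1).t (chi 1).t 0 = 1 := by
  refine mc_self_one _ (chi 1).inv (chi 1).ne ?_ ?_ ?_
  · rw [chi_one_t]; norm_num
  · intro x hx; rw [chi_one_t]; omega
  · intro x hx; rw [chi_one_t]; omega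

theorem mc_rot_rot : mc (chi 1).rot.t (chi 1).rot.t 0 = 0 := by
  refine mc_self_zero _ (chi 1).rot.inv (chi 1).rot.ne ?_
  intro x
  rw [chi_one_rot_t]; omega

theorem mc_chi_rot : mc (chi 1).t (chi 1).rot.t 0 = 0 := by
  refine mc_infinite _ _ (fun x => Relation.EqvGen.rel _ _ ?_) 0
  rw [chi_one_t, chi_one_rot_t]; omega

theorem mc_rot_chi : mc (chi 1).rot.t (chi 1).t 0 = 0 := by
  refine mc_infinite _ _ (fun x => Relation.EqvGen.rel _ _ ?_) 0
  rw [chi_one_t, chi_one_rot_t]; omega

theorem univ_two : (Finset.univ : Finset (Pat (2 * 1))) = {chi 1, (chi 1).rot} := by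
  have h0 : (chi 1).t 0 = -1 := by rw [chi_one_t]; norm_num
  have h1 : (chi 1).rot.t 0 = 1 := by rw [chi_one_rot_t]; norm_num
  symm
  rw [Finset.eq_univ_iff_forall]
  intro π
  rw [Finset.mem_insert, Finset.mem_singleton]
  rcases pat_two_zero π with h | h
  · right; exact pat_two_ext π (chi 1).rot (h.trans h1.symm)
  · left; exact pat_two_ext π (chi 1) (h.trans h0.symm)

theorem chi_ne_rot : chi 1 ≠ (chi 1).rot := by
  intro h
  have h0 : (chi 1).t 0 = -1 := by rw [chi_one_t]; norm_num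
  have h1 : (chi 1).rot.t 0 = 1 := by rw [chi_one_rot_t]; norm_num
  rw [← h, h0] at h1
  omega

theorem Delta_one (a : Fin (2 * 1) → ℂ) : Delta a = D (a 0) (a 1) := by
  unfold Delta
  change ∏ i : Fin 2, ∏ j ∈ Finset.Ioi i, D (a i) (a j) = _
  rw [Fin.prod_univ_two]
  have h0 : Finset.Ioi (0 : Fin 2) = {1} := by decide
  have h1 : Finset.Ioi (1 : Fin 2) = ∅ := by decide
  rw [h0, h1, Finset.prod_singleton, Finset.prod_empty, mul_one]

end FB

end Pool.Agent.H51.TA
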